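import Pool.Agent.W947.CR.Word

/-!
# From layouts to runs
-/

namespace Pool.Agent.W947.CR

open scoped Classical

/-- The net of the upper terminal of a column. -/
def tp (W : List (ℕ × ℕ)) (c : ℕ) : ℕ := (W.getD (c - 1) (0, 0)).1

/-- The net of the lower terminal of a column. -/
def bt (W : List (ℕ × ℕ)) (c : ℕ) : ℕ := (W.getD (c - 1) (0, 0)).2

/-- A layout together with the columns. -/
structure Cols (S : ℕ → Set Pt) (w M : ℕ) (W : List (ℕ × ℕ)) : Prop where
  lay : Lay S w
  top : ∀ c, 1 ≤ c → c ≤ W.length → Top S w (tp W c) c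
  bot : ∀ c, 1 ≤ c → c ≤ W.length → Bot S (bt W c) c
  eq : ∀ c, 1 ≤ c → c ≤ W.length → M ≤ tp W c → bt W c = tp W c
  ord : ∀ c d, 1 ≤ c → c < d → d ≤ W.length → M ≤ tp W c → M ≤ tp W d → tp W c < tp W d

variable {S : ℕ → Set Pt} {w M l : ℕ} {W : List (ℕ × ℕ)}

theorem Cols.inj (hC : Cols S w M W) {c d : ℕ} (hc : 1 ≤ c) (hc' : c ≤ W.length) (hd : 1 ≤ d)
    (hd' : d ≤ W.length) (hMc : M ≤ tp W c) (hMd : M ≤ tp W d) (h : tp W c = tp W d) : c = d := by
  rcases lt_trichotomy c d with h1 | h1 | h1
  · have := hC.ord c d hc h1 hd' hMc hMd; omega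
  · exact h1
  · have := hC.ord d c hd h1 hc' hMd hMc; omega

theorem tp_append {pre rest : List (ℕ × ℕ)} {k : ℕ} :
    tp (pre ++ rest) (pre.length + k + 1) = (rest.getD k (0, 0)).1 := by
  unfold tp
  rw [Nat.add_sub_cancel, List.getD_append_right _ _ _ _ (by omega)]
  congr 2
  omega

theorem bt_append {pre rest : List (ℕ × ℕ)} {k : ℕ} :
    bt (pre ++ rest) (pre.length + k + 1) = (rest.getD k (0, 0)).2 := by
  unfold bt
  rw [Nat.add_sub_cancel, List.getD_append_right _ _ _ _ (by omega)]
  congr 2
  omega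

theorem zn_getD {j k : ℕ} {rest : List (ℕ × ℕ)} (hk : k < l) :
    ((zn M l j ++ rest).getD k (0, 0)).1 = M + j * l + k := by
  rw [List.getD_append _ _ _ _ (by rw [zn_length]; exact hk)]
  rw [List.getD_eq_getElem _ _ (by rw [zn_length]; exact hk)]
  simp [zn]

theorem zone_ge {pre rest : List (ℕ × ℕ)} {j : ℕ} (hW : W = pre ++ (zn M l j ++ rest)) {c : ℕ}
    (h1 : pre.length < c) (h2 : c ≤ pre.length + l) : M ≤ tp W c := by
  obtain ⟨k, rfl⟩ : ∃ k, c = pre.length + k + 1 := ⟨c - pre.length - 1, by omega⟩
  rw [hW, tp_append, zn_getD (by omega)]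
  omega

theorem exists_top (hC : Cols S w M W) {pre rest : List (ℕ × ℕ)} (hW : W = pre ++ rest)
    {p : ℕ × ℕ} (hp : p ∈ rest) : ∃ q ∈ S p.1, pre.length < q.1 := by
  obtain ⟨k, hk, rfl⟩ := List.getElem_of_mem hp
  have h1 : tp W (pre.length + k + 1) = rest[k].1 := by
    rw [hW, tp_append, List.getD_eq_getElem _ _ hk]
  have h2 := hC.top (pre.length + k + 1) (by omega) (by rw [hW, List.length_append]; omega)
  rw [h1] at h2
  exact ⟨_, h2.1, by simp only; omega⟩

theorem zone_step (hC : Cols S w M W) (hl : 2 * (w + 1) ^ 2 < l) {pre rest : List (ℕ × ℕ)}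
    {j : ℕ} (hW : W = pre ++ (zn M l j ++ rest)) {A : Finset ℕ} (hA : w ≤ A.card)
    (hAM : ∀ i ∈ A, i < M) (hL : ∀ i ∈ A, ∃ q ∈ S i, q.1 ≤ pre.length)
    (hR : ∀ i ∈ A, ∃ p ∈ rest, p.1 = i) :
    ∃ c, pre.length < c ∧ c ≤ pre.length + l ∧ ∃ π z, Perfect S w c A (tp W c) π z := by
  have hlen : pre.length + l ≤ W.length := by
    rw [hW, List.length_append, List.length_append, zn_length]; omega
  refine zone hC.lay hl (tp W) (fun c h1 h2 => hC.top c (by omega) (by omega)) ?_ ?_ A hA ?_ hL ?_
  · intro c h1 h2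
    have := hC.bot c (by omega) (by omega)
    rw [hC.eq c (by omega) (by omega) (zone_ge hW h1 h2)] at this
    exact this
  · intro c h1 h2 d h3 h4 h5
    exact hC.inj (by omega) (by omega) (by omega) (by omega) (zone_ge hW h1 h2)
      (zone_ge hW h3 h4) h5
  · intro c h1 h2 h3
    have := hAM _ h3
    have := zone_ge hW h1 h2
    omega
  · intro i hi
    obtain ⟨p, hp, hpi⟩ := hR i hi
    obtain ⟨q, hq, hq1⟩ := exists_top hC (pre := pre ++ zn M l j) (rest := rest)
      (by rw [hW, List.append_assoc]) hp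
    rw [hpi] at hq
    rw [List.length_append, zn_length] at hq1
    exact ⟨q, hq, hq1⟩

theorem seg_of (hC : Cols S w M W) {c' c'' : ℕ} (h1 : 1 ≤ c') (h2 : c' < c'')
    (h3 : c'' ≤ W.length) {A' A'' : Finset ℕ} {π' π'' : ℕ → ℕ} {z' z'' : ℕ}
    (P' : Perfect S w c' A' (tp W c') π' z') (P'' : Perfect S w c'' A'' (tp W c'') π'' z'')
    (hM' : M ≤ tp W c') (hM'' : M ≤ tp W c'') (hA' : ∀ i ∈ A', i < M) (hA'' : ∀ i ∈ A'', i < M) :
    Seg S w c' c'' A' A'' ((Finset.Ioo c' c'').filter (fun c => M ≤ tp W c)) (tp W) (tp W c')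
      (tp W c'') π' π'' z' z'' := by
  have key : ∀ c ∈ (Finset.Ioo c' c'').filter (fun c => M ≤ tp W c),
      c' < c ∧ c < c'' ∧ M ≤ tp W c := by
    intro c hc
    rw [Finset.mem_filter, Finset.mem_Ioo] at hc
    exact ⟨hc.1.1, hc.1.2, hc.2⟩
  refine ⟨hC.lay, h2, P', P'', fun c hc => ⟨(key c hc).1, (key c hc).2.1⟩, ?_, ?_, ?_, ?_, ?_,
    ?_, ?_⟩
  · intro c hc
    have := key c hc
    exact hC.top c (by omega) (by omega)
  · intro c hc
    have h4 := key c hc
    have h5 := hC.bot c (by omega) (by omega)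
    rw [hC.eq c (by omega) (by omega) h4.2.2] at h5
    exact h5
  · intro c hc d hd hcd
    have h4 := key c hc
    have h5 := key d hd
    exact hC.inj (by omega) (by omega) (by omega) (by omega) h4.2.2 h5.2.2 hcd
  · intro c hc h5
    have h4 := key c hc
    have := hA' _ h5
    omega
  · intro c hc h5
    have h4 := key c hc
    have := hA'' _ h5
    omega
  · intro c hc h5
    have h4 := key c hc
    have := hC.inj (by omega) (by omega) (by omega) (by omega) h4.2.2 hM' h5
    omega
  · intro c hc h5
    have h4 := key c hc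
    have := hC.inj (by omega) (by omega) (by omega) (by omega) h4.2.2 hM'' h5
    omega

/-- The runs of a list of operations: the positions of the threads change only a little. -/
def Run (w : ℕ) : List Op → (ℕ → ℕ) → Prop
  | [], _ => True
  | op :: ops, ρ => ∃ ρ' : ℕ → ℕ, (∀ k < w, 1 ≤ ρ' k ∧ ρ' k ≤ w) ∧
      (∀ k < w, ∀ k' < w, ρ' k = ρ' k' → k = k') ∧ Run w ops ρ' ∧
      (op.1 = true → ρ op.2.2 < ρ op.2.1 ∧ ∀ k < w, ρ' k = ρ k) ∧
      (op.1 = false → (∀ k < w, k ≠ op.2.1 → k ≠ op.2.2 → near (ρ' k) (ρ k)) ∧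
        ((near (ρ' op.2.1) (ρ op.2.1) ∧ near (ρ' op.2.2) (ρ op.2.2)) ∨
          (near (ρ' op.2.1) (ρ op.2.2) ∧ near (ρ' op.2.2) (ρ op.2.1))))

/-- The set of the current nets. -/
noncomputable def cset (w : ℕ) (cur : List ℕ) : Finset ℕ :=
  (Finset.range w).image (fun k => cur.getD k 0)

theorem Good.card {q : ℕ} {cur : List ℕ} (h : Good w q cur) : (cset w cur).card = w := by
  unfold cset
  rw [Finset.card_image_of_injOn, Finset.card_range]
  intro k hk k' hk' hkk
  rw [Finset.mem_coe, Finset.mem_range] at hk hk'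
  exact h.inj k hk k' hk' hkk

theorem mem_cset {cur : List ℕ} {i : ℕ} : i ∈ cset w cur ↔ ∃ k < w, cur.getD k 0 = i := by
  unfold cset
  simp only [Finset.mem_image, Finset.mem_range]

theorem chain (hl : 2 * (w + 1) ^ 2 < l) (hC : Cols S w M W) :
    ∀ (ops : List Op) (cur : List ℕ) (j q : ℕ) (pre : List (ℕ × ℕ)) (c' : ℕ) (π' : ℕ → ℕ)
      (z' : ℕ), Good w q cur → Valid w ops → w + 2 * (q + swaps ops) = M →
      W = pre ++ wd w M l ops cur j q → 1 ≤ c' → c' ≤ pre.length →
      (∀ c, c' ≤ c → c ≤ pre.length → M ≤ tp W c) →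
      Perfect S w c' (cset w cur) (tp W c') π' z' → Run w ops (fun k => π' (cur.getD k 0)) := by
  intro ops
  induction ops with
  | nil => intro _ _ _ _ _ _ _ _ _ _ _ _ _ _ _; exact trivial
  | cons op ops ih =>
    intro cur j q pre c' π' z' hg hv hM hW hc1 hc2 hc3 P'
    obtain ⟨hvo, hv'⟩ := valid_cons hv
    have hq := swaps_cons op ops q
    have hg' := hg.next op
    rw [wd] at hW
    have hAM : ∀ i ∈ cset w cur, i < M := by
      intro i hi
      obtain ⟨k, hk, rfl⟩ := mem_cset.1 hi
      have := hg.lt k hk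
      omega
    have hAM' : ∀ i ∈ cset w (nxt w cur q op), i < M := by
      intro i hi
      obtain ⟨k, hk, rfl⟩ := mem_cset.1 hi
      have := hg'.lt k hk
      omega
    have hW2 : W = (pre ++ hd w cur q op) ++
        (zn M l j ++ wd w M l ops (nxt w cur q op) (j + 1) (nq q op)) := by
      rw [hW, List.append_assoc]
    have hmem' : ∀ i ∈ cset w (nxt w cur q op), ∃ p ∈ wd w M l ops (nxt w cur q op) (j + 1)
        (nq q op), p.1 = i := by
      intro i hi
      obtain ⟨k, hk, rfl⟩ := mem_cset.1 hi
      exact mem_wd ops _ _ _ hg' k hk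
    have hWlen : pre.length + (hd w cur q op).length + l ≤ W.length := by
      rw [hW2, List.length_append, List.length_append, List.length_append, zn_length]; omega
    have hlenp : (pre ++ hd w cur q op).length = pre.length + (hd w cur q op).length :=
      List.length_append
    by_cases h0 : op.1 = true
    · -- a test
      have en : nxt w cur q op = cur := by rw [nxt, if_pos h0]
      have eq' : nq q op = q := by rw [nq, if_pos h0]
      have eh : hd w cur q op = [(cur.getD op.2.1 0, cur.getD op.2.2 0)] := by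
        rw [hd, if_pos h0]
      have hlh : (hd w cur q op).length = 1 := by rw [eh]; rfl
      rw [hlh] at hWlen hlenp
      obtain ⟨c'', h1, h2, π'', z'', P''⟩ := zone_step hC hl hW2 (A := cset w cur)
        (by rw [hg.card]) hAM (by
          intro i hi
          exact ⟨_, P'.mem i hi, by rw [hlenp]; simp only; omega⟩) (fun i hi =>
            hmem' i (by rw [en]; exact hi))
      rw [hlenp] at h1 h2
      have hx1 : tp W (pre.length + 1) = cur.getD op.2.1 0 := by
        rw [hW, eh]
        have := tp_append (pre := pre) (rest := [(cur.getD op.2.1 0, cur.getD op.2.2 0)] ++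
          (zn M l j ++ wd w M l ops (nxt w cur q op) (j + 1) (nq q op))) (k := 0)
        rw [Nat.add_zero] at this
        rw [this]
        rfl
      have hx2 : bt W (pre.length + 1) = cur.getD op.2.2 0 := by
        rw [hW, eh]
        have := bt_append (pre := pre) (rest := [(cur.getD op.2.1 0, cur.getD op.2.2 0)] ++
          (zn M l j ++ wd w M l ops (nxt w cur q op) (j + 1) (nq q op))) (k := 0)
        rw [Nat.add_zero] at this
        rw [this]
        rfl
      have hM'' : ∀ c, c' ≤ c → c ≤ pre.length + 1 + l → c ≠ pre.length + 1 → M ≤ tp W c := by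
        intro c h3 h4 h5
        by_cases h6 : c ≤ pre.length
        · exact hc3 c h3 h6
        · exact zone_ge hW2 (by rw [hlenp]; omega) (by rw [hlenp]; omega)
      have hsm : ¬ M ≤ tp W (pre.length + 1) := by
        rw [hx1]
        have := hg.lt _ hvo.1
        omega
      have hseg := seg_of hC hc1 (by omega) (by omega) P' P'' (hc3 c' le_rfl hc2)
        (hM'' c'' (by omega) (by omega) (by omega)) hAM hAM
      have hVe : (Finset.Ioo c' c'').filter (fun c => M ≤ tp W c) =
          (Finset.Ioo c' c'').erase (pre.length + 1) := by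
        ext c
        rw [Finset.mem_filter, Finset.mem_erase]
        constructor
        · rintro ⟨h3, h4⟩
          exact ⟨fun h5 => hsm (h5 ▸ h4), h3⟩
        · rintro ⟨h3, h4⟩
          rw [Finset.mem_Ioo] at h4
          exact ⟨Finset.mem_Ioo.2 h4, hM'' c (by omega) (by omega) h3⟩
      have htest := hseg.test (x := pre.length + 1) (U := cur.getD op.2.1 0)
        (L := cur.getD op.2.2 0) (by
          rw [hVe, Finset.card_erase_of_mem (Finset.mem_Ioo.2 ⟨by omega, by omega⟩),
            Nat.card_Ioo]
          omega) (by omega) (by omega) (by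
          intro c h3 h4 h5
          rw [hVe]
          exact Finset.mem_erase.2 ⟨h5, Finset.mem_Ioo.2 ⟨h3, h4⟩⟩)
        (mem_cset.2 ⟨_, hvo.1, rfl⟩) (mem_cset.2 ⟨_, hvo.2.1, rfl⟩)
        (fun h3 => hvo.2.2 (hg.inj _ hvo.1 _ hvo.2.1 h3))
        (by
          have := hC.top (pre.length + 1) (by omega) (by omega)
          rw [hx1] at this
          exact this)
        (by
          have := hC.bot (pre.length + 1) (by omega) (by omega)
          rw [hx2] at this
          exact this)
      have hmc : ∀ k < w, cur.getD k 0 ∈ cset w cur := fun k hk => mem_cset.2 ⟨k, hk, rfl⟩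
      refine ⟨fun k => π'' (cur.getD k 0), fun k hk => P''.pos _ (hmc k hk),
        fun k hk k' hk' hkk => hg.inj k hk k' hk' (P''.inj _ (hmc k hk) _ (hmc k' hk') hkk),
        ?_, ?_, ?_⟩
      · rw [en, eq'] at hW2
        rw [eq'] at hq
        refine ih cur (j + 1) q (pre ++ hd w cur q op ++ zn M l j) c'' π'' z'' hg hv' (by omega)
          ?_ (by omega) ?_ ?_ P''
        · rw [hW2]
          simp only [List.append_assoc]
        · rw [List.length_append, hlenp, zn_length]
          omega
        · intro c h3 h4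
          rw [List.length_append, hlenp, zn_length] at h4
          exact hM'' c (by omega) (by omega) (by omega)
      · intro _
        exact ⟨htest.2, fun k hk => htest.1 _ (hmc k hk)⟩
      · intro h3
        rw [h0] at h3
        exact absurd h3 (by decide)
    · -- a swap
      have eh : hd w cur q op = [(cur.getD op.2.1 0, cur.getD op.2.1 0),
          (cur.getD op.2.2 0, cur.getD op.2.2 0), (w + 2 * q, w + 2 * q),
          (w + 2 * q + 1, w + 2 * q + 1)] := by
        rw [hd, if_neg h0]
      have eq' : nq q op = q + 1 := by rw [nq, if_neg h0]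
      have hnx : ∀ k < w, (nxt w cur q op).getD k 0 = if k = op.2.1 then w + 2 * q else
          if k = op.2.2 then w + 2 * q + 1 else cur.getD k 0 := by
        intro k hk
        rw [nxt, if_neg h0, upd_getD _ _ _ _ _ (by rw [hg.len]; exact hk)]
      have hlh : (hd w cur q op).length = 4 := by rw [eh]; rfl
      rw [hlh] at hWlen hlenp
      have htp : ∀ k < 4, tp W (pre.length + k + 1) = ((hd w cur q op).getD k (0, 0)).1 ∧
          bt W (pre.length + k + 1) = ((hd w cur q op).getD k (0, 0)).2 := by
        intro k hk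
        rw [hW, tp_append, bt_append, List.getD_append _ _ _ _ (by rw [hlh]; exact hk)]
        exact ⟨rfl, rfl⟩
      rw [eh] at htp
      obtain ⟨t0, b0⟩ := htp 0 (by omega)
      obtain ⟨t1, b1⟩ := htp 1 (by omega)
      obtain ⟨t2, b2⟩ := htp 2 (by omega)
      obtain ⟨t3, b3⟩ := htp 3 (by omega)
      simp only [List.getD_cons_zero, List.getD_cons_succ] at t0 b0 t1 b1 t2 b2 t3 b3
      have hlt1 := hg.lt _ hvo.1
      have hlt2 := hg.lt _ hvo.2.1
      have T0 := hC.top (pre.length + 0 + 1) (by omega) (by omega)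
      have T1 := hC.top (pre.length + 1 + 1) (by omega) (by omega)
      have T2 := hC.top (pre.length + 2 + 1) (by omega) (by omega)
      have T3 := hC.top (pre.length + 3 + 1) (by omega) (by omega)
      have B0 := hC.bot (pre.length + 0 + 1) (by omega) (by omega)
      have B1 := hC.bot (pre.length + 1 + 1) (by omega) (by omega)
      have B2 := hC.bot (pre.length + 2 + 1) (by omega) (by omega)
      have B3 := hC.bot (pre.length + 3 + 1) (by omega) (by omega)
      rw [t0] at T0
      rw [t1] at T1
      rw [t2] at T2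
      rw [t3] at T3
      rw [b0] at B0
      rw [b1] at B1
      rw [b2] at B2
      rw [b3] at B3
      obtain ⟨c'', h1, h2, π'', z'', P''⟩ := zone_step hC hl hW2
        (A := cset w (nxt w cur q op)) (by rw [hg'.card]) hAM' (by
          intro i hi
          obtain ⟨k, hk, rfl⟩ := mem_cset.1 hi
          rw [hnx k hk, hlenp]
          by_cases e1 : k = op.2.1
          · rw [if_pos e1]
            exact ⟨_, T2.1, by simp only; omega⟩
          · rw [if_neg e1]
            by_cases e2 : k = op.2.2
            · rw [if_pos e2]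
              exact ⟨_, T3.1, by simp only; omega⟩
            · rw [if_neg e2]
              exact ⟨_, P'.mem _ (mem_cset.2 ⟨k, hk, rfl⟩), by simp only; omega⟩) hmem'
      rw [hlenp] at h1 h2
      have hM'' : ∀ c, c' ≤ c → c ≤ pre.length + 4 + l →
          c ∉ Finset.Icc (pre.length + 1) (pre.length + 1 + 3) → M ≤ tp W c := by
        intro c h3 h4 h5
        rw [Finset.mem_Icc] at h5
        by_cases h6 : c ≤ pre.length
        · exact hc3 c h3 h6
        · exact zone_ge hW2 (by rw [hlenp]; omega) (by rw [hlenp]; omega)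
      have hsm : ∀ c ∈ Finset.Icc (pre.length + 1) (pre.length + 1 + 3), ¬ M ≤ tp W c := by
        intro c hc
        rw [Finset.mem_Icc] at hc
        have h5 : c = pre.length + 0 + 1 ∨ c = pre.length + 1 + 1 ∨ c = pre.length + 2 + 1 ∨
          c = pre.length + 3 + 1 := by omega
        rcases h5 with rfl | rfl | rfl | rfl
        · rw [t0]; omega
        · rw [t1]; omega
        · rw [t2]; omega
        · rw [t3]; omega
      have hc''ni : c'' ∉ Finset.Icc (pre.length + 1) (pre.length + 1 + 3) := by
        rw [Finset.mem_Icc]; omega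
      have hseg := seg_of hC hc1 (by omega) (by omega) P' P'' (hc3 c' le_rfl hc2)
        (hM'' c'' (by omega) (by omega) hc''ni) hAM hAM'
      have hVe : (Finset.Ioo c' c'').filter (fun c => M ≤ tp W c) =
          (Finset.Ioo c' c'') \ Finset.Icc (pre.length + 1) (pre.length + 1 + 3) := by
        ext c
        rw [Finset.mem_filter, Finset.mem_sdiff]
        constructor
        · rintro ⟨h3, h4⟩
          exact ⟨h3, fun h5 => hsm c h5 h4⟩
        · rintro ⟨h3, h4⟩
          refine ⟨h3, ?_⟩
          rw [Finset.mem_Ioo] at h3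
          exact hM'' c (by omega) (by omega) h4
      obtain ⟨P, hP⟩ : ∃ P : Finset ℕ, P = (((Finset.range w).erase op.2.1).erase op.2.2).image
        (fun k => cur.getD k 0) := ⟨_, rfl⟩
      have hmP : ∀ i, i ∈ P ↔ ∃ k < w, k ≠ op.2.1 ∧ k ≠ op.2.2 ∧ cur.getD k 0 = i := by
        intro i
        rw [hP]
        simp only [Finset.mem_image, Finset.mem_erase, Finset.mem_range]
        constructor
        · rintro ⟨k, ⟨h3, h4, h5⟩, h6⟩; exact ⟨k, h5, h4, h3, h6⟩
        · rintro ⟨k, h5, h4, h3, h6⟩; exact ⟨k, ⟨h3, h4, h5⟩, h6⟩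
      have hA'P : cset w cur = insert (cur.getD op.2.1 0) (insert (cur.getD op.2.2 0) P) := by
        ext i
        rw [mem_cset, Finset.mem_insert, Finset.mem_insert, hmP]
        constructor
        · rintro ⟨k, hk, rfl⟩
          by_cases e1 : k = op.2.1
          · left; rw [e1]
          · by_cases e2 : k = op.2.2
            · right; left; rw [e2]
            · right; right; exact ⟨k, hk, e1, e2, rfl⟩
        · rintro (rfl | rfl | ⟨k, hk, -, -, rfl⟩)
          · exact ⟨_, hvo.1, rfl⟩
          · exact ⟨_, hvo.2.1, rfl⟩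
          · exact ⟨k, hk, rfl⟩
      have hA''P : cset w (nxt w cur q op) = insert (w + 2 * q) (insert (w + 2 * q + 1) P) := by
        ext i
        rw [mem_cset, Finset.mem_insert, Finset.mem_insert, hmP]
        constructor
        · rintro ⟨k, hk, rfl⟩
          rw [hnx k hk]
          by_cases e1 : k = op.2.1
          · left; rw [if_pos e1]
          · by_cases e2 : k = op.2.2
            · right; left; rw [if_neg e1, if_pos e2]
            · right; right
              rw [if_neg e1, if_neg e2]
              exact ⟨k, hk, e1, e2, rfl⟩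
        · rintro (rfl | rfl | ⟨k, hk, h3, h4, rfl⟩)
          · exact ⟨op.2.1, hvo.1, by rw [hnx _ hvo.1, if_pos rfl]⟩
          · exact ⟨op.2.2, hvo.2.1, by rw [hnx _ hvo.2.1, if_neg (Ne.symm hvo.2.2), if_pos rfl]⟩
          · exact ⟨k, hk, by rw [hnx k hk, if_neg h3, if_neg h4]⟩
      have hni : ∀ i ∈ cset w cur, i < w + 2 * q := by
        intro i hi
        obtain ⟨k, hk, rfl⟩ := mem_cset.1 hi
        exact hg.lt k hk
      have hB12 : cur.getD op.2.1 0 ≠ cur.getD op.2.2 0 :=
        fun h3 => hvo.2.2 (hg.inj _ hvo.1 _ hvo.2.1 h3)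
      have hBn : ∀ k < w, (k = op.2.1 ∨ k = op.2.2) →
          cur.getD k 0 ∉ cset w (nxt w cur q op) := by
        intro k hk hkk h3
        rw [hA''P, Finset.mem_insert, Finset.mem_insert, hmP] at h3
        have h4 := hg.lt k hk
        rcases h3 with h3 | h3 | ⟨k', h5, h6, h7, h8⟩
        · omega
        · omega
        · have := hg.inj _ h5 _ hk h8
          omega
      have hev := hseg.event (x := pre.length + 1) (P := P) (B1 := cur.getD op.2.1 0)
        (B2 := cur.getD op.2.2 0) (A1 := w + 2 * q) (A2 := w + 2 * q + 1) (by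
          rw [hVe, Finset.card_sdiff_of_subset, Nat.card_Ioo, Nat.card_Icc]
          · omega
          · intro c hc
            rw [Finset.mem_Icc] at hc
            rw [Finset.mem_Ioo]
            omega) (by omega) (by omega) (by
          intro c h3 h4 h5
          rw [hVe]
          exact Finset.mem_sdiff.2 ⟨Finset.mem_Ioo.2 ⟨h3, h4⟩, h5⟩)
        hA'P hA''P hB12 (by omega) (hBn _ hvo.1 (Or.inl rfl)) (hBn _ hvo.2.1 (Or.inr rfl))
        (fun h3 => by have := hni _ h3; omega) (fun h3 => by have := hni _ h3; omega)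
        (by
          have := hM'' c'' (by omega) (by omega) hc''ni
          omega)
        (by
          have := hM'' c'' (by omega) (by omega) hc''ni
          omega)
        (by have := hc3 c' le_rfl hc2; rw [eq'] at hq; omega)
        (by have := hc3 c' le_rfl hc2; rw [eq'] at hq; omega)
        T0 B0 T1 B1 T2 B2 T3 B3
      have hmc : ∀ k < w, (nxt w cur q op).getD k 0 ∈ cset w (nxt w cur q op) :=
        fun k hk => mem_cset.2 ⟨k, hk, rfl⟩
      refine ⟨fun k => π'' ((nxt w cur q op).getD k 0), fun k hk => P''.pos _ (hmc k hk),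
        fun k hk k' hk' hkk => hg'.inj k hk k' hk' (P''.inj _ (hmc k hk) _ (hmc k' hk') hkk),
        ?_, ?_, ?_⟩
      · refine ih _ (j + 1) _ (pre ++ hd w cur q op ++ zn M l j) c'' π'' z'' hg' hv' (by omega)
          ?_ (by omega) ?_ ?_ P''
        · rw [hW2]
          simp only [List.append_assoc]
        · rw [List.length_append, hlenp, zn_length]
          omega
        · intro c h3 h4
          rw [List.length_append, hlenp, zn_length] at h4
          exact hM'' c (by omega) (by omega) (by rw [Finset.mem_Icc]; omega)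
      · intro h3
        exact absurd h3 h0
      · intro _
        simp only
        rw [hnx _ hvo.1, hnx _ hvo.2.1, if_pos rfl, if_neg (Ne.symm hvo.2.2), if_pos rfl]
        refine ⟨?_, hev.2⟩
        intro k hk h3 h4
        rw [hnx k hk, if_neg h3, if_neg h4]
        exact hev.1 _ ((hmP _).2 ⟨k, hk, h3, h4, rfl⟩)

end Pool.Agent.W947.CR
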