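import Pool.Agent.NPC.Classes

/-!
# Two-layer unrestricted channel routing: definitions
-/

namespace Pool.Agent.W947.CR

/-- Points of the cubic grid: column, track, layer. -/
abbrev Pt : Type := ℕ × ℕ × ℕ

/-- The cubic grid: two points are adjacent when they differ by `1` in exactly one coordinate. -/
def grid : SimpleGraph Pt where
  Adj p q := Nat.dist p.1 q.1 + Nat.dist p.2.1 q.2.1 + Nat.dist p.2.2 q.2.2 = 1
  symm := ⟨fun p q h => by
    rw [Nat.dist_comm q.1, Nat.dist_comm q.2.1, Nat.dist_comm q.2.2]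
    exact h⟩
  loopless := ⟨fun p h => by simp [Nat.dist_self] at h⟩

/-- The points of the channel of length `m` and width `w`: columns `1, …, m`, tracks
`0, …, w + 1`, layers `0` and `1`. -/
def box (m w : ℕ) : Set Pt := {p | 1 ≤ p.1 ∧ p.1 ≤ m ∧ p.2.1 ≤ w + 1 ∧ p.2.2 ≤ 1}

/-- A channel routing problem: the length `m` and the list of the nets. A net is the pair of the
list of the columns of its upper terminals and the list of the columns of its lower terminals. -/
abbrev CRP : Type := ℕ × List (List ℕ × List ℕ)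

/-- The length is positive, every net has an upper and a lower terminal, the terminals lie in the
columns `1, …, m`, and they are pairwise different. -/
def Legal (C : CRP) : Prop :=
  1 ≤ C.1 ∧ (∀ N ∈ C.2, N.1 ≠ [] ∧ N.2 ≠ [] ∧ (∀ x ∈ N.1, 1 ≤ x ∧ x ≤ C.1) ∧
    ∀ x ∈ N.2, 1 ≤ x ∧ x ≤ C.1) ∧
  (C.2.flatMap Prod.fst).Nodup ∧ (C.2.flatMap Prod.snd).Nodup

/-- Every upper and every lower boundary point is a terminal. -/
def Dense (C : CRP) : Prop :=
  ∀ x, 1 ≤ x → x ≤ C.1 → (∃ N ∈ C.2, x ∈ N.1) ∧ ∃ N ∈ C.2, x ∈ N.2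

/-- A layout of width `w` in the two-layer unrestricted model: pairwise vertex-disjoint connected
subgraphs of the grid, one for each net, containing its terminals. The upper terminal in column `t`
is the edge from `(t, w + 1, 0)` to `(t, w + 1, 1)`, the lower terminal in column `b` is the
edge from `(b, 0, 0)` to `(b, 0, 1)`. -/
structure IsLayout (C : CRP) (w : ℕ) (G : Fin C.2.length → grid.Subgraph) : Prop where
  inside : ∀ i, (G i).verts ⊆ box C.1 w
  connected : ∀ i, (G i).Connected
  disjoint : ∀ i j, i ≠ j → Disjoint (G i).verts (G j).verts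
  upper : ∀ i : Fin C.2.length, ∀ t ∈ (C.2[i]).1, (G i).Adj (t, w + 1, 0) (t, w + 1, 1)
  lower : ∀ i : Fin C.2.length, ∀ b ∈ (C.2[i]).2, (G i).Adj (b, 0, 0) (b, 0, 1)

/-- The channel routing problem `C` has a layout of width `w`. -/
def HasLayout (C : CRP) (w : ℕ) : Prop := ∃ G, IsLayout C w G

/-- The decision problem: is the minimum width of `C` at most `w`? -/
def WidthAtMost (I : CRP × ℕ) : Prop := Legal I.1 ∧ ∃ w ≤ I.2, HasLayout I.1 w

end Pool.Agent.W947.CR
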