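import Pool.Agent.W947.CR.Test

/-!
# The event lemma
-/

namespace Pool.Agent.W947.CR

open SimpleGraph
open scoped Classical

variable {S : ℕ → Set Pt} {w : ℕ}

theorem y_le {A : Set Pt} {u v : Pt} (W : (on A).Walk u v) :
    v.2.1 ≤ u.2.1 + cnt fy W ∧ u.2.1 ≤ v.2.1 + cnt fy W := by
  induction W with
  | nil => simp
  | @cons u u' v h W ih =>
    have h1 : u'.2.1 ≤ u.2.1 + fy u u' ∧ u.2.1 ≤ u'.2.1 + fy u u' := by
      have h2 := adj_y h.2.2
      have h3 := adj_y h.2.2.symm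
      unfold fy
      split_ifs <;> omega
    simp only [cnt_cons]
    omega

/-- A connected set with a full column has many points. -/
theorem ext_card {F : Finset Pt} (hF : Conn (F : Set Pt)) {x w lo hi : ℕ}
    (h1 : (x, 0, 0) ∈ F) (h2 : (x, 0, 1) ∈ F) (h3 : (x, w + 1, 0) ∈ F) {p q : Pt} (hp : p ∈ F)
    (hq : q ∈ F) (hpl : p.1 = lo) (hqh : q.1 = hi) : (hi - lo) + w + 3 ≤ F.card := by
  obtain ⟨L, hL⟩ : ∃ L : Finset (Fin 3 × ℕ), L =
      ((Finset.Ico lo hi).image (fun k => ((0 : Fin 3), k)) ∪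
        (Finset.Ico 0 (w + 1)).image (fun k => ((1 : Fin 3), k))) ∪ {((2 : Fin 3), 0)} :=
    ⟨_, rfl⟩
  have hcard : L.card = (hi - lo) + (w + 1) + 1 := by
    rw [hL, Finset.card_union_of_disjoint, Finset.card_union_of_disjoint,
      Finset.card_image_of_injective, Finset.card_image_of_injective, Nat.card_Ico, Nat.card_Ico,
      Finset.card_singleton]
    · omega
    · intro a b hab
      exact congrArg Prod.snd hab
    · intro a b hab
      exact congrArg Prod.snd hab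
    · rw [Finset.disjoint_left]
      intro l hl hl'
      obtain ⟨a, -, rfl⟩ := Finset.mem_image.1 hl
      obtain ⟨b, -, hb⟩ := Finset.mem_image.1 hl'
      have := congrArg Prod.fst hb
      simp at this
    · rw [Finset.disjoint_left]
      intro l hl hl'
      rw [Finset.mem_singleton] at hl'
      subst hl'
      rw [Finset.mem_union] at hl
      rcases hl with hl | hl
      · obtain ⟨a, -, hb⟩ := Finset.mem_image.1 hl
        have := congrArg Prod.fst hb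
        simp at this
      · obtain ⟨a, -, hb⟩ := Finset.mem_image.1 hl
        have := congrArg Prod.fst hb
        simp at this
  have := Conn.card hF L (by
    intro l hl
    rw [hL, Finset.mem_union, Finset.mem_union, Finset.mem_singleton] at hl
    rcases hl with (hl | hl) | hl
    · obtain ⟨a, ha, rfl⟩ := Finset.mem_image.1 hl
      rw [Finset.mem_Ico] at ha
      refine ⟨p, hp, q, hq, ?_, ?_⟩
      · rw [coord_zero]; simp only; omega
      · rw [coord_zero]; simp only; omega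
    · obtain ⟨a, ha, rfl⟩ := Finset.mem_image.1 hl
      rw [Finset.mem_Ico] at ha
      refine ⟨_, h1, _, h3, ?_, ?_⟩
      · rw [coord_one]; simp
      · rw [coord_one]; simp only; omega
    · subst hl
      refine ⟨_, h1, _, h2, ?_, ?_⟩
      · rw [coord_two]
      · rw [coord_two]; simp) ⟨p, hp⟩
  omega

/-- The points of a net with one terminal column, in one direction. -/
theorem ext_part {B : Set Pt} {c' c'' w x lo hi e y z : ℕ} (hB : Conn B)
    (hy : ∀ p ∈ B, p.2.1 ≤ w + 1) (hz : ∀ p ∈ B, p.2.2 ≤ 1)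
    (hcol : ∀ p ∈ B, (c' < p.1 ∧ p.1 < c'') ∨ p = (e, y, z))
    (hx : ∀ p ∈ B, c' < p.1 → p.1 < c'' → (p.2.1 = 0 ∨ p.2.1 = w + 1) → p.1 = x)
    (hT : (x, w + 1, 0) ∈ B) (hb : (x, 0, 0) ∈ B ∧ (x, 0, 1) ∈ B) {p q : Pt} (hp : p ∈ B)
    (hq : q ∈ B) (hpl : p.1 = lo) (hqh : q.1 = hi) :
    (hi - lo) + w ≤ (part B (blk c' c'' 1 w)).card + 2 := by
  obtain ⟨E, hE⟩ : ∃ E : Finset Pt, E =
    {(x, 0, 0), (x, 0, 1), (x, w + 1, 0), (x, w + 1, 1), (e, y, z)} := ⟨_, rfl⟩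
  have hEcard : E.card ≤ 5 := by rw [hE]; exact Finset.card_le_five
  obtain ⟨F, hF⟩ : ∃ F : Finset Pt, F = part B (blk c' c'' 1 w) ∪ E.filter (fun p => p ∈ B) :=
    ⟨_, rfl⟩
  have hFB : (F : Set Pt) = B := by
    ext r
    rw [Finset.mem_coe, hF, Finset.mem_union, mem_part, Finset.mem_filter]
    constructor
    · rintro (h | h)
      · exact h.2
      · exact h.2
    · intro h
      rcases hcol r h with h1 | h1
      · by_cases h2 : r.2.1 = 0 ∨ r.2.1 = w + 1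
        · have h3 := hx r h h1.1 h1.2 h2
          have h4 := hz r h
          refine Or.inr ⟨?_, h⟩
          rw [hE]
          simp only [Finset.mem_insert, Finset.mem_singleton]
          obtain ⟨r1, r2, r3⟩ := r
          simp only [Prod.mk.injEq] at *
          omega
        · have h3 := hy r h
          have h4 := hz r h
          refine Or.inl ⟨?_, h⟩
          rw [mem_blk]
          omega
      · refine Or.inr ⟨?_, h⟩
        rw [hE, h1]
        simp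
  have hmem : ∀ r, r ∈ B → r ∈ F := by
    intro r hr
    rw [← Finset.mem_coe, hFB]
    exact hr
  have h1 := ext_card (F := F) (by rw [hFB]; exact hB) (hmem _ hb.1) (hmem _ hb.2)
    (hmem _ hT) (hmem _ hp) (hmem _ hq) hpl hqh
  have h2 : F.card ≤ (part B (blk c' c'' 1 w)).card + 5 := by
    rw [hF]
    refine (Finset.card_union_le _ _).trans ?_
    have := Finset.card_filter_le E (fun p => p ∈ B)
    omega
  omega

theorem near_of_sub {D : Finset ℕ} {lo hi k : ℕ} (h : ∀ t, lo ≤ t → t < hi → t ∈ D)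
    (hD : D.card ≤ k) : hi ≤ lo + k := by
  have h1 : Finset.Ico lo hi ⊆ D := by
    intro t ht
    rw [Finset.mem_Ico] at ht
    exact h t ht.1 ht.2
  have h2 := Finset.card_le_card h1
  rw [Nat.card_Ico] at h2
  omega

/-- The distance of two numbers is at most `10`. -/
def near (a b : ℕ) : Prop := a ≤ b + 10 ∧ b ≤ a + 10

theorem near_match {D : Finset ℕ} (hD : D.card ≤ 10) {b1 b2 a1 a2 : ℕ} (hb : b1 ≠ b2)
    (ha : a1 ≠ a2)
    (h : ∀ t, (if t < b1 then 1 else 0) + (if t < b2 then 1 else 0) ≠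
      (if t < a1 then 1 else 0) + (if t < a2 then 1 else 0) → t ∈ D) :
    (near a1 b1 ∧ near a2 b2) ∨ (near a1 b2 ∧ near a2 b1) := by
  rcases lt_or_gt_of_ne hb with hb | hb <;> rcases lt_or_gt_of_ne ha with ha | ha
  · refine Or.inl ⟨⟨?_, ?_⟩, ⟨?_, ?_⟩⟩ <;> refine near_of_sub (D := D) ?_ hD <;>
      intro t h1 h2 <;> apply h <;> split_ifs <;> omega
  · refine Or.inr ⟨⟨?_, ?_⟩, ⟨?_, ?_⟩⟩ <;> refine near_of_sub (D := D) ?_ hD <;>
      intro t h1 h2 <;> apply h <;> split_ifs <;> omega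
  · refine Or.inr ⟨⟨?_, ?_⟩, ⟨?_, ?_⟩⟩ <;> refine near_of_sub (D := D) ?_ hD <;>
      intro t h1 h2 <;> apply h <;> split_ifs <;> omega
  · refine Or.inl ⟨⟨?_, ?_⟩, ⟨?_, ?_⟩⟩ <;> refine near_of_sub (D := D) ?_ hD <;>
      intro t h1 h2 <;> apply h <;> split_ifs <;> omega

theorem event_arith {m k n w X Y c1 c2 c3 c4 d1 d2 d3 d4 : ℕ} (hw : k + 2 = w)
    (hn : m + 4 = n) (h : k * n + Y ≤ X)
    (hcap : c1 + (c2 + (c3 + (c4 + X))) + m * (w + 1 - 1) ≤ n * ((w + 1 - 1) * 2))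
    (h1 : d1 + w ≤ c1 + 2) (h2 : d2 + w ≤ c2 + 2) (h3 : d3 + w ≤ c3 + 2)
    (h4 : d4 + w ≤ c4 + 2) (hd : d1 + d2 + d3 + d4 = 2 * n - 2) : Y ≤ 10 := by
  subst hw
  subst hn
  have e0 : k + 2 + 1 - 1 = k + 2 := rfl
  have e2 : (m + 4) * ((k + 2) * 2) = 2 * (k * (m + 4)) + 4 * m + 16 := by ring
  have e3 : m * (k + 2) + 4 * k = k * (m + 4) + 2 * m := by ring
  obtain ⟨M, hM⟩ : ∃ M, M = k * (m + 4) := ⟨_, rfl⟩
  obtain ⟨M', hM'⟩ : ∃ M', M' = m * (k + 2) := ⟨_, rfl⟩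
  rw [e0, e2, ← hM, ← hM'] at hcap
  rw [← hM, ← hM'] at e3
  rw [← hM] at h
  omega

/-- **The event lemma.** -/
theorem Seg.event {c' c'' : ℕ} {A' A'' V : Finset ℕ} {v : ℕ → ℕ} {v' v'' : ℕ} {π' π'' : ℕ → ℕ}
    {z' z'' : ℕ} (h : Seg S w c' c'' A' A'' V v v' v'' π' π'' z' z'')
    (hV : V.card + 4 = c'' - c' - 1) {x : ℕ} (hx : c' < x) (hx' : x + 3 < c'')
    (hVx : ∀ c, c' < c → c < c'' → c ∉ Finset.Icc x (x + 3) → c ∈ V)
    {P : Finset ℕ} {B1 B2 A1 A2 : ℕ} (hA' : A' = insert B1 (insert B2 P))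
    (hA'' : A'' = insert A1 (insert A2 P)) (hB12 : B1 ≠ B2) (hA12 : A1 ≠ A2) (hB1 : B1 ∉ A'')
    (hB2 : B2 ∉ A'') (hA1 : A1 ∉ A') (hA2 : A2 ∉ A')
    (hB1v : B1 ≠ v'') (hB2v : B2 ≠ v'') (hA1v : A1 ≠ v') (hA2v : A2 ≠ v')
    (tB1 : Top S w B1 x) (bB1 : Bot S B1 x) (tB2 : Top S w B2 (x + 1)) (bB2 : Bot S B2 (x + 1))
    (tA1 : Top S w A1 (x + 2)) (bA1 : Bot S A1 (x + 2)) (tA2 : Top S w A2 (x + 3))
    (bA2 : Bot S A2 (x + 3)) :
    (∀ N ∈ P, near (π'' N) (π' N)) ∧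
    ((near (π'' A1) (π' B1) ∧ near (π'' A2) (π' B2)) ∨
      (near (π'' A1) (π' B2) ∧ near (π'' A2) (π' B1))) := by
  have hB1P : B1 ∉ P := fun h1 => hB1 (by rw [hA'']; simp [h1])
  have hB2P : B2 ∉ P := fun h1 => hB2 (by rw [hA'']; simp [h1])
  have hA1P : A1 ∉ P := fun h1 => hA1 (by rw [hA']; simp [h1])
  have hA2P : A2 ∉ P := fun h1 => hA2 (by rw [hA']; simp [h1])
  have hB1A : B1 ∈ A' := by rw [hA']; simp
  have hB2A : B2 ∈ A' := by rw [hA']; simp
  have hA1A : A1 ∈ A'' := by rw [hA'']; simp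
  have hA2A : A2 ∈ A'' := by rw [hA'']; simp
  have hPA' : ∀ N ∈ P, N ∈ A' := fun N hN => by rw [hA']; simp [hN]
  have hPA'' : ∀ N ∈ P, N ∈ A'' := fun N hN => by rw [hA'']; simp [hN]
  have hnB : B1 ∉ insert B2 P := by simp [hB12, hB1P]
  have hnA : A1 ∉ insert A2 P := by simp [hA12, hA1P]
  have hPcard : P.card + 2 = w := by
    have := h.P'.card
    rw [hA', Finset.card_insert_of_notMem hnB, Finset.card_insert_of_notMem hB2P] at this
    omega
  -- which nets own the boundary points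
  have hbd : ∀ N, (∀ c ∈ V, N ≠ v c) → ∀ p ∈ S N, c' < p.1 → p.1 < c'' →
      (p.2.1 = 0 ∨ p.2.1 = w + 1) → p.1 ∈ Finset.Icc x (x + 3) := by
    intro N hN p hp h1 h2 h3
    by_contra h4
    have hc := hVx p.1 h1 h2 h4
    have := h.lay.interior (hN _ hc) (h.vtop _ hc) (h.vbot _ hc) hp rfl
    omega
  have hbd2 : ∀ N, (∀ c ∈ V, N ≠ v c) → ∀ p ∈ S N, c' < p.1 → p.1 < c'' →
      (p.2.1 = 0 ∨ p.2.1 = w + 1) → (N = B1 ∧ p.1 = x) ∨ (N = B2 ∧ p.1 = x + 1) ∨
      (N = A1 ∧ p.1 = x + 2) ∨ (N = A2 ∧ p.1 = x + 3) := by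
    intro N hN p hp h1 h2 h3
    have h4 := hbd N hN p hp h1 h2 h3
    rw [Finset.mem_Icc] at h4
    have h5 : p.1 = x ∨ p.1 = x + 1 ∨ p.1 = x + 2 ∨ p.1 = x + 3 := by omega
    rcases h5 with h5 | h5 | h5 | h5
    · refine Or.inl ⟨?_, h5⟩
      by_contra h6
      have := h.lay.interior h6 tB1 bB1 hp h5
      omega
    · refine Or.inr (Or.inl ⟨?_, h5⟩)
      by_contra h6
      have := h.lay.interior h6 tB2 bB2 hp h5
      omega
    · refine Or.inr (Or.inr (Or.inl ⟨?_, h5⟩))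
      by_contra h6
      have := h.lay.interior h6 tA1 bA1 hp h5
      omega
    · refine Or.inr (Or.inr (Or.inr ⟨?_, h5⟩))
      by_contra h6
      have := h.lay.interior h6 tA2 bA2 hp h5
      omega
  have hPv : ∀ N ∈ A', ∀ c ∈ V, N ≠ v c := fun N hN c hc h1 => h.vA' c hc (h1 ▸ hN)
  have hPv' : ∀ N ∈ A'', ∀ c ∈ V, N ≠ v c := fun N hN c hc h1 => h.vA'' c hc (h1 ▸ hN)
  have hBA : ∀ N ∈ A', N ≠ A1 ∧ N ≠ A2 := fun N hN =>
    ⟨fun h1 => hA1 (h1 ▸ hN), fun h1 => hA2 (h1 ▸ hN)⟩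
  have hAB : ∀ N ∈ A'', N ≠ B1 ∧ N ≠ B2 := fun N hN =>
    ⟨fun h1 => hB1 (h1 ▸ hN), fun h1 => hB2 (h1 ▸ hN)⟩
  -- the ending nets
  have hBcard : ∀ B, B ∈ A' → (∀ p ∈ S B, p.1 ≠ c'') → ∀ k, c' < k → k < c'' →
      (∀ p ∈ S B, c' < p.1 → p.1 < c'' → (p.2.1 = 0 ∨ p.2.1 = w + 1) → p.1 = k) →
      Top S w B k → Bot S B k → (k - c') + w ≤ (part (S B) (blk c' c'' 1 w)).card + 2 := by
    intro B hB hBc k hk1 hk2 hbk hT hBo
    have hcon := (h.lay.conn B).right (h.P'.mem B hB) rfl (fun p hp hc => h.P'.uniq B hB p hp hc)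
    have hcon2 : ∀ p ∈ {p | p ∈ S B ∧ c' ≤ p.1}, (c' < p.1 ∧ p.1 < c'') ∨ p = (c', π' B, z') := by
      rintro p ⟨hp1, hp2⟩
      rcases eq_or_lt_of_le hp2 with h1 | h1
      · exact Or.inr (h.P'.uniq B hB p hp1 h1.symm)
      · refine Or.inl ⟨h1, ?_⟩
        by_contra h2
        obtain ⟨r, hr, hrc⟩ := (h.lay.conn B).col hT.1 hp1 c'' (by simp only; omega) (by omega)
        exact hBc r hr hrc
    have := ext_part (x := k) (lo := c') (hi := k) hcon (fun p hp => h.lay.y_le B p hp.1)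
      (fun p hp => h.lay.z_le B p hp.1) hcon2 (fun p hp => hbk p hp.1)
      ⟨hT.1, hk1.le⟩ ⟨⟨hBo.1, hk1.le⟩, ⟨hBo.2, hk1.le⟩⟩
      (p := (c', π' B, z')) (q := (k, 0, 0)) ⟨h.P'.mem B hB, le_refl _⟩ ⟨hBo.1, hk1.le⟩ rfl rfl
    refine this.trans (Nat.add_le_add_right (Finset.card_le_card ?_) _)
    intro p hp
    rw [mem_part] at hp ⊢
    exact ⟨hp.1, hp.2.1⟩
  -- the starting nets
  have hAcard : ∀ B, B ∈ A'' → (∀ p ∈ S B, p.1 ≠ c') → ∀ k, c' < k → k < c'' →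
      (∀ p ∈ S B, c' < p.1 → p.1 < c'' → (p.2.1 = 0 ∨ p.2.1 = w + 1) → p.1 = k) →
      Top S w B k → Bot S B k → (c'' - k) + w ≤ (part (S B) (blk c' c'' 1 w)).card + 2 := by
    intro B hB hBc k hk1 hk2 hbk hT hBo
    have hcon := (h.lay.conn B).left (h.P''.mem B hB) rfl
      (fun p hp hc => h.P''.uniq B hB p hp hc)
    have hcon2 : ∀ p ∈ {p | p ∈ S B ∧ p.1 ≤ c''},
        (c' < p.1 ∧ p.1 < c'') ∨ p = (c'', π'' B, z'') := by
      rintro p ⟨hp1, hp2⟩
      rcases eq_or_lt_of_le hp2 with h1 | h1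
      · exact Or.inr (h.P''.uniq B hB p hp1 h1)
      · refine Or.inl ⟨?_, h1⟩
        by_contra h2
        obtain ⟨r, hr, hrc⟩ := (h.lay.conn B).col hp1 hT.1 c' (by omega) (by simp only; omega)
        exact hBc r hr hrc
    have := ext_part (x := k) (lo := k) (hi := c'') hcon (fun p hp => h.lay.y_le B p hp.1)
      (fun p hp => h.lay.z_le B p hp.1) hcon2 (fun p hp => hbk p hp.1)
      ⟨hT.1, hk2.le⟩ ⟨⟨hBo.1, hk2.le⟩, ⟨hBo.2, hk2.le⟩⟩
      (p := (k, 0, 0)) (q := (c'', π'' B, z'')) ⟨hBo.1, hk2.le⟩ ⟨h.P''.mem B hB, le_refl _⟩ rfl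
      rfl
    refine this.trans (Nat.add_le_add_right (Finset.card_le_card ?_) _)
    intro p hp
    rw [mem_part] at hp ⊢
    exact ⟨hp.1, hp.2.1⟩
  have cB1 := hBcard B1 hB1A (h.P''.other B1 hB1 hB1v) x hx (by omega) (by
    intro p hp h1 h2 h3
    have h4 := hbd2 B1 (hPv B1 hB1A) p hp h1 h2 h3
    have h5 := hBA B1 hB1A
    omega) tB1 bB1
  have cB2 := hBcard B2 hB2A (h.P''.other B2 hB2 hB2v) (x + 1) (by omega) (by omega) (by
    intro p hp h1 h2 h3
    have h4 := hbd2 B2 (hPv B2 hB2A) p hp h1 h2 h3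
    have h5 := hBA B2 hB2A
    omega) tB2 bB2
  have cA1 := hAcard A1 hA1A (h.P'.other A1 hA1 hA1v) (x + 2) (by omega) (by omega) (by
    intro p hp h1 h2 h3
    have h4 := hbd2 A1 (hPv' A1 hA1A) p hp h1 h2 h3
    have h5 := hAB A1 hA1A
    omega) tA1 bA1
  have cA2 := hAcard A2 hA2A (h.P'.other A2 hA2 hA2v) (x + 3) (by omega) (by omega) (by
    intro p hp h1 h2 h3
    have h4 := hbd2 A2 (hPv' A2 hA2A) p hp h1 h2 h3
    have h5 := hAB A2 hA2A
    omega) tA2 bA2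
  -- the passing nets
  have hex2 : ∀ N ∈ P, ∃ Q : SW (mid (S N) c' c'' w), Q.1 = (c', π' N, z') ∧
      Q.2.1 = (c'', π'' N, z'') ∧ Q.2.2.IsPath := by
    intro N hN
    obtain ⟨W, hW⟩ := exists_path h.lay h.lt h.P' h.P'' (hPA' N hN) (hPA'' N hN) x (by
      intro p hp h1 h2 h3
      have h4 := hbd2 N (hPv N (hPA' N hN)) p hp h1 h2 h3
      have h5 := hBA N (hPA' N hN)
      have h6 := hAB N (hPA'' N hN)
      omega)
    exact ⟨⟨_, _, W⟩, rfl, rfl, hW⟩
  have hne' : ∀ N, Nonempty (SW (mid (S N) c' c'' w)) := fun N => ⟨⟨(0, 0, 0), _, Walk.nil⟩⟩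
  choose! Q hQ using hex2
  have hpc : ∀ N ∈ P, (c'' - c' - 1) + cnt fy (Q N).2.2 ≤
      (part (S N) (blk c' c'' 1 w)).card := by
    intro N hN
    have h1 := path_card' h.lt h.P' h.P'' (hPA' N hN) (hPA'' N hN) (h.lay.z_le N) (Q N)
      (hQ N hN).1 (hQ N hN).2.1 (hQ N hN).2.2 (a := 1) (b := w) (by
        intro r hr
        refine (support_subset (Q N).2.2 ?_ r hr).2
        rw [(hQ N hN).1]
        exact ⟨⟨h.P'.mem N (hPA' N hN), le_refl _, h.lt.le⟩, h.P'.pos N (hPA' N hN)⟩)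
    omega
  have hsum := Finset.sum_le_sum hpc
  rw [Finset.sum_add_distrib, Finset.sum_const, smul_eq_mul] at hsum
  have hcap := h.cap (insert B1 (insert B2 (insert A1 (insert A2 P)))) (by
    intro c hc h1
    simp only [Finset.mem_insert] at h1
    have e1 := h.vA' c hc
    have e2 := h.vA'' c hc
    rcases h1 with h1 | h1 | h1 | h1 | h1
    · exact e1 (h1 ▸ hB1A)
    · exact e1 (h1 ▸ hB2A)
    · exact e2 (h1 ▸ hA1A)
    · exact e2 (h1 ▸ hA2A)
    · exact e1 (hPA' _ h1)) (a := 1) (b := w) le_rfl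
  have hB1' := hAB A1 hA1A
  have hB2' := hAB A2 hA2A
  rw [Finset.sum_insert (by simp [hB12, hB1P, hB1'.1.symm, hB2'.1.symm]),
    Finset.sum_insert (by simp [hB2P, hB1'.2.symm, hB2'.2.symm]),
    Finset.sum_insert hnA,
    Finset.sum_insert hA2P] at hcap
  have hY : ∑ N ∈ P, cnt fy (Q N).2.2 ≤ 10 := by
    have hlt := h.lt
    refine event_arith hPcard hV hsum hcap cB1 cB2 cA1 cA2 ?_
    clear cB1 cB2 cA1 cA2 hcap hsum
    omega
  have hle : ∀ N ∈ P, cnt fy (Q N).2.2 ≤ 10 := fun N hN =>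
    (Finset.single_le_sum (f := fun N => cnt fy (Q N).2.2) (fun _ _ => Nat.zero_le _) hN).trans hY
  refine ⟨?_, ?_⟩
  · intro N hN
    have e1 : (Q N).1.2.1 = π' N := by rw [(hQ N hN).1]
    have e2 : (Q N).2.1.2.1 = π'' N := by rw [(hQ N hN).2.1]
    have := y_le (Q N).2.2
    rw [e1, e2] at this
    have := hle N hN
    unfold near
    omega
  · obtain ⟨D, hD⟩ : ∃ D, D = (Finset.range (w + 1)).filter
        (fun t => 1 ≤ ∑ N ∈ P, cnt (fl t) (Q N).2.2) := ⟨_, rfl⟩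
    have hDcard : D.card ≤ 10 := by
      calc D.card = D.card * 1 := (mul_one _).symm
        _ ≤ ∑ t ∈ D, ∑ N ∈ P, cnt (fl t) (Q N).2.2 := by
          rw [← smul_eq_mul]
          refine Finset.card_nsmul_le_sum _ _ _ ?_
          intro t ht
          rw [hD] at ht
          exact (Finset.mem_filter.1 ht).2
        _ = ∑ N ∈ P, ∑ t ∈ D, cnt (fl t) (Q N).2.2 := Finset.sum_comm
        _ ≤ ∑ N ∈ P, cnt fy (Q N).2.2 := Finset.sum_le_sum (fun N _ => sum_cnt_fl_le _ _)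
        _ ≤ 10 := hY
    refine near_match hDcard (fun h1 => hB12 (h.P'.inj _ hB1A _ hB2A h1))
      (fun h1 => hA12 (h.P''.inj _ hA1A _ hA2A h1)) ?_
    intro t ht
    have hpB1 := (h.P'.pos _ hB1A).2
    have hpB2 := (h.P'.pos _ hB2A).2
    have hpA1 := (h.P''.pos _ hA1A).2
    have hpA2 := (h.P''.pos _ hA2A).2
    rw [hD, Finset.mem_filter, Finset.mem_range]
    refine ⟨?_, ?_⟩
    · by_contra h1
      apply ht
      split_ifs <;> omega
    · have e3 : ∀ N ∈ P, cnt (fu t) (Q N).2.2 + (if t < π' N then 1 else 0) =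
          cnt (fd t) (Q N).2.2 + (if t < π'' N then 1 else 0) := by
        intro N hN
        have e1 : (Q N).1.2.1 = π' N := by rw [(hQ N hN).1]
        have e2 : (Q N).2.1.2.1 = π'' N := by rw [(hQ N hN).2.1]
        have := line (Q N).2.2 t
        rw [e1, e2] at this
        exact this
      have e4 := Finset.sum_congr rfl e3
      rw [Finset.sum_add_distrib, Finset.sum_add_distrib] at e4
      have e5 := h.P'.count t
      have e6 := h.P''.count t
      rw [hA', Finset.sum_insert hnB, Finset.sum_insert hB2P] at e5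
      rw [hA'', Finset.sum_insert hnA, Finset.sum_insert hA2P] at e6
      have e7 : ∑ N ∈ P, cnt (fl t) (Q N).2.2 =
          ∑ N ∈ P, cnt (fu t) (Q N).2.2 + ∑ N ∈ P, cnt (fd t) (Q N).2.2 := by
        rw [← Finset.sum_add_distrib]
        exact Finset.sum_congr rfl (fun N _ => cnt_fl _ _)
      by_contra h1
      apply ht
      omega

end Pool.Agent.W947.CR
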