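import Pool.Agent.W947.CR.Defs

/-!
# Walks in the grid
-/

namespace Pool.Agent.W947.CR

open SimpleGraph

theorem adj_iff {p q : Pt} : grid.Adj p q ↔
    (p.2 = q.2 ∧ (p.1 + 1 = q.1 ∨ q.1 + 1 = p.1)) ∨
    (p.1 = q.1 ∧ p.2.2 = q.2.2 ∧ (p.2.1 + 1 = q.2.1 ∨ q.2.1 + 1 = p.2.1)) ∨
    (p.1 = q.1 ∧ p.2.1 = q.2.1 ∧ (p.2.2 + 1 = q.2.2 ∨ q.2.2 + 1 = p.2.2)) := by
  obtain ⟨a, b, c⟩ := p
  obtain ⟨a', b', c'⟩ := q
  simp only [grid, Nat.dist, Prod.mk.injEq]
  omega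

/-- The grid graph on a set of points. -/
def on (A : Set Pt) : SimpleGraph Pt where
  Adj p q := p ∈ A ∧ q ∈ A ∧ grid.Adj p q
  symm := ⟨fun _ _ h => ⟨h.2.1, h.1, h.2.2.symm⟩⟩
  loopless := ⟨fun _ h => h.2.2.ne rfl⟩

/-- The set `A` is connected in the grid. -/
def Conn (A : Set Pt) : Prop := ∀ p ∈ A, ∀ q ∈ A, (on A).Reachable p q

theorem conn_of_subgraph {G : grid.Subgraph} (h : G.Connected) : Conn G.verts := by
  intro p hp q hq
  have h1 := (h.coe).preconnected ⟨p, hp⟩ ⟨q, hq⟩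
  let f : G.coe →g on G.verts := ⟨fun v => v.1, fun {a b} hab => by
    have : G.Adj a.1 b.1 := hab
    exact ⟨a.2, b.2, this.adj_sub⟩⟩
  exact h1.map f

theorem walk_ivt {A : Set Pt} (f : Pt → ℕ) (hf : ∀ p q, grid.Adj p q → f q ≤ f p + 1) {p q : Pt}
    (w : (on A).Walk p q) (hp : p ∈ A) (c : ℕ) (h1 : f p ≤ c) (h2 : c ≤ f q) :
    ∃ r ∈ A, f r = c := by
  induction w with
  | nil => exact ⟨_, hp, le_antisymm h1 h2⟩
  | @cons u v _ h w ih =>
    rcases eq_or_lt_of_le h1 with h3 | h3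
    · exact ⟨u, hp, h3⟩
    · have := hf _ _ h.2.2
      exact ih h.2.1 (by omega) h2

theorem Conn.ivt {A : Set Pt} (hA : Conn A) (f : Pt → ℕ)
    (hf : ∀ p q, grid.Adj p q → f q ≤ f p + 1) {p q : Pt} (hp : p ∈ A) (hq : q ∈ A) (c : ℕ)
    (h1 : f p ≤ c) (h2 : c ≤ f q) : ∃ r ∈ A, f r = c := by
  obtain ⟨w⟩ := hA p hp q hq
  exact walk_ivt f hf w hp c h1 h2

theorem adj_x {p q : Pt} (h : grid.Adj p q) : q.1 ≤ p.1 + 1 := by
  rw [adj_iff] at h; omega

theorem adj_y {p q : Pt} (h : grid.Adj p q) : q.2.1 ≤ p.2.1 + 1 := by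
  rw [adj_iff] at h
  obtain ⟨a, b, c⟩ := p
  obtain ⟨a', b', c'⟩ := q
  simp only [Prod.mk.injEq] at h ⊢
  omega

theorem Conn.col {A : Set Pt} (hA : Conn A) {p q : Pt} (hp : p ∈ A) (hq : q ∈ A) (c : ℕ)
    (h1 : p.1 ≤ c) (h2 : c ≤ q.1) : ∃ r ∈ A, r.1 = c :=
  hA.ivt (fun r => r.1) (fun _ _ h => adj_x h) hp hq c h1 h2

theorem Conn.track {A : Set Pt} (hA : Conn A) {p q : Pt} (hp : p ∈ A) (hq : q ∈ A) (c : ℕ)
    (h1 : p.2.1 ≤ c) (h2 : c ≤ q.2.1) : ∃ r ∈ A, r.2.1 = c :=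
  hA.ivt (fun r => r.2.1) (fun _ _ h => adj_y h) hp hq c h1 h2

theorem on_mono {A B : Set Pt} (h : A ⊆ B) : on A ≤ on B := fun _ _ hab =>
  ⟨h hab.1, h hab.2.1, hab.2.2⟩

/-- If a connected set has only one point in column `c`, then the part to the right of it is
connected. -/
theorem Conn.right {A : Set Pt} (hA : Conn A) {c : ℕ} {v : Pt} (hv : v ∈ A) (hvc : v.1 = c)
    (huniq : ∀ p ∈ A, p.1 = c → p = v) : Conn {p | p ∈ A ∧ c ≤ p.1} := by
  have key : ∀ {u : Pt} (_ : (on A).Walk u v), u ∈ A → c ≤ u.1 →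
      (on {p | p ∈ A ∧ c ≤ p.1}).Reachable u v := by
    intro u w
    induction w with
    | nil => intro _ _; exact Reachable.refl _
    | @cons u u' v h w ih =>
      intro hu hcu
      by_cases h1 : u.1 = c
      · rw [huniq u hu h1]
      · have h2 := adj_x h.2.2.symm
        refine Reachable.trans (Adj.reachable ⟨⟨hu, hcu⟩, ⟨h.2.1, by omega⟩, h.2.2⟩)
          (ih hv hvc huniq h.2.1 (by omega))
  intro p hp q hq
  obtain ⟨w1⟩ := hA p hp.1 v hv
  obtain ⟨w2⟩ := hA q hq.1 v hv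
  exact (key w1 hp.1 hp.2).trans (key w2 hq.1 hq.2).symm

/-- If a connected set has only one point in column `c`, then the part to the left of it is
connected. -/
theorem Conn.left {A : Set Pt} (hA : Conn A) {c : ℕ} {v : Pt} (hv : v ∈ A) (hvc : v.1 = c)
    (huniq : ∀ p ∈ A, p.1 = c → p = v) : Conn {p | p ∈ A ∧ p.1 ≤ c} := by
  have key : ∀ {u : Pt} (_ : (on A).Walk u v), u ∈ A → u.1 ≤ c →
      (on {p | p ∈ A ∧ p.1 ≤ c}).Reachable u v := by
    intro u w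
    induction w with
    | nil => intro _ _; exact Reachable.refl _
    | @cons u u' v h w ih =>
      intro hu hcu
      by_cases h1 : u.1 = c
      · rw [huniq u hu h1]
      · have h2 := adj_x h.2.2
        refine Reachable.trans (Adj.reachable ⟨⟨hu, hcu⟩, ⟨h.2.1, by omega⟩, h.2.2⟩)
          (ih hv hvc huniq h.2.1 (by omega))
  intro p hp q hq
  obtain ⟨w1⟩ := hA p hp.1 v hv
  obtain ⟨w2⟩ := hA q hq.1 v hv
  exact (key w1 hp.1 hp.2).trans (key w2 hq.1 hq.2).symm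

/-! ### The size of connected sets -/

/-- The coordinates. -/
def coord (k : Fin 3) (p : Pt) : ℕ := if k = 0 then p.1 else if k = 1 then p.2.1 else p.2.2

theorem coord_zero (p : Pt) : coord 0 p = p.1 := rfl
theorem coord_one (p : Pt) : coord 1 p = p.2.1 := rfl
theorem coord_two (p : Pt) : coord 2 p = p.2.2 := rfl

theorem coord_adj_unique {p q : Pt} (h : grid.Adj p q) {k k' : Fin 3}
    (hk : coord k p ≠ coord k q) (hk' : coord k' p ≠ coord k' q) : k = k' := by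
  rw [adj_iff] at h
  obtain ⟨a, b, c⟩ := p
  obtain ⟨a', b', c'⟩ := q
  simp only [Prod.mk.injEq] at h
  fin_cases k <;> fin_cases k' <;>
    simp [coord] at * <;> omega

theorem coord_adj {p q : Pt} (h : grid.Adj p q) (k : Fin 3) : coord k q ≤ coord k p + 1 := by
  rw [adj_iff] at h
  obtain ⟨a, b, c⟩ := p
  obtain ⟨a', b', c'⟩ := q
  simp only [Prod.mk.injEq] at h
  fin_cases k <;> simp [coord] at * <;> omega

/-- A connected set has at least one point more than the sum of its extents. -/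
theorem Conn.card {A : Finset Pt} (hA : Conn (A : Set Pt)) (L : Finset (Fin 3 × ℕ))
    (hL : ∀ l ∈ L, ∃ p ∈ A, ∃ q ∈ A, coord l.1 p ≤ l.2 ∧ l.2 < coord l.1 q) (hne : A.Nonempty) :
    L.card + 1 ≤ A.card := by
  classical
  let V : Type := {p : Pt // p ∈ A}
  let H : SimpleGraph V := grid.comap (fun v => v.1)
  have hwalk : ∀ {u v : Pt} (_ : (on (A : Set Pt)).Walk u v) (hu : u ∈ A) (hv : v ∈ A),
      H.Reachable ⟨u, hu⟩ ⟨v, hv⟩ := by
    intro u v w
    induction w with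
    | nil => intro _ _; exact Reachable.refl _
    | @cons u u' v h w ih =>
      intro hu hv
      have h1 : u' ∈ A := h.2.1
      exact Reachable.trans (Adj.reachable (show H.Adj ⟨u, hu⟩ ⟨u', h1⟩ from h.2.2)) (ih h1 hv)
  have hconn : H.Connected := by
    obtain ⟨a, ha⟩ := hne
    have : Nonempty V := ⟨⟨a, ha⟩⟩
    refine ⟨fun u v => ?_⟩
    obtain ⟨w⟩ := hA u.1 u.2 v.1 v.2
    exact hwalk w u.2 v.2
  obtain ⟨T, hTH, hT⟩ := hconn.exists_isTree_le
  have hcard := hT.card_edgeFinset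
  have hV : Fintype.card V = A.card := Fintype.card_coe A
  rw [hV] at hcard
  rw [← hcard]
  refine Nat.succ_le_succ ?_
  have hex : ∀ l ∈ L, ∃ u v : V, T.Adj u v ∧ coord l.1 u.1 = l.2 ∧ coord l.1 v.1 = l.2 + 1 := by
    intro l hl
    obtain ⟨p, hp, q, hq, h1, h2⟩ := hL l hl
    obtain ⟨w⟩ := hT.1.preconnected ⟨p, hp⟩ ⟨q, hq⟩
    obtain ⟨d, -, hd1, hd2⟩ := w.exists_boundary_dart {v | coord l.1 v.1 ≤ l.2} h1 (by
      simp only [Set.mem_ofPred_eq]; omega)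
    have h3 : coord l.1 d.snd.1 ≤ coord l.1 d.fst.1 + 1 := coord_adj (hTH d.adj) l.1
    simp only [Set.mem_ofPred_eq] at hd1 hd2
    exact ⟨d.fst, d.snd, d.adj, by omega, by omega⟩
  have hVne : Nonempty V := by
    obtain ⟨a, ha⟩ := hne
    exact ⟨⟨a, ha⟩⟩
  choose! U W hUW using hex
  refine Finset.card_le_card_of_injOn (fun l => s(U l, W l)) ?_ ?_
  · intro l hl
    simp only [Finset.mem_coe, mem_edgeFinset, mem_edgeSet]
    exact (hUW l hl).1
  · intro l hl l' hl' h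
    simp only [Sym2.eq_iff] at h
    obtain ⟨h1, h2, h3⟩ := hUW l hl
    obtain ⟨h1', h2', h3'⟩ := hUW l' hl'
    have h7 : grid.Adj (U l).1 (W l).1 := hTH h1
    rcases h with ⟨h4, h5⟩ | ⟨h4, h5⟩
    · rw [← h4] at h2'
      rw [← h5] at h3'
      have h6 : l.1 = l'.1 := coord_adj_unique h7 (by omega) (by omega)
      rw [← h6] at h2'
      exact Prod.ext h6 (by omega)
    · rw [← h5] at h2'
      rw [← h4] at h3'
      have h6 : l.1 = l'.1 := coord_adj_unique h7 (by omega) (by omega)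
      rw [← h6] at h2' h3'
      omega

end Pool.Agent.W947.CR
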