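import Pool.Agent.W947.CR.Sound

/-!
# Completeness: from paths of tokens to layouts
-/

namespace Pool.Agent.W947.CR

open SimpleGraph
open scoped Classical

/-- The columns of the first part of an operation, with the lists of the nets that are alive. -/
def hdl (w : ℕ) (cur : List ℕ) (q : ℕ) (op : Op) : List ((ℕ × ℕ) × List ℕ) :=
  if op.1 then [((cur.getD op.2.1 0, cur.getD op.2.2 0), cur)] else
    [((cur.getD op.2.1 0, cur.getD op.2.1 0), cur), ((cur.getD op.2.2 0, cur.getD op.2.2 0), cur),
      ((w + 2 * q, w + 2 * q), nxt w cur q op), ((w + 2 * q + 1, w + 2 * q + 1), nxt w cur q op)]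

/-- The columns with the lists of the nets that are alive. -/
def wl (w M l : ℕ) : List Op → List ℕ → ℕ → ℕ → List ((ℕ × ℕ) × List ℕ)
  | [], cur, _, _ => cur.map (fun N => ((N, N), cur))
  | op :: ops, cur, j, q =>
    hdl w cur q op ++ ((zn M l j).map (fun p => (p, nxt w cur q op)) ++
      wl w M l ops (nxt w cur q op) (j + 1) (nq q op))

/-- The whole list. -/
def wordl (w l : ℕ) (ops : List Op) : List ((ℕ × ℕ) × List ℕ) :=
  (List.range w).map (fun i => ((i, i), List.range w)) ++
    ((zn (w + 2 * swaps ops) l 0).map (fun p => (p, List.range w)) ++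
      wl w (w + 2 * swaps ops) l ops (List.range w) 1 0)

theorem wl_fst {w M l : ℕ} : ∀ (ops : List Op) (cur : List ℕ) (j q : ℕ),
    (wl w M l ops cur j q).map Prod.fst = wd w M l ops cur j q := by
  intro ops
  induction ops with
  | nil => intro cur j q; simp [wl, wd]
  | cons op ops ih =>
    intro cur j q
    rw [wl, wd, List.map_append, List.map_append, ih]
    congr 1
    · unfold hdl hd
      split_ifs <;> rfl
    · congr 1
      rw [List.map_map]
      conv_rhs => rw [← List.map_id (zn M l j)]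
      rfl

theorem wordl_fst {w l : ℕ} (ops : List Op) : (wordl w l ops).map Prod.fst = word w l ops := by
  unfold wordl word
  rw [List.map_append, List.map_append, wl_fst, List.map_map, List.map_map]
  congr 1
  congr 1
  conv_rhs => rw [← List.map_id (zn (w + 2 * swaps ops) l 0)]
  rfl

/-! ### Every net is alive in an interval of columns -/

/-- The invariant of the lists of the nets alive. -/
structure Inv (w : ℕ) (cur : List ℕ) (q : ℕ) (L : List (List ℕ)) : Prop where
  fresh : ∀ b ∈ L, ∀ N ∈ b, N ∈ cur ∨ w + 2 * q ≤ N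
  pre : ∀ N ∈ cur, ∀ i j, i ≤ j → N ∈ L.getD j [] → N ∈ L.getD i []
  conv : ∀ N i j k, i ≤ j → j ≤ k → N ∈ L.getD i [] → N ∈ L.getD k [] → N ∈ L.getD j []

theorem Inv.nil (w : ℕ) (cur : List ℕ) (q : ℕ) : Inv w cur q [] := by
  refine ⟨?_, ?_, ?_⟩ <;> simp

theorem Inv.cons {w : ℕ} {cur : List ℕ} {q : ℕ} {L : List (List ℕ)} (h : Inv w cur q L) :
    Inv w cur q (cur :: L) := by
  refine ⟨?_, ?_, ?_⟩
  · intro b hb N hN
    rw [List.mem_cons] at hb
    rcases hb with rfl | hb
    · exact Or.inl hN
    · exact h.fresh b hb N hN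
  · intro N hN i j hij hj
    cases i with
    | zero => simpa using hN
    | succ i =>
      cases j with
      | zero => omega
      | succ j =>
        rw [List.getD_cons_succ] at hj ⊢
        exact h.pre N hN i j (by omega) hj
  · intro N i j k hij hjk hi hk
    cases j with
    | zero =>
      have : i = 0 := by omega
      rw [this] at hi
      exact hi
    | succ j =>
      cases k with
      | zero => omega
      | succ k =>
        rw [List.getD_cons_succ] at hk ⊢
        cases i with
        | zero =>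
          rw [List.getD_cons_zero] at hi
          exact h.pre N hi j k (by omega) hk
        | succ i =>
          rw [List.getD_cons_succ] at hi
          exact h.conv N i j k (by omega) (by omega) hi hk

theorem Inv.replicate {w : ℕ} {cur : List ℕ} {q : ℕ} {L : List (List ℕ)} (h : Inv w cur q L)
    (n : ℕ) : Inv w cur q (List.replicate n cur ++ L) := by
  induction n with
  | zero => exact h
  | succ n ih => rw [List.replicate_succ, List.cons_append]; exact ih.cons

theorem mem_of_good {w q : ℕ} {cur : List ℕ} (h : Good w q cur) {N : ℕ} :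
    N ∈ cur ↔ ∃ k < w, cur.getD k 0 = N := by
  constructor
  · intro hN
    obtain ⟨k, hk, rfl⟩ := List.getElem_of_mem hN
    refine ⟨k, by rw [← h.len]; exact hk, ?_⟩
    rw [List.getD_eq_getElem _ _ hk]
  · rintro ⟨k, hk, rfl⟩
    rw [List.getD_eq_getElem _ _ (by rw [h.len]; exact hk)]
    exact List.getElem_mem _

theorem Inv.back {w : ℕ} {cur : List ℕ} {q : ℕ} {L : List (List ℕ)} (hg : Good w q cur) (op : Op)
    (h : Inv w (nxt w cur q op) (nq q op) L) : Inv w cur q L := by
  have hle : q ≤ nq q op := by unfold nq; split_ifs <;> omega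
  refine ⟨?_, ?_, h.conv⟩
  · intro b hb N hN
    rcases h.fresh b hb N hN with h1 | h1
    · rw [mem_of_good (hg.next op)] at h1
      obtain ⟨k, hk, rfl⟩ := h1
      unfold nxt
      split_ifs with h0
      · exact Or.inl ((mem_of_good hg).2 ⟨k, hk, rfl⟩)
      · rw [upd_getD _ _ _ _ _ (by rw [hg.len]; exact hk)]
        split_ifs with h2 h3
        · right; omega
        · right; omega
        · exact Or.inl ((mem_of_good hg).2 ⟨k, hk, rfl⟩)
    · right; omega
  · intro N hN i j hij hj
    by_cases h1 : N ∈ nxt w cur q op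
    · exact h.pre N h1 i j hij hj
    · exfalso
      obtain ⟨k, hk, rfl⟩ := (mem_of_good hg).1 hN
      have h2 := hg.lt k hk
      by_cases h3 : j < L.length
      · rw [List.getD_eq_getElem _ _ h3] at hj
        rcases h.fresh _ (List.getElem_mem h3) _ hj with h4 | h4
        · exact h1 h4
        · omega
      · rw [List.getD_eq_default _ _ (by omega)] at hj
        exact absurd hj List.not_mem_nil

theorem map_snd_const {α β : Type} (L : List α) (c : β) :
    (L.map (fun p => (p, c))).map Prod.snd = List.replicate L.length c := by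
  rw [List.map_map]
  exact List.map_const (l := L) (b := c)

theorem wl_inv {w M l : ℕ} : ∀ (ops : List Op) (cur : List ℕ) (j q : ℕ), Good w q cur →
    Inv w cur q ((wl w M l ops cur j q).map Prod.snd) := by
  intro ops
  induction ops with
  | nil =>
    intro cur j q _
    have h1 : (wl w M l [] cur j q).map Prod.snd = List.replicate cur.length cur ++ [] := by
      rw [wl, List.map_map, List.append_nil]
      exact List.map_const (l := cur) (b := cur)
    rw [h1]
    exact (Inv.nil w cur q).replicate _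
  | cons op ops ih =>
    intro cur j q hg
    have h1 := (ih (nxt w cur q op) (j + 1) (nq q op) (hg.next op)).replicate l
    have h2 : (wl w M l (op :: ops) cur j q).map Prod.snd = (hdl w cur q op).map Prod.snd ++
        (List.replicate l (nxt w cur q op) ++ (wl w M l ops (nxt w cur q op) (j + 1)
          (nq q op)).map Prod.snd) := by
      rw [wl, List.map_append, List.map_append, map_snd_const, zn_length]
    rw [h2]
    unfold hdl
    split_ifs with h0
    · exact (Inv.back hg op h1).cons
    · exact (Inv.back hg op (h1.cons).cons).cons.cons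

theorem wordl_conv {w l : ℕ} (ops : List Op) : ∀ N i j k, i ≤ j → j ≤ k →
    N ∈ ((wordl w l ops).map Prod.snd).getD i [] → N ∈ ((wordl w l ops).map Prod.snd).getD k [] →
    N ∈ ((wordl w l ops).map Prod.snd).getD j [] := by
  have h1 := ((wl_inv (w := w) (M := w + 2 * swaps ops) (l := l) ops (List.range w) 1 0
    (good_range w)).replicate l).replicate w
  have h2 : (wordl w l ops).map Prod.snd = List.replicate w (List.range w) ++
      (List.replicate l (List.range w) ++
        (wl w (w + 2 * swaps ops) l ops (List.range w) 1 0).map Prod.snd) := by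
    unfold wordl
    rw [List.map_append, List.map_append, map_snd_const, zn_length, List.map_map]
    congr 1
    have := List.map_const (l := List.range w) (b := List.range w)
    rw [List.length_range] at this
    exact this
  rw [h2]
  exact h1.conv

/-! ### Tracks -/

/-- Exact runs. -/
def XRun : List Op → (ℕ → ℕ) → Prop
  | [], _ => True
  | op :: ops, ρ => (op.1 = true → ρ op.2.2 < ρ op.2.1 ∧ XRun ops ρ) ∧
      (op.1 = false → XRun ops ρ ∨ XRun ops (fun k => ρ (sw op.2.1 op.2.2 k)))

/-- The nets alive have different tracks. -/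
def AlOK (w M : ℕ) (trk : ℕ → ℕ) (al : List ℕ) : Prop :=
  (∀ N ∈ al, N < M ∧ 1 ≤ trk N ∧ trk N ≤ w) ∧ ∀ N ∈ al, ∀ N' ∈ al, trk N = trk N' → N = N'

/-- The conditions for a column. -/
def ColOK (w M : ℕ) (trk : ℕ → ℕ) (x : (ℕ × ℕ) × List ℕ) : Prop :=
  AlOK w M trk x.2 ∧ ((x.1.1 ∈ x.2 ∧ x.1.2 ∈ x.2 ∧ (x.1.1 = x.1.2 ∨ trk x.1.2 < trk x.1.1)) ∨
    (x.1.1 = x.1.2 ∧ M ≤ x.1.1))

theorem alOK_of {w M q : ℕ} {cur : List ℕ} (hg : Good w q cur) (hM : w + 2 * q ≤ M)
    {ρ trk : ℕ → ℕ} (hpos : ∀ k < w, 1 ≤ ρ k ∧ ρ k ≤ w)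
    (hinj : ∀ k < w, ∀ k' < w, ρ k = ρ k' → k = k') (htrk : ∀ k < w, trk (cur.getD k 0) = ρ k) :
    AlOK w M trk cur := by
  refine ⟨?_, ?_⟩
  · intro N hN
    obtain ⟨k, hk, rfl⟩ := (mem_of_good hg).1 hN
    have h1 := hg.lt k hk
    rw [htrk k hk]
    exact ⟨by omega, hpos k hk⟩
  · intro N hN N' hN' h
    obtain ⟨k, hk, rfl⟩ := (mem_of_good hg).1 hN
    obtain ⟨k', hk', rfl⟩ := (mem_of_good hg).1 hN'
    rw [htrk k hk, htrk k' hk'] at h
    rw [hinj k hk k' hk' h]

theorem exists_trk {w M l : ℕ} : ∀ (ops : List Op) (cur : List ℕ) (j q : ℕ) (ρ trk0 : ℕ → ℕ),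
    Good w q cur → Valid w ops → w + 2 * (q + swaps ops) = M →
    (∀ k < w, 1 ≤ ρ k ∧ ρ k ≤ w) → (∀ k < w, ∀ k' < w, ρ k = ρ k' → k = k') →
    (∀ k < w, trk0 (cur.getD k 0) = ρ k) → XRun ops ρ →
    ∃ trk : ℕ → ℕ, (∀ N < w + 2 * q, trk N = trk0 N) ∧
      ∀ x ∈ wl w M l ops cur j q, ColOK w M trk x := by
  intro ops
  induction ops with
  | nil =>
    intro cur j q ρ trk0 hg _ hM hpos hinj htrk _
    refine ⟨trk0, fun _ _ => rfl, ?_⟩
    intro x hx
    rw [wl, List.mem_map] at hx
    obtain ⟨N, hN, rfl⟩ := hx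
    exact ⟨alOK_of hg (by rw [← hM]; omega) hpos hinj htrk, Or.inl ⟨hN, hN, Or.inl rfl⟩⟩
  | cons op ops ih =>
    intro cur j q ρ trk0 hg hv hM hpos hinj htrk hx
    obtain ⟨hvo, hv'⟩ := valid_cons hv
    have hq := swaps_cons op ops q
    have hg' := hg.next op
    have hgm : ∀ k < w, cur.getD k 0 ∈ cur := fun k hk => (mem_of_good hg).2 ⟨k, hk, rfl⟩
    by_cases h0 : op.1 = true
    · have en : nxt w cur q op = cur := by rw [nxt, if_pos h0]
      have eq' : nq q op = q := by rw [nq, if_pos h0]
      obtain ⟨h1, h2⟩ := hx.1 h0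
      rw [eq'] at hq
      obtain ⟨trk, ht1, ht2⟩ := ih cur (j + 1) q ρ trk0 hg hv' (by omega) hpos hinj htrk h2
      refine ⟨trk, ht1, ?_⟩
      have hcur : ∀ k < w, trk (cur.getD k 0) = ρ k := by
        intro k hk
        rw [ht1 _ (hg.lt k hk), htrk k hk]
      have hal : AlOK w M trk cur := alOK_of hg (by omega) hpos hinj hcur
      intro x hx
      rw [wl, List.mem_append, List.mem_append, en, eq', hdl, if_pos h0] at hx
      rcases hx with hx | hx | hx
      · rw [List.mem_singleton] at hx
        subst hx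
        refine ⟨hal, Or.inl ⟨hgm _ hvo.1, hgm _ hvo.2.1, Or.inr ?_⟩⟩
        simp only
        rw [hcur _ hvo.1, hcur _ hvo.2.1]
        exact h1
      · rw [List.mem_map] at hx
        obtain ⟨p, hp, rfl⟩ := hx
        have h3 := mem_zn hp
        exact ⟨hal, Or.inr ⟨h3.1.symm, by simp only; omega⟩⟩
      · exact ht2 x hx
    · have eq' : nq q op = q + 1 := by rw [nq, if_neg h0]
      have hnx : ∀ k < w, (nxt w cur q op).getD k 0 = if k = op.2.1 then w + 2 * q else
          if k = op.2.2 then w + 2 * q + 1 else cur.getD k 0 := by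
        intro k hk
        rw [nxt, if_neg h0, upd_getD _ _ _ _ _ (by rw [hg.len]; exact hk)]
      have hsw : ∀ k < w, sw op.2.1 op.2.2 k < w := fun k hk => sw_lt hvo.1 hvo.2.1 hk
      obtain ⟨ρ', hρ, hx'⟩ : ∃ ρ' : ℕ → ℕ, ((∀ k, ρ' k = ρ k) ∨
          ∀ k, ρ' k = ρ (sw op.2.1 op.2.2 k)) ∧ XRun ops ρ' := by
        rcases hx.2 (by simpa using h0) with h1 | h1
        · exact ⟨ρ, Or.inl fun _ => rfl, h1⟩
        · exact ⟨_, Or.inr fun _ => rfl, h1⟩
      have hpos' : ∀ k < w, 1 ≤ ρ' k ∧ ρ' k ≤ w := by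
        intro k hk
        rcases hρ with h1 | h1
        · rw [h1]; exact hpos k hk
        · rw [h1]; exact hpos _ (hsw k hk)
      have hinj' : ∀ k < w, ∀ k' < w, ρ' k = ρ' k' → k = k' := by
        intro k hk k' hk' hkk
        rcases hρ with h1 | h1
        · rw [h1, h1] at hkk; exact hinj k hk k' hk' hkk
        · rw [h1, h1] at hkk
          have := hinj _ (hsw k hk) _ (hsw k' hk') hkk
          rw [← sw_sw op.2.1 op.2.2 k, this, sw_sw]
      have hoth : ∀ k, k ≠ op.2.1 → k ≠ op.2.2 → ρ' k = ρ k := by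
        intro k h1 h2
        rcases hρ with h3 | h3
        · exact h3 k
        · rw [h3, sw, if_neg h1, if_neg h2]
      obtain ⟨trk1, htrk1⟩ : ∃ trk1 : ℕ → ℕ, ∀ N, trk1 N = if N = w + 2 * q then ρ' op.2.1 else
        if N = w + 2 * q + 1 then ρ' op.2.2 else trk0 N := ⟨_, fun _ => rfl⟩
      have hold : ∀ N < w + 2 * q, trk1 N = trk0 N := by
        intro N hN
        rw [htrk1, if_neg (by omega), if_neg (by omega)]
      have hnew : ∀ k < w, trk1 ((nxt w cur q op).getD k 0) = ρ' k := by
        intro k hk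
        rw [hnx k hk]
        by_cases e1 : k = op.2.1
        · rw [if_pos e1, htrk1, if_pos rfl, e1]
        · rw [if_neg e1]
          by_cases e2 : k = op.2.2
          · rw [if_pos e2, htrk1, if_neg (by omega), if_pos rfl, e2]
          · rw [if_neg e2, hold _ (hg.lt k hk), htrk k hk, hoth k e1 e2]
      obtain ⟨trk, ht1, ht2⟩ := ih _ (j + 1) _ ρ' trk1 hg' hv' (by omega) hpos' hinj' hnew hx'
      rw [eq'] at ht1
      have ht3 : ∀ N < w + 2 * q, trk N = trk0 N := by
        intro N hN
        rw [ht1 N (by omega), hold N hN]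
      refine ⟨trk, ht3, ?_⟩
      have hal : AlOK w M trk cur := alOK_of hg (by omega) hpos hinj (by
        intro k hk
        rw [ht3 _ (hg.lt k hk), htrk k hk])
      have hal' : AlOK w M trk (nxt w cur q op) := alOK_of hg' (by omega) hpos' hinj' (by
        intro k hk
        have := hg'.lt k hk
        rw [eq'] at this
        rw [ht1 _ this, hnew k hk])
      have hn1 : w + 2 * q ∈ nxt w cur q op :=
        (mem_of_good hg').2 ⟨op.2.1, hvo.1, by rw [hnx _ hvo.1, if_pos rfl]⟩
      have hn2 : w + 2 * q + 1 ∈ nxt w cur q op :=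
        (mem_of_good hg').2 ⟨op.2.2, hvo.2.1, by
          rw [hnx _ hvo.2.1, if_neg (Ne.symm hvo.2.2), if_pos rfl]⟩
      intro x hx
      rw [wl, List.mem_append, List.mem_append, hdl, if_neg h0] at hx
      rcases hx with hx | hx | hx
      · simp only [List.mem_cons, List.not_mem_nil, or_false] at hx
        rcases hx with rfl | rfl | rfl | rfl
        · exact ⟨hal, Or.inl ⟨hgm _ hvo.1, hgm _ hvo.1, Or.inl rfl⟩⟩
        · exact ⟨hal, Or.inl ⟨hgm _ hvo.2.1, hgm _ hvo.2.1, Or.inl rfl⟩⟩
        · exact ⟨hal', Or.inl ⟨hn1, hn1, Or.inl rfl⟩⟩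
        · exact ⟨hal', Or.inl ⟨hn2, hn2, Or.inl rfl⟩⟩
      · rw [List.mem_map] at hx
        obtain ⟨p, hp, rfl⟩ := hx
        have h3 := mem_zn hp
        exact ⟨hal', Or.inr ⟨h3.1.symm, by simp only; omega⟩⟩
      · exact ht2 x hx

theorem exists_trk_word {w l : ℕ} {ops : List Op} (hv : Valid w ops)
    (hx : XRun ops (fun k => k + 1)) :
    ∃ trk : ℕ → ℕ, ∀ x ∈ wordl w l ops, ColOK w (w + 2 * swaps ops) trk x := by
  obtain ⟨trk, h1, h2⟩ := exists_trk (w := w) (M := w + 2 * swaps ops) (l := l) ops (List.range w)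
    1 0 (fun k => k + 1) (fun k => k + 1) (good_range w) hv (by simp) (fun k hk => by omega)
    (fun k _ k' _ h => by omega) (fun k hk => by rw [range_getD hk]) hx
  have hal : AlOK w (w + 2 * swaps ops) trk (List.range w) :=
    alOK_of (good_range w) (by omega) (ρ := fun k => k + 1) (fun k hk => by omega)
      (fun k _ k' _ h => by omega) (fun k hk => by rw [range_getD hk, h1 k (by omega)])
  refine ⟨trk, ?_⟩
  intro x hx
  unfold wordl at hx
  rw [List.mem_append, List.mem_append] at hx
  rcases hx with hx | hx | hx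
  · rw [List.mem_map] at hx
    obtain ⟨i, hi, rfl⟩ := hx
    exact ⟨hal, Or.inl ⟨hi, hi, Or.inl rfl⟩⟩
  · rw [List.mem_map] at hx
    obtain ⟨p, hp, rfl⟩ := hx
    have h3 := mem_zn hp
    exact ⟨hal, Or.inr ⟨h3.1.symm, by simp only; omega⟩⟩
  · exact h2 x hx

end Pool.Agent.W947.CR
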