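import Pool.Agent.W947.CR.Layout

/-!
# The layout
-/

namespace Pool.Agent.W947.CR

open SimpleGraph
open scoped Classical

/-- The points of a net in a column. -/
def InCol (w : ℕ) (trk : ℕ → ℕ) (N : ℕ) (x : (ℕ × ℕ) × List ℕ) (y z : ℕ) : Prop :=
  y ≤ w + 1 ∧ ((z = 1 ∧ ((N ∈ x.2 ∧ y = trk N) ∨ (y = 0 ∧ N = x.1.2) ∨
    (y = w + 1 ∧ N = x.1.1))) ∨
    (z = 0 ∧ ((N = x.1.1 ∧ N = x.1.2) ∨ (N = x.1.1 ∧ trk N ≤ y) ∨ (N = x.1.2 ∧ y ≤ trk N))))

/-- The points of a net. -/
def pts (w : ℕ) (trk : ℕ → ℕ) (X : List ((ℕ × ℕ) × List ℕ)) (N : ℕ) : Set Pt :=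
  {p | (1 ≤ p.1 ∧ p.1 ≤ X.length) ∧ InCol w trk N (X.getD (p.1 - 1) ((0, 0), [])) p.2.1 p.2.2}

theorem reach_vert {s : Set Pt} {x z a : ℕ} : ∀ (b : ℕ), a ≤ b →
    (∀ y, a ≤ y → y ≤ b → (x, y, z) ∈ s) → (on s).Reachable (x, a, z) (x, b, z) := by
  intro b hb
  induction b, hb using Nat.le_induction with
  | base => intro _; exact Reachable.refl _
  | succ b hb ih =>
    intro h
    refine (ih (fun y h1 h2 => h y h1 (by omega))).trans (Adj.reachable ⟨?_, ?_, ?_⟩)
    · exact h b hb (by omega)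
    · exact h (b + 1) (by omega) le_rfl
    · rw [adj_iff]
      exact Or.inr (Or.inl ⟨rfl, rfl, Or.inl rfl⟩)

theorem reach_horiz {s : Set Pt} {y z a : ℕ} : ∀ (b : ℕ), a ≤ b →
    (∀ x, a ≤ x → x ≤ b → (x, y, z) ∈ s) → (on s).Reachable (a, y, z) (b, y, z) := by
  intro b hb
  induction b, hb using Nat.le_induction with
  | base => intro _; exact Reachable.refl _
  | succ b hb ih =>
    intro h
    refine (ih (fun y h1 h2 => h y h1 (by omega))).trans (Adj.reachable ⟨?_, ?_, ?_⟩)
    · exact h b hb (by omega)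
    · exact h (b + 1) (by omega) le_rfl
    · rw [adj_iff]
      exact Or.inl ⟨rfl, Or.inl rfl⟩

theorem reach_layer {s : Set Pt} {x y : ℕ} (h0 : (x, y, 0) ∈ s) (h1 : (x, y, 1) ∈ s) :
    (on s).Reachable (x, y, 0) (x, y, 1) := by
  refine Adj.reachable ⟨h0, h1, ?_⟩
  rw [adj_iff]
  exact Or.inr (Or.inr ⟨rfl, rfl, Or.inl rfl⟩)

theorem sub_connected {s : Set Pt} (hs : Conn s) (hne : s.Nonempty) :
    ((⊤ : grid.Subgraph).induce s).Connected := by
  obtain ⟨G, hG⟩ : ∃ G : grid.Subgraph, G = (⊤ : grid.Subgraph).induce s := ⟨_, rfl⟩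
  have hv : G.verts = s := by rw [hG]; rfl
  have hadj : ∀ p q, p ∈ s → q ∈ s → grid.Adj p q → G.Adj p q := by
    intro p q hp hq h
    rw [hG, Subgraph.induce_adj]
    exact ⟨hp, hq, by rwa [Subgraph.top_adj]⟩
  rw [← hG]
  have hwalk : ∀ {u v : Pt} (_ : (on s).Walk u v) (hu : u ∈ G.verts) (hv : v ∈ G.verts),
      G.coe.Reachable ⟨u, hu⟩ ⟨v, hv⟩ := by
    intro u v W
    induction W with
    | nil => intro _ _; exact Reachable.refl _
    | @cons u u' v h W ih =>
      intro hu hv'
      have h1 : u' ∈ G.verts := by rw [hv]; exact h.2.1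
      have h2 : G.coe.Adj ⟨u, hu⟩ ⟨u', h1⟩ := hadj u u' h.1 h.2.1 h.2.2
      exact Reachable.trans (Adj.reachable h2) (ih h1 hv')
  rw [Subgraph.connected_iff']
  obtain ⟨a, ha⟩ := hne
  have : Nonempty G.verts := ⟨⟨a, by rw [hv]; exact ha⟩⟩
  refine ⟨fun u v => ?_⟩
  obtain ⟨W⟩ := hs u.1 (by rw [← hv]; exact u.2) v.1 (by rw [← hv]; exact v.2)
  exact hwalk W u.2 v.2

section

variable {w M : ℕ} {trk : ℕ → ℕ} {X : List ((ℕ × ℕ) × List ℕ)}

theorem getD_mem {x : ℕ} (h : x < X.length) : X.getD x ((0, 0), []) ∈ X := by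
  rw [List.getD_eq_getElem _ _ h]
  exact List.getElem_mem _

/-- A net with a terminal in a column is alive there or vertical. -/
theorem alive_or {x : (ℕ × ℕ) × List ℕ} (hx : ColOK w M trk x) {N : ℕ}
    (hN : N = x.1.1 ∨ N = x.1.2) : (N ∈ x.2 ∧ N < M ∧ 1 ≤ trk N ∧ trk N ≤ w) ∨
      (N = x.1.1 ∧ N = x.1.2 ∧ M ≤ N ∧ N ∉ x.2) := by
  rcases hx.2 with ⟨h1, h2, _⟩ | ⟨h1, h2⟩
  · left
    rcases hN with rfl | rfl
    · exact ⟨h1, hx.1.1 _ h1⟩
    · exact ⟨h2, hx.1.1 _ h2⟩
  · right
    have h3 : N = x.1.1 := by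
      rcases hN with h | h
      · exact h
      · rw [h, h1]
    refine ⟨h3, by rw [h3, h1], by omega, ?_⟩
    intro h4
    have := (hx.1.1 _ h4).1
    omega

theorem pts_conn (hcol : ∀ x ∈ X, ColOK w M trk x)
    (hconv : ∀ N i j k, i ≤ j → j ≤ k → N ∈ (X.map Prod.snd).getD i [] →
      N ∈ (X.map Prod.snd).getD k [] → N ∈ (X.map Prod.snd).getD j [])
    (hord : (X.map Prod.fst).Pairwise (VOrd M)) (N : ℕ) : Conn (pts w trk X N) := by
  obtain ⟨s, hs⟩ : ∃ s, s = pts w trk X N := ⟨_, rfl⟩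
  have hmem : ∀ x y z, (x, y, z) ∈ s ↔ (1 ≤ x ∧ x ≤ X.length) ∧
      InCol w trk N (X.getD (x - 1) ((0, 0), [])) y z := by
    intro x y z; rw [hs]; rfl
  rw [← hs]
  by_cases hNM : N < M
  · -- trunk nets
    have key : ∀ p ∈ s, (1 ≤ p.1 ∧ p.1 ≤ X.length) ∧ N ∈ (X.getD (p.1 - 1) ((0, 0), [])).2 ∧
        (1 ≤ trk N ∧ trk N ≤ w) ∧ (on s).Reachable p (p.1, trk N, 1) := by
      rintro ⟨x, y, z⟩ hp
      have hp' := hp
      rw [hmem] at hp'
      obtain ⟨hx, hy, h⟩ := hp'
      have hc := hcol _ (getD_mem (X := X) (x := x - 1) (by omega))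
      have hal : N ∈ (X.getD (x - 1) ((0, 0), [])).2 := by
        have h2 : N = (X.getD (x - 1) ((0, 0), [])).1.1 ∨
            N = (X.getD (x - 1) ((0, 0), [])).1.2 → N ∈ (X.getD (x - 1) ((0, 0), [])).2 := by
          intro h3
          rcases alive_or hc h3 with h4 | h4
          · exact h4.1
          · omega
        rcases h with ⟨_, h | h | h⟩ | ⟨_, h | h | h⟩
        · exact h.1
        · exact h2 (Or.inr h.2)
        · exact h2 (Or.inl h.2)
        · exact h2 (Or.inl h.1)
        · exact h2 (Or.inl h.1)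
        · exact h2 (Or.inr h.1)
      have ht := (hc.1.1 N hal).2
      refine ⟨hx, hal, ht, ?_⟩
      have hb : (x, trk N, 1) ∈ s := by
        rw [hmem]
        exact ⟨hx, by omega, Or.inl ⟨rfl, Or.inl ⟨hal, rfl⟩⟩⟩
      -- from layer 0
      have h0 : ∀ y, (x, y, 0) ∈ s → (on s).Reachable (x, y, 0) (x, trk N, 1) := by
        intro y hy0
        have hy1 := hy0
        rw [hmem] at hy1
        obtain ⟨-, hyw, hy1⟩ := hy1
        rcases hy1 with ⟨hy1, -⟩ | ⟨-, hy1⟩
        · omega
        · rcases le_total y (trk N) with h5 | h5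
          · have h6 : ∀ y', y ≤ y' → y' ≤ trk N → (x, y', 0) ∈ s := by
              intro y' h7 h8
              rw [hmem]
              refine ⟨hx, by omega, Or.inr ⟨rfl, ?_⟩⟩
              rcases hy1 with h9 | h9 | h9
              · exact Or.inl h9
              · have : y' = y := by omega
                rw [this]
                exact Or.inr (Or.inl h9)
              · exact Or.inr (Or.inr ⟨h9.1, h8⟩)
            exact (reach_vert _ h5 h6).trans (reach_layer (h6 _ h5 le_rfl) hb)
          · have h6 : ∀ y', trk N ≤ y' → y' ≤ y → (x, y', 0) ∈ s := by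
              intro y' h7 h8
              rw [hmem]
              refine ⟨hx, by omega, Or.inr ⟨rfl, ?_⟩⟩
              rcases hy1 with h9 | h9 | h9
              · exact Or.inl h9
              · exact Or.inr (Or.inl ⟨h9.1, h7⟩)
              · have : y' = y := by omega
                rw [this]
                exact Or.inr (Or.inr h9)
            exact (reach_vert _ h5 h6).symm.trans (reach_layer (h6 _ le_rfl h5) hb)
      rcases h with ⟨rfl, h | h | h⟩ | ⟨rfl, h⟩
      · rw [h.2]
      · have h7 : (x, y, 0) ∈ s := by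
          rw [hmem]
          exact ⟨hx, hy, Or.inr ⟨rfl, Or.inr (Or.inr ⟨h.2, by omega⟩)⟩⟩
        exact (reach_layer h7 hp).symm.trans (h0 y h7)
      · have h7 : (x, y, 0) ∈ s := by
          rw [hmem]
          exact ⟨hx, hy, Or.inr ⟨rfl, Or.inr (Or.inl ⟨h.2, by omega⟩)⟩⟩
        exact (reach_layer h7 hp).symm.trans (h0 y h7)
      · exact h0 y hp
    have hh : ∀ p ∈ s, ∀ q ∈ s, p.1 ≤ q.1 → (on s).Reachable p q := by
      intro p hp q hq hpq
      obtain ⟨h1, h2, h3, h4⟩ := key p hp
      obtain ⟨h1', h2', h3', h4'⟩ := key q hq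
      refine h4.trans ((reach_horiz _ hpq ?_).trans h4'.symm)
      intro x h5 h6
      rw [hmem]
      refine ⟨by omega, by omega, Or.inl ⟨rfl, Or.inl ⟨?_, rfl⟩⟩⟩
      have hg : ∀ c, 1 ≤ c → c ≤ X.length → (X.map Prod.snd).getD (c - 1) [] =
          (X.getD (c - 1) ((0, 0), [])).2 := by
        intro c h7 h8
        rw [List.getD_eq_getElem _ _ (by rw [List.length_map]; omega),
          List.getD_eq_getElem _ _ (by omega), List.getElem_map]
      have := hconv N (p.1 - 1) (x - 1) (q.1 - 1) (by omega) (by omega)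
        (by rw [hg _ (by omega) (by omega)]; exact h2) (by rw [hg _ (by omega) (by omega)]; exact h2')
      rw [hg _ (by omega) (by omega)] at this
      exact this
    intro p hp q hq
    rcases le_total p.1 q.1 with h | h
    · exact hh p hp q hq h
    · exact (hh q hq p hp h).symm
  · -- vertical nets
    have key : ∀ p ∈ s, (1 ≤ p.1 ∧ p.1 ≤ X.length) ∧
        N = (X.getD (p.1 - 1) ((0, 0), [])).1.1 ∧ (on s).Reachable p (p.1, 0, 0) := by
      rintro ⟨x, y, z⟩ hp
      have hp' := hp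
      rw [hmem] at hp'
      obtain ⟨hx, hy, h⟩ := hp'
      have hc := hcol _ (getD_mem (X := X) (x := x - 1) (by omega))
      have hal : N = (X.getD (x - 1) ((0, 0), [])).1.1 ∧
          N = (X.getD (x - 1) ((0, 0), [])).1.2 := by
        have h2 : N = (X.getD (x - 1) ((0, 0), [])).1.1 ∨
            N = (X.getD (x - 1) ((0, 0), [])).1.2 →
            N = (X.getD (x - 1) ((0, 0), [])).1.1 ∧ N = (X.getD (x - 1) ((0, 0), [])).1.2 := by
          intro h3
          rcases alive_or hc h3 with h4 | h4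
          · omega
          · exact ⟨h4.1, h4.2.1⟩
        rcases h with ⟨_, h | h | h⟩ | ⟨_, h | h | h⟩
        · have := (hc.1.1 N h.1).1
          omega
        · exact h2 (Or.inr h.2)
        · exact h2 (Or.inl h.2)
        · exact h2 (Or.inl h.1)
        · exact h2 (Or.inl h.1)
        · exact h2 (Or.inr h.1)
      have h0 : ∀ y ≤ w + 1, (x, y, 0) ∈ s := by
        intro y hy
        rw [hmem]
        exact ⟨hx, hy, Or.inr ⟨rfl, Or.inl hal⟩⟩
      refine ⟨hx, hal.1, ?_⟩
      have h1 : (on s).Reachable (x, y, 0) (x, 0, 0) :=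
        (reach_vert y (Nat.zero_le _) (fun y' _ h3 => h0 y' (by omega))).symm
      rcases h with ⟨rfl, h⟩ | ⟨rfl, h⟩
      · exact (reach_layer (h0 y hy) hp).symm.trans h1
      · exact h1
    intro p hp q hq
    obtain ⟨h1, h2, h3⟩ := key p hp
    obtain ⟨h1', h2', h3'⟩ := key q hq
    have hg : ∀ c, 1 ≤ c → ∀ hc : c ≤ X.length, N = (X.getD (c - 1) ((0, 0), [])).1.1 →
        M ≤ ((X.map Prod.fst)[c - 1]'(by rw [List.length_map]; omega)).1 ∧
        ((X.map Prod.fst)[c - 1]'(by rw [List.length_map]; omega)).1 = N := by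
      intro c h7 h8 h9
      rw [List.getD_eq_getElem _ _ (by omega)] at h9
      rw [List.getElem_map]
      exact ⟨by omega, h9.symm⟩
    have e1 := hg p.1 h1.1 h1.2 h2
    have e2 := hg q.1 h1'.1 h1'.2 h2'
    have hpq : p.1 = q.1 := by
      rcases lt_trichotomy p.1 q.1 with h | h | h
      · have := List.pairwise_iff_getElem.1 hord (p.1 - 1) (q.1 - 1)
          (by rw [List.length_map]; omega) (by rw [List.length_map]; omega) (by omega) e1.1 e2.1
        omega
      · exact h
      · have := List.pairwise_iff_getElem.1 hord (q.1 - 1) (p.1 - 1)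
          (by rw [List.length_map]; omega) (by rw [List.length_map]; omega) (by omega) e2.1 e1.1
        omega
    rw [hpq] at h3
    exact h3.trans h3'.symm

theorem pts_disj (hcol : ∀ x ∈ X, ColOK w M trk x) {N N' : ℕ} {p : Pt}
    (h : p ∈ pts w trk X N) (h' : p ∈ pts w trk X N') : N = N' := by
  obtain ⟨hx, hy, h⟩ := h
  obtain ⟨_, _, h'⟩ := h'
  have hc := hcol _ (getD_mem (X := X) (x := p.1 - 1) (by omega))
  obtain ⟨c, hcc⟩ : ∃ c, c = X.getD (p.1 - 1) ((0, 0), []) := ⟨_, rfl⟩
  rw [← hcc] at h h' hc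
  rcases h with ⟨hz, h⟩ | ⟨hz, h⟩
  · rcases h' with ⟨_, h'⟩ | ⟨hz', _⟩
    · rcases h with h | h | h <;> rcases h' with h' | h' | h'
      · exact hc.1.2 _ h.1 _ h'.1 (by omega)
      · have := (hc.1.1 _ h.1).2; omega
      · have := (hc.1.1 _ h.1).2; omega
      · have := (hc.1.1 _ h'.1).2; omega
      · omega
      · omega
      · have := (hc.1.1 _ h'.1).2; omega
      · omega
      · omega
    · omega
  · rcases h' with ⟨hz', _⟩ | ⟨_, h'⟩
    · omega
    · rcases hc.2 with ⟨_, _, h3⟩ | ⟨h3, _⟩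
      · rcases h3 with h3 | h3
        · rcases h with h | h | h <;> rcases h' with h' | h' | h' <;> omega
        · by_contra hne
          have h4 : (N = c.1.1 ∧ N' = c.1.2) ∨ (N = c.1.2 ∧ N' = c.1.1) := by
            rcases h with h | h | h <;> rcases h' with h' | h' | h' <;> omega
          rcases h4 with ⟨e1, e2⟩ | ⟨e1, e2⟩
          · subst e1
            subst e2
            rcases h with h | h | h <;> rcases h' with h' | h' | h' <;> omega
          · subst e1
            subst e2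
            rcases h with h | h | h <;> rcases h' with h' | h' | h' <;> omega
      · rcases h with h | h | h <;> rcases h' with h' | h' | h' <;> omega

end

theorem inst_get {w l : ℕ} {ops : List Op} {i : ℕ} (hi : i < (inst w l ops).2.length) :
    (inst w l ops).2[i] =
      ((((word w l ops).zipIdx 1).filter (fun p => decide (p.1.1 = i))).map Prod.snd,
      (((word w l ops).zipIdx 1).filter (fun p => decide (p.1.2 = i))).map Prod.snd) :=
  netsOf_get (word w l ops) (total w l ops) hi

/-- **Completeness**, for operations. -/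
theorem layout_of_xrun {w l : ℕ} {ops : List Op} (hv : Valid w ops)
    (hx : XRun ops (fun k => k + 1)) : HasLayout (inst w l ops) w := by
  obtain ⟨trk, hcol⟩ := exists_trk_word (l := l) hv hx
  obtain ⟨X, hX⟩ : ∃ X, X = wordl w l ops := ⟨_, rfl⟩
  have hXW : X.map Prod.fst = word w l ops := by rw [hX, wordl_fst]
  have hlen : X.length = (word w l ops).length := by rw [← hXW, List.length_map]
  have hconv := wordl_conv (w := w) (l := l) ops
  have hord := word_pairwise (l := l) hv
  rw [← hX] at hcol hconv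
  rw [← hXW] at hord
  have hn : (inst w l ops).2.length = total w l ops := netsOf_length _ _
  have hcolx : ∀ x, 1 ≤ x → ∀ hx : x - 1 < (word w l ops).length,
      (X.getD (x - 1) ((0, 0), [])).1 = (word w l ops)[x - 1] := by
    intro x h1 h2
    rw [List.getD_eq_getElem _ _ (by omega)]
    simp only [← hXW, List.getElem_map]
  have hTop : ∀ N x, 1 ≤ x → ∀ hx : x - 1 < (word w l ops).length,
      ((word w l ops)[x - 1]).1 = N → (x, w + 1, 0) ∈ pts w trk X N ∧
        (x, w + 1, 1) ∈ pts w trk X N := by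
    intro N x h1 h2 h3
    have h4 := hcolx x h1 h2
    have h5 : N = (X.getD (x - 1) ((0, 0), [])).1.1 := by rw [h4, h3]
    have hc := hcol _ (getD_mem (X := X) (x := x - 1) (by omega))
    have hb : 1 ≤ x ∧ x ≤ X.length := by omega
    refine ⟨⟨hb, le_rfl, Or.inr ⟨rfl, ?_⟩⟩, ⟨hb, le_rfl, Or.inl ⟨rfl, Or.inr (Or.inr ⟨rfl, h5⟩)⟩⟩⟩
    rcases alive_or hc (Or.inl h5) with h6 | h6
    · exact Or.inr (Or.inl ⟨h5, by simp only; omega⟩)
    · exact Or.inl ⟨h6.1, h6.2.1⟩
  have hBot : ∀ N x, 1 ≤ x → ∀ hx : x - 1 < (word w l ops).length,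
      ((word w l ops)[x - 1]).2 = N → (x, 0, 0) ∈ pts w trk X N ∧
        (x, 0, 1) ∈ pts w trk X N := by
    intro N x h1 h2 h3
    have h4 := hcolx x h1 h2
    have h5 : N = (X.getD (x - 1) ((0, 0), [])).1.2 := by rw [h4, h3]
    have hb : 1 ≤ x ∧ x ≤ X.length := by omega
    exact ⟨⟨hb, Nat.zero_le _, Or.inr ⟨rfl, Or.inr (Or.inr ⟨h5, Nat.zero_le _⟩)⟩⟩,
      ⟨hb, Nat.zero_le _, Or.inl ⟨rfl, Or.inr (Or.inl ⟨rfl, h5⟩)⟩⟩⟩
  refine ⟨fun i => (⊤ : grid.Subgraph).induce (pts w trk X i), ?_, ?_, ?_, ?_, ?_⟩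
  · intro i p hp
    obtain ⟨h1, h2, h3⟩ := hp
    refine ⟨h1.1, ?_, h2, ?_⟩
    · have : (inst w l ops).1 = (word w l ops).length := rfl
      omega
    · rcases h3 with h3 | h3 <;> omega
  · intro i
    refine sub_connected (pts_conn hcol hconv hord i) ?_
    have hi : (i : ℕ) < total w l ops := by rw [← hn]; exact i.2
    obtain ⟨x, hx1, hx2⟩ := List.getElem_of_mem (word_surj (w := w) (l := l) (ops := ops) hi)
    have h3 : ((word w l ops)[x + 1 - 1]'(by omega)).2 = i := by
      simp only [Nat.add_sub_cancel, hx2]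
    exact ⟨_, (hBot i (x + 1) (by omega) (by omega) h3).1⟩
  · intro i j hij
    rw [Set.disjoint_left]
    intro p hp hp'
    exact hij (Fin.ext (pts_disj hcol hp hp'))
  · intro i t ht
    rw [Fin.getElem_fin, inst_get, mem_upper] at ht
    obtain ⟨h2, h3⟩ := ht
    obtain ⟨h4, h5⟩ := hTop i t h2.1 h2.2 h3
    rw [Subgraph.induce_adj]
    refine ⟨h4, h5, ?_⟩
    rw [Subgraph.top_adj, adj_iff]
    exact Or.inr (Or.inr ⟨rfl, rfl, Or.inl rfl⟩)
  · intro i t ht
    rw [Fin.getElem_fin, inst_get, mem_lower] at ht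
    obtain ⟨h2, h3⟩ := ht
    obtain ⟨h4, h5⟩ := hBot i t h2.1 h2.2 h3
    rw [Subgraph.induce_adj]
    refine ⟨h4, h5, ?_⟩
    rw [Subgraph.top_adj, adj_iff]
    exact Or.inr (Or.inr ⟨rfl, rfl, Or.inl rfl⟩)

theorem legal_inst {w l : ℕ} {ops : List Op} (hw : 1 ≤ w) : Legal (inst w l ops) := by
  have hn : (inst w l ops).2.length = total w l ops := netsOf_length _ _
  refine ⟨?_, ?_, ?_, ?_⟩
  · show 1 ≤ (word w l ops).length
    unfold word
    rw [List.length_append, List.length_map, List.length_range]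
    omega
  · intro N hN
    obtain ⟨i, hi, rfl⟩ := List.getElem_of_mem hN
    have hi' : i < total w l ops := by rw [← hn]; exact hi
    rw [inst_get]
    obtain ⟨x, hx1, hx2⟩ := List.getElem_of_mem (word_surj (w := w) (l := l) (ops := ops) hi')
    have h3 : ((word w l ops)[x + 1 - 1]'(by omega)) = (i, i) := by
      simp only [Nat.add_sub_cancel, hx2]
    refine ⟨?_, ?_, ?_, ?_⟩
    · exact List.ne_nil_of_mem (a := x + 1) (mem_upper.2 ⟨⟨by omega, by omega⟩, by rw [h3]⟩)
    · exact List.ne_nil_of_mem (a := x + 1) (mem_lower.2 ⟨⟨by omega, by omega⟩, by rw [h3]⟩)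
    · intro y hy
      obtain ⟨h4, -⟩ := mem_upper.1 hy
      have : (inst w l ops).1 = (word w l ops).length := rfl
      omega
    · intro y hy
      obtain ⟨h4, -⟩ := mem_lower.1 hy
      have : (inst w l ops).1 = (word w l ops).length := rfl
      omega
  · have h1 : (inst w l ops).2.flatMap Prod.fst = (List.range (total w l ops)).flatMap (fun i =>
        (((word w l ops).zipIdx 1).filter (fun p => decide (p.1.1 = i))).map Prod.snd) := by
      show (netsOf _ _).flatMap _ = _
      unfold netsOf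
      rw [List.flatMap_map]
    rw [h1, List.nodup_flatMap]
    refine ⟨?_, ?_⟩
    · intro i _
      have h2 : (((word w l ops).zipIdx 1).map Prod.snd).Nodup := by
        rw [List.zipIdx_map_snd]
        exact List.nodup_range'
      exact h2.sublist (List.Sublist.map _ List.filter_sublist)
    · refine List.Pairwise.imp ?_ (List.pairwise_lt_range (n := total w l ops))
      intro i j hij x hx hx'
      obtain ⟨_, h3⟩ := mem_upper.1 hx
      obtain ⟨_, h4⟩ := mem_upper.1 hx'
      omega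
  · have h1 : (inst w l ops).2.flatMap Prod.snd = (List.range (total w l ops)).flatMap (fun i =>
        (((word w l ops).zipIdx 1).filter (fun p => decide (p.1.2 = i))).map Prod.snd) := by
      show (netsOf _ _).flatMap _ = _
      unfold netsOf
      rw [List.flatMap_map]
    rw [h1, List.nodup_flatMap]
    refine ⟨?_, ?_⟩
    · intro i _
      have h2 : (((word w l ops).zipIdx 1).map Prod.snd).Nodup := by
        rw [List.zipIdx_map_snd]
        exact List.nodup_range'
      exact h2.sublist (List.Sublist.map _ List.filter_sublist)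
    · refine List.Pairwise.imp ?_ (List.pairwise_lt_range (n := total w l ops))
      intro i j hij x hx hx'
      obtain ⟨_, h3⟩ := mem_lower.1 hx
      obtain ⟨_, h4⟩ := mem_lower.1 hx'
      omega

theorem dense_inst {w l : ℕ} {ops : List Op} (hv : Valid w ops) : Dense (inst w l ops) := by
  intro x h1 h2
  have hn : (inst w l ops).2.length = total w l ops := netsOf_length _ _
  have hlen : (inst w l ops).1 = (word w l ops).length := rfl
  have hb := word_bounds (l := l) hv (List.getElem_mem (l := word w l ops) (n := x - 1) (by omega))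
  have e : x - 1 + 1 = x := by omega
  refine ⟨⟨(inst w l ops).2[((word w l ops)[x - 1]'(by omega)).1]'(by rw [hn]; exact hb.1),
    List.getElem_mem _, ?_⟩, ⟨(inst w l ops).2[((word w l ops)[x - 1]'(by omega)).2]'(by
      rw [hn]; exact hb.2.1), List.getElem_mem _, ?_⟩⟩
  · have := upper_mem (w := w) (l := l) (ops := ops) (x := x - 1) (by omega) _ rfl
      (by rw [hn]; exact hb.1)
    rw [e] at this
    exact this
  · have := lower_mem (w := w) (l := l) (ops := ops) (x := x - 1) (by omega) _ rfl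
      (by rw [hn]; exact hb.2.1)
    rw [e] at this
    exact this

end Pool.Agent.W947.CR
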