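import Pool.Agent.W947.CR.Walk

/-!
# Perfect columns
-/

namespace Pool.Agent.W947.CR

open SimpleGraph
open scoped Classical

/-- Pairwise disjoint connected sets of points in the channel. -/
structure Lay {ι : Type} (S : ι → Set Pt) (w : ℕ) : Prop where
  conn : ∀ i, Conn (S i)
  disj : ∀ i j, ∀ p, p ∈ S i → p ∈ S j → i = j
  y_le : ∀ i, ∀ p ∈ S i, p.2.1 ≤ w + 1
  z_le : ∀ i, ∀ p ∈ S i, p.2.2 ≤ 1

/-- The upper terminal in column `x` belongs to `i`. -/
def Top {ι : Type} (S : ι → Set Pt) (w : ℕ) (i : ι) (x : ℕ) : Prop :=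
  (x, w + 1, 0) ∈ S i ∧ (x, w + 1, 1) ∈ S i

/-- The lower terminal in column `x` belongs to `i`. -/
def Bot {ι : Type} (S : ι → Set Pt) (i : ι) (x : ℕ) : Prop :=
  (x, 0, 0) ∈ S i ∧ (x, 0, 1) ∈ S i

/-- A block of columns and tracks. -/
def blk (c d a b : ℕ) : Finset Pt := Finset.Ioo c d ×ˢ (Finset.Icc a b ×ˢ Finset.range 2)

theorem mem_blk {c d a b : ℕ} {p : Pt} :
    p ∈ blk c d a b ↔ (c < p.1 ∧ p.1 < d) ∧ (a ≤ p.2.1 ∧ p.2.1 ≤ b) ∧ p.2.2 < 2 := by
  unfold blk
  simp only [Finset.mem_product, Finset.mem_Ioo, Finset.mem_Icc, Finset.mem_range]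

theorem card_blk (c d a b : ℕ) : (blk c d a b).card = (d - c - 1) * ((b + 1 - a) * 2) := by
  unfold blk
  rw [Finset.card_product, Finset.card_product, Nat.card_Ioo, Nat.card_Icc, Finset.card_range]

/-- The part of a set in a block. -/
noncomputable def part (A : Set Pt) (B : Finset Pt) : Finset Pt := B.filter (fun p => p ∈ A)

theorem mem_part {A : Set Pt} {B : Finset Pt} {p : Pt} : p ∈ part A B ↔ p ∈ B ∧ p ∈ A := by
  unfold part; rw [Finset.mem_filter]

variable {ι : Type} {S : ι → Set Pt} {w : ℕ}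

theorem Lay.sum_part (hS : Lay S w) (I : Finset ι) (B : Finset Pt) :
    ∑ i ∈ I, (part (S i) B).card ≤ B.card := by
  rw [← Finset.card_biUnion]
  · refine Finset.card_le_card ?_
    intro p hp
    rw [Finset.mem_biUnion] at hp
    obtain ⟨i, _, hp⟩ := hp
    exact (mem_part.1 hp).1
  · intro i _ j _ hij
    show Disjoint (part (S i) B) (part (S j) B)
    rw [Finset.disjoint_left]
    intro p hp hq
    exact hij (hS.disj i j p (mem_part.1 hp).2 (mem_part.1 hq).2)

theorem tracks_le {F : Finset Pt} {a b : ℕ} (h : ∀ t, a ≤ t → t ≤ b → ∃ p ∈ F, p.2.1 = t) :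
    b + 1 - a ≤ F.card := by
  have h1 : Finset.Icc a b ⊆ F.image (fun p => p.2.1) := by
    intro t ht
    rw [Finset.mem_Icc] at ht
    obtain ⟨p, hp, h2⟩ := h t ht.1 ht.2
    exact Finset.mem_image.2 ⟨p, hp, h2⟩
  calc b + 1 - a = (Finset.Icc a b).card := (Nat.card_Icc a b).symm
    _ ≤ (F.image (fun p => p.2.1)).card := Finset.card_le_card h1
    _ ≤ F.card := Finset.card_image_le

theorem cols_le {F : Finset Pt} {a b : ℕ} (h : ∀ t, a ≤ t → t ≤ b → ∃ p ∈ F, p.1 = t) :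
    b + 1 - a ≤ F.card := by
  have h1 : Finset.Icc a b ⊆ F.image (fun p => p.1) := by
    intro t ht
    rw [Finset.mem_Icc] at ht
    obtain ⟨p, hp, h2⟩ := h t ht.1 ht.2
    exact Finset.mem_image.2 ⟨p, hp, h2⟩
  calc b + 1 - a = (Finset.Icc a b).card := (Nat.card_Icc a b).symm
    _ ≤ (F.image (fun p => p.1)).card := Finset.card_le_card h1
    _ ≤ F.card := Finset.card_image_le

theorem Conn.cross {A : Set Pt} (hA : Conn A) {p q : Pt} (hp : p ∈ A) (hq : q ∈ A) {t : ℕ}
    (h1 : p.2.1 ≤ t) (h2 : t < q.2.1) :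
    ∃ r ∈ A, ∃ s ∈ A, r.1 = s.1 ∧ r.2.2 = s.2.2 ∧ r.2.1 = t ∧ s.2.1 = t + 1 := by
  obtain ⟨W⟩ := hA p hp q hq
  obtain ⟨d, -, hd1, hd2⟩ := W.exists_boundary_dart {v | v.2.1 ≤ t} h1 (by
    simp only [Set.mem_ofPred_eq]; omega)
  simp only [Set.mem_ofPred_eq] at hd1 hd2
  have h3 := d.adj.2.2
  have h4 := adj_y h3
  rw [adj_iff] at h3
  refine ⟨d.fst, d.adj.1, d.snd, d.adj.2.1, ?_⟩
  rcases h3 with h3 | h3 | h3
  · have := congrArg Prod.fst h3.1
    omega
  · omega
  · omega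

theorem Lay.interior (hS : Lay S w) {i j : ι} (hij : i ≠ j) {c : ℕ} (ht : Top S w j c)
    (hb : Bot S j c) {r : Pt} (hr : r ∈ S i) (hc : r.1 = c) : 1 ≤ r.2.1 ∧ r.2.1 ≤ w := by
  have h1 := hS.y_le i r hr
  have h2 := hS.z_le i r hr
  obtain ⟨x, y, z⟩ := r
  simp only at *
  subst hc
  constructor
  · by_contra h
    have hy : y = 0 := by omega
    subst hy
    have hz : z = 0 ∨ z = 1 := by omega
    rcases hz with rfl | rfl
    · exact hij (hS.disj _ _ _ hr hb.1)
    · exact hij (hS.disj _ _ _ hr hb.2)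
  · by_contra h
    have hy : y = w + 1 := by omega
    subst hy
    have hz : z = 0 ∨ z = 1 := by omega
    rcases hz with rfl | rfl
    · exact hij (hS.disj _ _ _ hr ht.1)
    · exact hij (hS.disj _ _ _ hr ht.2)

/-- In column `c` each set of the family `A` has exactly one point, on its own track, all in the
same layer; other sets except `v` have no points there. -/
structure Perfect (S : ι → Set Pt) (w c : ℕ) (A : Finset ι) (v : ι) (π : ι → ℕ) (z : ℕ) :
    Prop where
  card : A.card = w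
  pos : ∀ i ∈ A, 1 ≤ π i ∧ π i ≤ w
  inj : ∀ i ∈ A, ∀ j ∈ A, π i = π j → i = j
  mem : ∀ i ∈ A, (c, π i, z) ∈ S i
  uniq : ∀ i ∈ A, ∀ p ∈ S i, p.1 = c → p = (c, π i, z)
  other : ∀ i ∉ A, i ≠ v → ∀ p ∈ S i, p.1 ≠ c
  notMem : v ∉ A
  z_le : z ≤ 1

theorem Perfect.surj {c : ℕ} {A : Finset ι} {v : ι} {π : ι → ℕ} {z : ℕ}
    (h : Perfect S w c A v π z) {t : ℕ} (h1 : 1 ≤ t) (h2 : t ≤ w) : ∃ i ∈ A, π i = t := by
  have h3 : A.image π = Finset.Icc 1 w := by
    refine Finset.eq_of_subset_of_card_le ?_ ?_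
    · intro t ht
      obtain ⟨i, hi, rfl⟩ := Finset.mem_image.1 ht
      exact Finset.mem_Icc.2 (h.pos i hi)
    · rw [Finset.card_image_of_injOn (fun i hi j hj hij => h.inj i hi j hj hij), h.card,
        Nat.card_Icc]
      omega
  have h4 : t ∈ A.image π := by rw [h3]; exact Finset.mem_Icc.2 ⟨h1, h2⟩
  obtain ⟨i, hi, h5⟩ := Finset.mem_image.1 h4
  exact ⟨i, hi, h5⟩

/-- **Closed zones contain perfect columns.** -/
theorem zone (hS : Lay S w) {p l : ℕ} (hl : 2 * (w + 1) ^ 2 < l) (v : ℕ → ι)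
    (hT : ∀ c, p < c → c ≤ p + l → Top S w (v c) c)
    (hB : ∀ c, p < c → c ≤ p + l → Bot S (v c) c)
    (hv : ∀ c, p < c → c ≤ p + l → ∀ d, p < d → d ≤ p + l → v c = v d → c = d)
    (A : Finset ι) (hA : w ≤ A.card) (hvA : ∀ c, p < c → c ≤ p + l → v c ∉ A)
    (hL : ∀ i ∈ A, ∃ q ∈ S i, q.1 ≤ p) (hR : ∀ i ∈ A, ∃ q ∈ S i, p + l < q.1) :
    ∃ c, p < c ∧ c ≤ p + l ∧ ∃ π z, Perfect S w c A (v c) π z := by
  obtain ⟨Z, hZ⟩ : ∃ Z, Z = blk p (p + l + 1) 1 w := ⟨_, rfl⟩
  have hZcard : Z.card = l * (w * 2) := by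
    rw [hZ, card_blk]
    congr 1
    · omega
  have hAcard : ∀ i ∈ A, l ≤ (part (S i) Z).card := by
    intro i hi
    have h1 := cols_le (F := part (S i) Z) (a := p + 1) (b := p + l) (by
      intro c h1 h2
      obtain ⟨q, hq, hq1⟩ := hL i hi
      obtain ⟨q', hq', hq1'⟩ := hR i hi
      obtain ⟨r, hr, hrc⟩ := (hS.conn i).col hq hq' c (by omega) (by omega)
      have hne : i ≠ v c := fun h => hvA c (by omega) h2 (h ▸ hi)
      have h3 := hS.interior hne (hT c (by omega) h2) (hB c (by omega) h2) hr hrc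
      have h4 := hS.z_le i r hr
      exact ⟨r, mem_part.2 ⟨by rw [hZ, mem_blk]; omega, hr⟩, hrc⟩)
    omega
  -- the vertical nets in the middle
  have hmid : ∀ c, p + w + 1 < c → c + w + 1 ≤ p + l → (part (S (v c)) Z).card ≤ w →
      (∀ q ∈ S (v c), p < q.1 ∧ q.1 ≤ p + l) := by
    intro c h1 h2 h3 q hq
    have hTc := hT c (by omega) (by omega)
    have key : ∀ d, p < d → d ≤ p + l → d ≠ c → ∀ r ∈ S (v c), r.1 = d →
        r ∈ part (S (v c)) Z := by
      intro d hd1 hd2 hdc r hr hrd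
      have hne : v c ≠ v d := fun h => hdc (hv d hd1 hd2 c (by omega) (by omega) h.symm)
      have h3 := hS.interior hne (hT d hd1 hd2) (hB d hd1 hd2) hr hrd
      have h4 := hS.z_le _ r hr
      exact mem_part.2 ⟨by rw [hZ, mem_blk]; omega, hr⟩
    constructor
    · by_contra hcon
      have h5 := cols_le (F := part (S (v c)) Z) (a := p + 1) (b := c - 1) (by
        intro d hd1 hd2
        obtain ⟨r, hr, hrd⟩ := (hS.conn (v c)).col hq hTc.1 d (by omega) (by simp only; omega)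
        exact ⟨r, key d (by omega) (by omega) (by omega) r hr hrd, hrd⟩)
      omega
    · by_contra hcon
      have h5 := cols_le (F := part (S (v c)) Z) (a := c + 1) (b := p + l) (by
        intro d hd1 hd2
        obtain ⟨r, hr, hrd⟩ := (hS.conn (v c)).col hTc.1 hq d (by simp only; omega) (by omega)
        exact ⟨r, key d (by omega) (by omega) (by omega) r hr hrd, hrd⟩)
      omega
  -- one of them has at most `w` points
  obtain ⟨c, hc1, hc2, hc3⟩ : ∃ c, p + w + 1 < c ∧ c + w + 1 ≤ p + l ∧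
      (part (S (v c)) Z).card ≤ w := by
    by_contra hcon
    push Not at hcon
    have hmm : ∀ c ∈ Finset.Icc (p + w + 2) (p + l - w - 1), p < c ∧ c ≤ p + l := by
      intro c hc
      rw [Finset.mem_Icc] at hc
      omega
    have h1 := hS.sum_part (A ∪ (Finset.Icc (p + w + 2) (p + l - w - 1)).image v) Z
    rw [Finset.sum_union, Finset.sum_image] at h1
    · have h2 : A.card * l ≤ ∑ i ∈ A, (part (S i) Z).card := by
        rw [← smul_eq_mul]
        exact Finset.card_nsmul_le_sum _ _ _ hAcard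
      have h3 : (Finset.Icc (p + w + 2) (p + l - w - 1)).card * (w + 1) ≤
          ∑ c ∈ Finset.Icc (p + w + 2) (p + l - w - 1), (part (S (v c)) Z).card := by
        rw [← smul_eq_mul]
        refine Finset.card_nsmul_le_sum _ _ _ ?_
        intro c hc
        rw [Finset.mem_Icc] at hc
        exact hcon c (by omega) (by omega)
      rw [Nat.card_Icc] at h3
      have h4 : w * l ≤ A.card * l := Nat.mul_le_mul_right _ hA
      have h5 : p + l - w - 1 + 1 - (p + w + 2) = l - 2 * (w + 1) := by omega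
      rw [h5] at h3
      have h6 : 2 * (w + 1) ≤ l := by nlinarith
      obtain ⟨k, hk⟩ := Nat.exists_eq_add_of_le h6
      rw [hk, Nat.add_sub_cancel_left] at h3
      rw [hk] at h2 h4 hl
      rw [hZcard, hk] at h1
      nlinarith
    · intro c hc d hd hcd
      have h1 := hmm c hc
      have h2 := hmm d hd
      exact hv c h1.1 h1.2 d h2.1 h2.2 hcd
    · rw [Finset.disjoint_left]
      intro i hi hi2
      obtain ⟨c, hc, rfl⟩ := Finset.mem_image.1 hi2
      have h1 := hmm c hc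
      exact hvA c h1.1 h1.2 hi
  have hin := hmid c hc1 hc2 hc3
  have hpc : p < c := by omega
  have hcl : c ≤ p + l := by omega
  have hTc := hT c hpc hcl
  have hBc := hB c hpc hcl
  have hcol : ∀ q ∈ S (v c), q.2.1 = 0 → q.1 = c := by
    intro q hq h0
    by_contra hne
    have h1 := hin q hq
    have hne' : v c ≠ v q.1 := fun h => hne (hv q.1 h1.1 h1.2 c hpc hcl h.symm)
    have := hS.interior hne' (hT q.1 h1.1 h1.2) (hB q.1 h1.1 h1.2) hq rfl
    omega
  have htr : ∀ t, 1 ≤ t → t ≤ w → ∃ q ∈ part (S (v c)) Z, q.2.1 = t := by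
    intro t h1 h2
    obtain ⟨r, hr, hrt⟩ := (hS.conn (v c)).track hBc.1 hTc.1 t (by simp) (by simp only; omega)
    have h3 := hin r hr
    have h4 := hS.z_le _ r hr
    exact ⟨r, mem_part.2 ⟨by rw [hZ, mem_blk]; omega, hr⟩, hrt⟩
  have hinj : ∀ q ∈ part (S (v c)) Z, ∀ q' ∈ part (S (v c)) Z, q.2.1 = q'.2.1 → q = q' := by
    have h1 : (part (S (v c)) Z).image (fun q => q.2.1) = Finset.Icc 1 w := by
      refine (Finset.eq_of_subset_of_card_le ?_ ?_).symm
      · intro t ht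
        rw [Finset.mem_Icc] at ht
        obtain ⟨q, hq, hqt⟩ := htr t ht.1 ht.2
        exact Finset.mem_image.2 ⟨q, hq, hqt⟩
      · rw [Nat.card_Icc]
        exact Finset.card_image_le.trans (by omega)
    have h2 : ((part (S (v c)) Z).image (fun q => q.2.1)).card = (part (S (v c)) Z).card := by
      refine le_antisymm Finset.card_image_le ?_
      rw [h1, Nat.card_Icc]
      omega
    have h3 := Finset.card_image_iff.1 h2
    intro q hq q' hq' h
    exact h3 hq hq' h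
  obtain ⟨z, hz, hstr⟩ : ∃ z, z ≤ 1 ∧ ∀ t, 1 ≤ t → t ≤ w → (c, t, z) ∈ S (v c) := by
    obtain ⟨r, hr, s, hs, h1, h2, h3, h4⟩ := (hS.conn (v c)).cross hBc.1 hTc.1 (t := 0)
      (by simp) (by simp)
    have h5 := hcol r hr h3
    refine ⟨s.2.2, hS.z_le _ s hs, ?_⟩
    intro t ht1 htw
    induction t, ht1 using Nat.le_induction with
    | base =>
      have : s = (c, 1, s.2.2) := Prod.ext (h1.symm.trans h5) (Prod.ext (by rw [h4]) rfl)
      rw [← this]; exact hs
    | succ t ht1 ih =>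
      have ih' := ih (by omega)
      obtain ⟨r', hr', s', hs', h1', h2', h3', h4'⟩ := (hS.conn (v c)).cross hBc.1 hTc.1
        (t := t) (by simp) (by simp only; omega)
      have e1 : r' ∈ part (S (v c)) Z := by
        have h3 := hin r' hr'
        have h4 := hS.z_le _ r' hr'
        exact mem_part.2 ⟨by rw [hZ, mem_blk]; omega, hr'⟩
      have e2 : ((c, t, s.2.2) : Pt) ∈ part (S (v c)) Z := by
        have h4 := hS.z_le _ s hs
        exact mem_part.2 ⟨by rw [hZ, mem_blk]; simp only; omega, ih'⟩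
      have e3 := hinj r' e1 _ e2 h3'
      have : s' = (c, t + 1, s.2.2) := by
        refine Prod.ext ?_ (Prod.ext ?_ ?_)
        · rw [← h1', e3]
        · exact h4'
        · rw [← h2', e3]
      rw [← this]; exact hs'
  -- points of other nets in this column
  have hoth : ∀ i, i ≠ v c → ∀ q ∈ S i, q.1 = c → 1 ≤ q.2.1 ∧ q.2.1 ≤ w ∧ q.2.2 = 1 - z := by
    intro i hi q hq hqc
    have h1 := hS.interior hi hTc hBc hq hqc
    refine ⟨h1.1, h1.2, ?_⟩
    by_contra h2
    have h3 := hS.z_le i q hq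
    have h4 : q.2.2 = z := by omega
    have h5 := hstr q.2.1 h1.1 h1.2
    have h6 : q = (c, q.2.1, z) := Prod.ext hqc (Prod.ext rfl h4)
    rw [← h6] at h5
    exact hi (hS.disj _ _ _ hq h5)
  have hex : ∀ i ∈ A, ∃ t, (c, t, 1 - z) ∈ S i ∧ 1 ≤ t ∧ t ≤ w := by
    intro i hi
    obtain ⟨q, hq, hq1⟩ := hL i hi
    obtain ⟨q', hq', hq1'⟩ := hR i hi
    obtain ⟨r, hr, hrc⟩ := (hS.conn i).col hq hq' c (by omega) (by omega)
    have hne : i ≠ v c := fun h => hvA c hpc hcl (h ▸ hi)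
    obtain ⟨h1, h2, h3⟩ := hoth i hne r hr hrc
    have h6 : r = (c, r.2.1, 1 - z) := Prod.ext hrc (Prod.ext rfl h3)
    exact ⟨r.2.1, h6 ▸ hr, h1, h2⟩
  choose! π hπ using hex
  have hπinj : ∀ i ∈ A, ∀ j ∈ A, π i = π j → i = j := by
    intro i hi j hj hij
    have h1 := (hπ i hi).1
    rw [hij] at h1
    exact hS.disj _ _ _ h1 (hπ j hj).1
  have himg : A.image π ⊆ Finset.Icc 1 w := by
    intro t ht
    obtain ⟨i, hi, rfl⟩ := Finset.mem_image.1 ht
    exact Finset.mem_Icc.2 (hπ i hi).2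
  have hcardA : A.card = w := by
    refine le_antisymm ?_ hA
    have h1 := Finset.card_le_card himg
    rw [Finset.card_image_of_injOn (fun i hi j hj hij => hπinj i hi j hj hij), Nat.card_Icc] at h1
    omega
  have himg' : A.image π = Finset.Icc 1 w := by
    refine Finset.eq_of_subset_of_card_le himg ?_
    rw [Finset.card_image_of_injOn (fun i hi j hj hij => hπinj i hi j hj hij), hcardA,
      Nat.card_Icc]
    omega
  have hall : ∀ j, j ≠ v c → ∀ q ∈ S j, q.1 = c → j ∈ A ∧ q = (c, π j, 1 - z) := by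
    intro j hj q hq hqc
    obtain ⟨h1, h2, h3⟩ := hoth j hj q hq hqc
    have h4 : q.2.1 ∈ A.image π := by rw [himg']; exact Finset.mem_Icc.2 ⟨h1, h2⟩
    obtain ⟨i, hi, h5⟩ := Finset.mem_image.1 h4
    have h6 : q = (c, π i, 1 - z) := Prod.ext hqc (Prod.ext h5.symm h3)
    have h7 : j = i := hS.disj _ _ _ hq (h6 ▸ (hπ i hi).1)
    subst h7
    exact ⟨hi, h6⟩
  refine ⟨c, hpc, hcl, π, 1 - z, hcardA, fun i hi => (hπ i hi).2, hπinj,
    fun i hi => (hπ i hi).1, ?_, ?_, hvA c hpc hcl, by omega⟩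
  · intro i hi q hq hqc
    exact (hall i (fun h => hvA c hpc hcl (h ▸ hi)) q hq hqc).2
  · intro i hi hiv q hq hqc
    exact hi (hall i hiv q hq hqc).1

end Pool.Agent.W947.CR
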