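import Pool.Agent.W947.CR.SwapSat

/-!
# The reduction is computable in polynomial time
-/

namespace Pool.Agent.W947.CR

open Pool.Agent.NPC Pool.Agent.NPC.Poly

section

variable {α : Type} [TEnc α]

theorem poly_upd {cur : α → List ℕ} {a b x y : α → ℕ} (hc : Poly cur) (ha : Poly a) (hb : Poly b)
    (hx : Poly x) (hy : Poly y) : Poly (fun t => upd (cur t) (a t) (b t) (x t) (y t)) := by
  refine NPC.Poly.map (F := fun t (p : ℕ × ℕ) => if p.2 = a t then x t else if p.2 = b t then y t
    else p.1) (zipIdx hc) ?_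
  have h1 : Poly (fun p : α × ℕ × ℕ => p.2.2) := snd (snd id)
  have h2 : Poly (fun p : α × ℕ × ℕ => p.1) := fst id
  exact ite (decide_eq h1 (ha.comp h2)) (hx.comp h2)
    (ite (decide_eq h1 (hb.comp h2)) (hy.comp h2) (fst (snd id)))

theorem poly_nxt {w q : α → ℕ} {cur : α → List ℕ} {op : α → Op} (hw : Poly w) (hc : Poly cur)
    (hq : Poly q) (ho : Poly op) : Poly (fun t => nxt (w t) (cur t) (q t) (op t)) := by
  unfold nxt
  have h1 : Poly (fun t => w t + 2 * q t) := add hw (mul (const 2) hq)
  exact ite (decide_bool (fst ho)) hc (poly_upd hc (fst (snd ho)) (snd (snd ho)) h1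
    (add h1 (const 1)))

theorem poly_nq {q : α → ℕ} {op : α → Op} (hq : Poly q) (ho : Poly op) :
    Poly (fun t => nq (q t) (op t)) := by
  unfold nq
  exact ite (decide_bool (fst ho)) hq (add hq (const 1))

theorem poly_hd {w q : α → ℕ} {cur : α → List ℕ} {op : α → Op} (hw : Poly w) (hc : Poly cur)
    (hq : Poly q) (ho : Poly op) : Poly (fun t => hd (w t) (cur t) (q t) (op t)) := by
  unfold hd
  have h1 : Poly (fun t => w t + 2 * q t) := add hw (mul (const 2) hq)
  have h2 : Poly (fun t => (cur t).getD (op t).2.1 0) := getD hc (fst (snd ho)) (const 0)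
  have h3 : Poly (fun t => (cur t).getD (op t).2.2 0) := getD hc (snd (snd ho)) (const 0)
  have h4 : Poly (fun t => w t + 2 * q t + 1) := add h1 (const 1)
  exact ite (decide_bool (fst ho)) (cons (pair h2 h3) (const []))
    (cons (pair h2 h2) (cons (pair h3 h3) (cons (pair h1 h1) (cons (pair h4 h4) (const [])))))

theorem poly_zn {M l j : α → ℕ} (hM : Poly M) (hl : UPoly l) (hj : Poly j) :
    Poly (fun t => zn (M t) (l t) (j t)) := by
  unfold zn
  refine NPC.Poly.map (F := fun t (i : ℕ) => (M t + j t * l t + i, M t + j t * l t + i)) hl.range ?_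
  have h2 : Poly (fun p : α × ℕ => p.1) := fst id
  have h3 : Poly (fun p : α × ℕ => M p.1 + j p.1 * l p.1 + p.2) :=
    add (add (hM.comp h2) (mul (hj.comp h2) (hl.toPoly.comp h2))) (snd id)
  exact pair h3 h3

/-- The state of the fold. -/
abbrev St : Type := List ℕ × ℕ × ℕ × List (ℕ × ℕ)

/-- The step of the fold. -/
def stp (w M l : ℕ) (s : St) (op : Op) : St :=
  (nxt w s.1 s.2.2.1 op, s.2.1 + 1, nq s.2.2.1 op,
    s.2.2.2 ++ (hd w s.1 s.2.2.1 op ++ zn M l s.2.1))

theorem stp_wd (w M l : ℕ) : ∀ (ops : List Op) (s : St),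
    (ops.foldl (stp w M l) s).2.2.2 ++ (ops.foldl (stp w M l) s).1.map (fun N => (N, N)) =
      s.2.2.2 ++ wd w M l ops s.1 s.2.1 s.2.2.1 := by
  intro ops
  induction ops with
  | nil => intro s; rfl
  | cons op ops ih =>
    intro s
    rw [List.foldl_cons, ih, wd]
    unfold stp
    simp only [List.append_assoc]

/-- The bounds for the states. -/
structure Bd (w B C : ℕ) (s : St) : Prop where
  len : s.1.length = w
  cur : ∀ N ∈ s.1, N ≤ B
  j : s.2.1 ≤ B
  q : s.2.2.1 ≤ B
  acc : s.2.2.2.length ≤ C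
  mem : ∀ p ∈ s.2.2.2, p.1 ≤ B ∧ p.2 ≤ B

theorem Bd.sz {w B C : ℕ} {s : St} (h : Bd w B C s) :
    sz s ≤ w * (4 * B + 2) + C * (8 * B + 4) + 8 * B + 20 := by
  obtain ⟨cur, j, q, acc⟩ := s
  obtain ⟨h1, h2, h3, h4, h5, h6⟩ := h
  simp only at h1 h2 h3 h4 h5 h6
  have hn : ∀ N : ℕ, NPC.sz N ≤ 4 * N + 1 := by
    intro N
    have := sz_nat_le N
    have := size_le_self N
    omega
  have e1 := sz_le_length_mul cur (4 * B + 1) (by
    intro N hN
    have := hn N
    have := h2 N hN
    omega)
  have e2 := sz_le_length_mul acc (8 * B + 3) (by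
    intro p hp
    have := hn p.1
    have := hn p.2
    have := h6 p hp
    obtain ⟨p1, p2⟩ := p
    simp only [sz_pair] at *
    omega)
  have e3 := hn j
  have e4 := hn q
  simp only [sz_pair]
  rw [h1] at e1
  have e5 : acc.length * (8 * B + 3 + 1) ≤ C * (8 * B + 4) := Nat.mul_le_mul_right _ h5
  have e6 : w * (4 * B + 1 + 1) = w * (4 * B + 2) := rfl
  omega

theorem getD_le {l : List ℕ} {B : ℕ} (h : ∀ N ∈ l, N ≤ B) (k : ℕ) : l.getD k 0 ≤ B := by
  by_cases hk : k < l.length
  · rw [List.getD_eq_getElem _ _ hk]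
    exact h _ (List.getElem_mem _)
  · rw [List.getD_eq_default _ _ (by omega)]
    exact Nat.zero_le _

theorem bd_take {w M l : ℕ} (ops : List Op) : ∀ (k : ℕ), k ≤ ops.length →
    ((ops.take k).foldl (stp w M l) (List.range w, 1, 0, [])).2.1 = k + 1 ∧
    ((ops.take k).foldl (stp w M l) (List.range w, 1, 0, [])).2.2.1 ≤ k ∧
    Bd w (w + 2 * ops.length + M + (ops.length + 2) * l + ops.length + 1) (k * (4 + l))
      ((ops.take k).foldl (stp w M l) (List.range w, 1, 0, [])) := by
  intro k
  induction k with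
  | zero =>
    intro _
    refine ⟨rfl, le_rfl, ?_⟩
    refine ⟨by simp, ?_, ?_, ?_, ?_, ?_⟩
    · intro N hN
      simp at hN
      omega
    · simp
    · simp
    · simp
    · simp
  | succ k ih =>
    intro hk
    obtain ⟨h1, h2, h3⟩ := ih (by omega)
    have ht : ops.take (k + 1) = ops.take k ++ [ops[k]] := (List.take_append_getElem (by omega)).symm
    rw [ht, List.foldl_append]
    obtain ⟨s, hs⟩ : ∃ s, s = (ops.take k).foldl (stp w M l) (List.range w, 1, 0, []) := ⟨_, rfl⟩
    rw [← hs] at h1 h2 h3 ⊢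
    obtain ⟨op, hop⟩ : ∃ op, op = ops[k] := ⟨_, rfl⟩
    rw [← hop]
    obtain ⟨b1, b2, b3, b4, b5, b6⟩ := h3
    have hst : [op].foldl (stp w M l) s = stp w M l s op := rfl
    rw [hst]
    have hnq : nq s.2.2.1 op ≤ k + 1 := by unfold nq; split_ifs <;> omega
    have hml : (s.2.1 + 1) * l ≤ (ops.length + 2) * l := Nat.mul_le_mul_right _ (by omega)
    refine ⟨by unfold stp; simp only; omega, hnq, ?_⟩
    refine ⟨?_, ?_, ?_, ?_, ?_, ?_⟩
    · unfold stp nxt
      simp only
      split_ifs
      · exact b1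
      · rw [upd_length]; exact b1
    · unfold stp nxt
      simp only
      split_ifs
      · exact b2
      · intro N hN
        unfold upd at hN
        rw [List.mem_map] at hN
        obtain ⟨p, hp, rfl⟩ := hN
        split_ifs
        · omega
        · omega
        · exact b2 _ (List.fst_mem_of_mem_zipIdx hp)
    · unfold stp
      simp only
      omega
    · unfold stp
      simp only
      omega
    · unfold stp
      simp only [List.length_append, zn_length]
      have : (hd w s.1 s.2.2.1 op).length ≤ 4 := by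
        unfold hd; split_ifs <;> simp
      have e : (k + 1) * (4 + l) = k * (4 + l) + (4 + l) := by ring
      omega
    · intro p hp
      unfold stp at hp
      simp only [List.mem_append] at hp
      rcases hp with hp | hp | hp
      · exact b6 p hp
      · have g1 := getD_le b2 op.2.1
        have g2 := getD_le b2 op.2.2
        unfold hd at hp
        split_ifs at hp
        · simp only [List.mem_cons, List.not_mem_nil, or_false] at hp
          subst hp
          exact ⟨g1, g2⟩
        · simp only [List.mem_cons, List.not_mem_nil, or_false] at hp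
          rcases hp with rfl | rfl | rfl | rfl
          · exact ⟨g1, g1⟩
          · exact ⟨g2, g2⟩
          · simp only; omega
          · simp only; omega
      · have := mem_zn hp
        omega

theorem UPoly.le {n : α → ℕ} (hn : UPoly n) : ∃ p : Polynomial ℕ, ∀ a, n a ≤ p.eval (sz a) := by
  obtain ⟨p, hp⟩ := Poly.sz_le hn
  refine ⟨p, fun a => ?_⟩
  have h1 := length_lt_sz (List.replicate (n a) ())
  rw [List.length_replicate] at h1
  exact (h1.trans_le (hp a)).le

theorem poly_wd {w M l : α → ℕ} {ops : α → List Op} (hw : UPoly w) (hM : UPoly M) (hl : UPoly l)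
    (ho : Poly ops) :
    Poly (fun t => wd (w t) (M t) (l t) (ops t) (List.range (w t)) 1 0) := by
  obtain ⟨pw, hpw⟩ := UPoly.le hw
  obtain ⟨pM, hpM⟩ := UPoly.le hM
  obtain ⟨pl, hpl⟩ := UPoly.le hl
  obtain ⟨po, hpo⟩ := UPoly.le (UPoly.length ho)
  have hs : Poly (fun t => ((List.range (w t), 1, 0, []) : St)) :=
    pair hw.range (pair (const 1) (pair (const 0) (const [])))
  have hF : Poly (fun p : α × St × Op => stp (w p.1) (M p.1) (l p.1) p.2.1 p.2.2) := by
    have h1 : Poly (fun p : α × St × Op => p.1) := fst id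
    have h2 : Poly (fun p : α × St × Op => p.2.1) := fst (snd id)
    have h3 : Poly (fun p : α × St × Op => p.2.2) := snd (snd id)
    have hw' : Poly (fun p : α × St × Op => w p.1) := hw.toPoly.comp h1
    have hM' : Poly (fun p : α × St × Op => M p.1) := hM.toPoly.comp h1
    have hl' : UPoly (fun p : α × St × Op => l p.1) := hl.comp h1
    have hcur : Poly (fun p : α × St × Op => p.2.1.1) := fst h2
    have hj : Poly (fun p : α × St × Op => p.2.1.2.1) := fst (snd h2)
    have hq : Poly (fun p : α × St × Op => p.2.1.2.2.1) := fst (snd (snd h2))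
    have hacc : Poly (fun p : α × St × Op => p.2.1.2.2.2) := snd (snd (snd h2))
    exact pair (poly_nxt hw' hcur hq h3) (pair (add hj (const 1)) (pair (poly_nq hq h3)
      (append hacc (append (poly_hd hw' hcur hq h3) (poly_zn hM' hl' hj)))))
  have hf := Poly.foldl (F := fun t s op => stp (w t) (M t) (l t) s op) ho hs hF
    (pw * (Polynomial.C 4 * (pw + Polynomial.C 2 * po + pM + (po + Polynomial.C 2) * pl + po +
      Polynomial.C 1) + Polynomial.C 2) + (po * (Polynomial.C 4 + pl)) *
      (Polynomial.C 8 * (pw + Polynomial.C 2 * po + pM + (po + Polynomial.C 2) * pl + po +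
      Polynomial.C 1) + Polynomial.C 4) + Polynomial.C 8 * (pw + Polynomial.C 2 * po + pM +
      (po + Polynomial.C 2) * pl + po + Polynomial.C 1) + Polynomial.C 20) (by
    intro t k hk
    have h1 := (bd_take (w := w t) (M := M t) (l := l t) (ops t) k hk).2.2.sz
    refine h1.trans ?_
    simp only [Polynomial.eval_add, Polynomial.eval_mul, Polynomial.eval_C]
    have e1 := hpw t
    have e2 := hpM t
    have e3 := hpl t
    have e4 := hpo t
    gcongr
    exact hk.trans e4)
  refine (append (snd (snd (snd hf))) (NPC.Poly.map (F := fun _ N => (N, N)) (fst hf)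
    (pair (snd id) (snd id)))).congr fun t => ?_
  rw [stp_wd]
  rfl

theorem poly_word {w l : α → ℕ} {ops : α → List Op} (hw : UPoly w) (hl : UPoly l)
    (ho : Poly ops) : Poly (fun t => word (w t) (l t) (ops t)) ∧
      UPoly (fun t => w t + 2 * swaps (ops t)) := by
  have hsw : UPoly (fun t => swaps (ops t)) := by
    unfold swaps
    exact UPoly.length (Poly.filter (p := fun _ op => !op.1) ho (not (fst (snd id))))
  have hM : UPoly (fun t => w t + 2 * swaps (ops t)) := UPoly.add hw (UPoly.mul (UPoly.const 2) hsw)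
  refine ⟨?_, hM⟩
  unfold word
  exact append (NPC.Poly.map (F := fun _ i => (i, i)) hw.range (pair (snd id) (snd id)))
    (append (poly_zn hM.toPoly hl (const 0)) (poly_wd hw hM hl ho))

theorem zipIdx_one {β : Type} (l : List β) :
    l.zipIdx 1 = l.zipIdx.map (fun p => (p.1, p.2 + 1)) := by
  have := List.map_snd_add_zipIdx_eq_zipIdx (l := l) (n := 1) (k := 0)
  rw [Nat.add_zero] at this
  rw [← this]
  rfl

theorem poly_netsOf {W : α → List (ℕ × ℕ)} {n : α → ℕ} (hW : Poly W) (hn : UPoly n) :
    Poly (fun t => netsOf (W t) (n t)) := by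
  have h1 : Poly (fun t => (W t).zipIdx 1) :=
    (NPC.Poly.map (F := fun _ (p : (ℕ × ℕ) × ℕ) => (p.1, p.2 + 1)) (zipIdx hW)
      (pair (fst (snd id)) (add (snd (snd id)) (const 1)))).congr fun t => (zipIdx_one _).symm
  unfold netsOf
  refine NPC.Poly.map (F := fun t (i : ℕ) =>
    ((((W t).zipIdx 1).filter (fun p => decide (p.1.1 = i))).map Prod.snd,
      (((W t).zipIdx 1).filter (fun p => decide (p.1.2 = i))).map Prod.snd)) hn.range ?_
  have h2 : Poly (fun p : α × ℕ => (W p.1).zipIdx 1) := h1.comp (fst id)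
  refine pair ?_ ?_
  · refine NPC.Poly.map (F := fun _ (p : (ℕ × ℕ) × ℕ) => p.2)
      (Poly.filter (p := fun (x : α × ℕ) (p : (ℕ × ℕ) × ℕ) => decide (p.1.1 = x.2)) h2
      (decide_eq (fst (fst (snd id))) (snd (fst id)))) (snd (snd id))
  · refine NPC.Poly.map (F := fun _ (p : (ℕ × ℕ) × ℕ) => p.2)
      (Poly.filter (p := fun (x : α × ℕ) (p : (ℕ × ℕ) × ℕ) => decide (p.1.2 = x.2)) h2
      (decide_eq (snd (fst (snd id))) (snd (fst id)))) (snd (snd id))

theorem poly_inst {w l : α → ℕ} {ops : α → List Op} (hw : UPoly w) (hl : UPoly l)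
    (ho : Poly ops) : Poly (fun t => inst (w t) (l t) (ops t)) := by
  obtain ⟨h1, h2⟩ := poly_word hw hl ho
  unfold inst total
  exact pair (length h1) (poly_netsOf h1 (UPoly.add h2 (UPoly.mul (UPoly.add (UPoly.length ho)
    (UPoly.const 1)) hl)))

theorem poly_opsOf {w D H : α → ℕ} {ev tests : α → List (ℕ × ℕ)} (hw : UPoly w) (hD : Poly D)
    (hH : Poly H) (he : Poly ev) (ht : Poly tests) :
    Poly (fun t => opsOf (w t) (D t) (H t) (ev t) (tests t)) := by
  unfold opsOf
  have h1 : UPoly (fun t => w t - 1) :=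
    UPoly.of_le (sub hw.toPoly (const 1)) hw (fun t => Nat.sub_le _ _)
  refine append ?_ (append ?_ ?_)
  · unfold sorted
    exact NPC.Poly.map (F := fun _ (i : ℕ) => ((true, i + 1, i) : Op)) h1.range
      (pair (const true) (pair (add (snd id) (const 1)) (snd id)))
  · unfold sop
    have g1 : Poly (fun p : α × ℕ × ℕ => p.1) := fst id
    exact NPC.Poly.map (F := fun t (e : ℕ × ℕ) =>
      ((false, e.1 * D t + H t, e.2 * D t + H t) : Op)) he
      (pair (const false) (pair (add (mul (fst (snd id)) (hD.comp g1)) (hH.comp g1))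
        (add (mul (snd (snd id)) (hD.comp g1)) (hH.comp g1))))
  · unfold top
    have g1 : Poly (fun p : α × ℕ × ℕ => p.1) := fst id
    have g2 : Poly (fun p : α × ℕ × ℕ => p.2.1 * D p.1 + H p.1) :=
      add (mul (fst (snd id)) (hD.comp g1)) (hH.comp g1)
    exact Poly.flatMap (F := fun t (e : ℕ × ℕ) =>
      ([(true, e.1 * D t + H t, e.2 * D t), (true, (e.2 + 1) * D t, e.1 * D t + H t)] : List Op)) ht
      (cons (pair (const true) (pair g2 (mul (snd (snd id)) (hD.comp g1))))
        (cons (pair (const true) (pair (mul (add (snd (snd id)) (const 1)) (hD.comp g1)) g2))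
          (const [])))

theorem poly_lw {p : α → Bool × ℕ} (hp : Poly p) : Poly (fun t => lw (p t)) := by
  unfold lw
  exact ite (decide_bool (fst hp)) (mul (const 2) (snd hp)) (add (mul (const 2) (snd hp)) (const 1))

theorem poly_cloc {n : α → ℕ} {c : α → Cl} {p : α → ℕ} (hn : Poly n) (hc : Poly c)
    (hp : Poly p) : Poly (fun t => cloc (n t) (c t) (p t)) := by
  unfold cloc loc
  exact ite (decide_eq hp (const 6)) (poly_lw (fst (fst hc)))
    (ite (decide_eq hp (const 7)) (poly_lw (fst (snd (fst hc))))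
      (ite (decide_eq hp (const 8)) (poly_lw (snd (snd (fst hc))))
        (add (add (mul (const 2) hn) (mul (const 6) (snd hc))) hp)))

theorem poly_gad {n : α → ℕ} {c : α → Cl} (hn : Poly n) (hc : Poly c) :
    Poly (fun t => gad (n t) (c t)) := by
  unfold gad
  have g1 : Poly (fun p : α × ℕ × ℕ => p.1) := fst id
  exact NPC.Poly.map (F := fun t (x : ℕ × ℕ) => (cloc (n t) (c t) x.1, cloc (n t) (c t) x.2))
    (const lev) (pair (poly_cloc (hn.comp g1) (hc.comp g1) (fst (snd id)))
      (poly_cloc (hn.comp g1) (hc.comp g1) (snd (snd id))))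

theorem poly_pairs {L : α → List ℕ} (hL : Poly L) : Poly (fun t => pairs (L t)) := by
  unfold pairs
  exact NPC.Poly.map (F := fun _ (j : ℕ) => (2 * j, 2 * j + 1)) hL
    (pair (mul (const 2) (snd id)) (add (mul (const 2) (snd id)) (const 1)))

end

theorem upoly_n : UPoly (fun φ : List (Lit ℕ × Lit ℕ × Lit ℕ) => 3 * φ.length) :=
  UPoly.mul (UPoly.const 3) (UPoly.length id)

theorem poly_evs : Poly evs := by
  unfold evs
  exact append (poly_pairs upoly_n.range) (append (Poly.flatMap
    (F := fun (φ : List (Lit ℕ × Lit ℕ × Lit ℕ)) (c : Cl) => gad (3 * φ.length) c) (zipIdx id)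
    (poly_gad (upoly_n.toPoly.comp (fst id)) (snd id))) (poly_pairs upoly_n.range))

theorem poly_tsts : Poly tsts := by
  unfold tsts
  refine append ?_ ?_
  · exact NPC.Poly.map (F := fun _ (j : ℕ) => (2 * j, 2 * j)) upoly_n.range
      (pair (mul (const 2) (snd id)) (mul (const 2) (snd id)))
  · have g : Poly (fun p : List (Lit ℕ × Lit ℕ × Lit ℕ) × ℕ => 2 * (3 * p.1.length) + 6 * p.2) :=
      add (mul (const 2) (upoly_n.toPoly.comp (fst id))) (mul (const 6) (snd id))
    exact NPC.Poly.map (F := fun (φ : List (Lit ℕ × Lit ℕ × Lit ℕ)) (i : ℕ) =>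
      (2 * (3 * φ.length) + 6 * i + 3, 2 * (3 * φ.length) + 6 * i)) (UPoly.length id).range
      (pair (add g (const 3)) g)

theorem upoly_kk : UPoly kk := by
  unfold kk
  exact UPoly.add (UPoly.mul (UPoly.const 2) upoly_n) (UPoly.mul (UPoly.const 6) (UPoly.length id))

theorem upoly_hh : UPoly (fun φ => hh (evs φ)) := by
  unfold hh
  exact UPoly.add (UPoly.mul (UPoly.const 20) (UPoly.length poly_evs)) (UPoly.const 1)

theorem upoly_dd : UPoly (fun φ => dd (evs φ)) := by
  unfold dd
  exact UPoly.mul (UPoly.const 2) upoly_hh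

theorem upoly_ww : UPoly (fun φ => ww (kk φ) (evs φ)) := by
  unfold ww
  exact UPoly.add (UPoly.mul upoly_kk upoly_dd) (UPoly.const 1)

theorem upoly_ll : UPoly (fun φ => ll (kk φ) (evs φ)) := by
  unfold ll
  exact UPoly.add (UPoly.mul (UPoly.const 2) (UPoly.mul (UPoly.add upoly_ww (UPoly.const 1))
    (UPoly.add upoly_ww (UPoly.const 1)))) (UPoly.const 1)

theorem poly_red : Poly red := by
  unfold red crp
  exact pair (poly_inst upoly_ww upoly_ll (poly_opsOf upoly_ww upoly_dd.toPoly upoly_hh.toPoly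
    poly_evs poly_tsts)) upoly_ww.toPoly

end Pool.Agent.W947.CR
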