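import Pool.Agent.W947.CR.Chain

/-!
# Soundness: from layouts to paths of tokens
-/

namespace Pool.Agent.W947.CR

open scoped Classical

theorem range_getD {w k : ℕ} (hk : k < w) : (List.range w).getD k 0 = k := by
  rw [List.getD_eq_getElem _ _ (by simpa using hk)]
  simp

theorem upper_mem {w l : ℕ} {ops : List Op} {x : ℕ} (hx : x < (word w l ops).length) (i : ℕ)
    (hi : (word w l ops)[x].1 = i) (hlt : i < (inst w l ops).2.length) :
    x + 1 ∈ ((inst w l ops).2[i]).1 := by
  have h1 := netsOf_get (word w l ops) (total w l ops) hlt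
  have h2 : (inst w l ops).2[i] = (netsOf (word w l ops) (total w l ops))[i]'hlt := rfl
  rw [h2, h1, mem_upper]
  exact ⟨⟨by omega, hx⟩, hi⟩

theorem lower_mem {w l : ℕ} {ops : List Op} {x : ℕ} (hx : x < (word w l ops).length) (i : ℕ)
    (hi : (word w l ops)[x].2 = i) (hlt : i < (inst w l ops).2.length) :
    x + 1 ∈ ((inst w l ops).2[i]).2 := by
  have h1 := netsOf_get (word w l ops) (total w l ops) hlt
  have h2 : (inst w l ops).2[i] = (netsOf (word w l ops) (total w l ops))[i]'hlt := rfl
  rw [h2, h1, mem_lower]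
  exact ⟨⟨by omega, hx⟩, hi⟩

theorem cols_of_layout {w l w' : ℕ} {ops : List Op} (hv : Valid w ops)
    {G : Fin (inst w l ops).2.length → grid.Subgraph} (hG : IsLayout (inst w l ops) w' G) :
    ∃ S, Cols S w' (w + 2 * swaps ops) (word w l ops) := by
  have hn : (inst w l ops).2.length = total w l ops := netsOf_length _ _
  refine ⟨fun i => if h : i < (inst w l ops).2.length then (G ⟨i, h⟩).verts else ∅, ?_⟩
  have htp : ∀ c, ∀ hc0 : 1 ≤ c, ∀ hc : c ≤ (word w l ops).length,
      tp (word w l ops) c = ((word w l ops)[c - 1]'(by omega)).1 ∧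
      bt (word w l ops) c = ((word w l ops)[c - 1]'(by omega)).2 := by
    intro c h1 h2
    unfold tp bt
    rw [List.getD_eq_getElem _ _ (by omega)]
    exact ⟨rfl, rfl⟩
  refine ⟨⟨?_, ?_, ?_, ?_⟩, ?_, ?_, ?_, ?_⟩
  · intro i
    split_ifs with h
    · exact conn_of_subgraph (hG.connected _)
    · intro p hp
      exact absurd hp (Set.notMem_empty _)
  · intro i j p hp hp'
    split_ifs at hp with h
    · split_ifs at hp' with h'
      · by_contra hij
        exact (Set.disjoint_left.1 (hG.disjoint ⟨i, h⟩ ⟨j, h'⟩ (fun h3 => hij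
          (congrArg Fin.val h3)))) hp hp'
      · exact absurd hp' (Set.notMem_empty _)
    · exact absurd hp (Set.notMem_empty _)
  · intro i p hp
    split_ifs at hp with h
    · exact (hG.inside _ hp).2.2.1
    · exact absurd hp (Set.notMem_empty _)
  · intro i p hp
    split_ifs at hp with h
    · exact (hG.inside _ hp).2.2.2
    · exact absurd hp (Set.notMem_empty _)
  · intro c h1 h2
    obtain ⟨e1, -⟩ := htp c h1 h2
    have hlt : tp (word w l ops) c < (inst w l ops).2.length := by
      rw [hn, e1]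
      exact (word_bounds hv (List.getElem_mem _)).1
    have h3 := upper_mem (by omega) _ e1.symm hlt
    have h4 : c - 1 + 1 = c := by omega
    rw [h4] at h3
    have h5 := hG.upper ⟨_, hlt⟩ c h3
    unfold Top
    simp only [hlt, dif_pos]
    exact ⟨h5.fst_mem, h5.snd_mem⟩
  · intro c h1 h2
    obtain ⟨-, e1⟩ := htp c h1 h2
    have hlt : bt (word w l ops) c < (inst w l ops).2.length := by
      rw [hn, e1]
      exact (word_bounds hv (List.getElem_mem _)).2.1
    have h3 := lower_mem (by omega) _ e1.symm hlt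
    have h4 : c - 1 + 1 = c := by omega
    rw [h4] at h3
    have h5 := hG.lower ⟨_, hlt⟩ c h3
    unfold Bot
    simp only [hlt, dif_pos]
    exact ⟨h5.fst_mem, h5.snd_mem⟩
  · intro c h1 h2 h3
    obtain ⟨e1, e2⟩ := htp c h1 h2
    rw [e1] at h3
    rw [e1, e2]
    exact (word_bounds hv (List.getElem_mem _)).2.2 h3
  · intro c d h1 h2 h3 h4 h5
    obtain ⟨e1, -⟩ := htp c h1 (by omega)
    obtain ⟨e2, -⟩ := htp d (by omega) h3
    rw [e1] at h4 ⊢
    rw [e2] at h5 ⊢
    exact List.pairwise_iff_getElem.1 (word_pairwise hv) _ _ (by omega) (by omega) (by omega)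
      h4 h5

/-- A layout of width at most `w` has width `w`, and gives a run. -/
theorem run_of_layout {w l w' : ℕ} {ops : List Op} (hw : w' ≤ w) (hl : 2 * (w + 1) ^ 2 < l)
    (hv : Valid w ops) (h : HasLayout (inst w l ops) w') :
    w' = w ∧ ∃ ρ : ℕ → ℕ, (∀ k < w, 1 ≤ ρ k ∧ ρ k ≤ w) ∧
      (∀ k < w, ∀ k' < w, ρ k = ρ k' → k = k') ∧ Run w ops ρ := by
  obtain ⟨G, hG⟩ := h
  obtain ⟨S, hC⟩ := cols_of_layout hv hG
  have hg := good_range w
  have hl' : 2 * (w' + 1) ^ 2 < l := by
    have : (w' + 1) ^ 2 ≤ (w + 1) ^ 2 := Nat.pow_le_pow_left (by omega) 2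
    omega
  have hW : word w l ops = (List.range w).map (fun i => (i, i)) ++
      (zn (w + 2 * swaps ops) l 0 ++ wd w (w + 2 * swaps ops) l ops (List.range w) 1 0) := rfl
  have hlen : ((List.range w).map (fun i => (i, i))).length = w := by simp
  have hmem : ∀ i ∈ cset w (List.range w), i < w := by
    intro i hi
    obtain ⟨k, hk, rfl⟩ := mem_cset.1 hi
    rw [range_getD hk]
    exact hk
  have hWlen : w + l ≤ (word w l ops).length := by
    rw [hW, List.length_append, List.length_append, zn_length, hlen]; omega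
  obtain ⟨c, h1, h2, π, z, P⟩ := zone_step hC hl' hW (A := cset w (List.range w))
    (by rw [hg.card]; exact hw) (fun i hi => by have := hmem i hi; omega) (by
      intro i hi
      have h3 := hmem i hi
      have h4 : tp (word w l ops) (i + 1) = i := by
        unfold tp
        rw [hW, Nat.add_sub_cancel, List.getD_append _ _ _ _ (by rw [hlen]; exact h3),
          List.getD_eq_getElem _ _ (by rw [hlen]; exact h3)]
        simp
      have h5 := hC.top (i + 1) (by omega) (by omega)
      rw [h4] at h5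
      exact ⟨_, h5.1, by rw [hlen]; simp only; omega⟩) (by
      intro i hi
      obtain ⟨k, hk, rfl⟩ := mem_cset.1 hi
      exact mem_wd ops _ _ _ hg k hk)
  have hww : w' = w := by rw [← P.card, hg.card]
  subst hww
  refine ⟨rfl, fun k => π ((List.range w').getD k 0), ?_, ?_, ?_⟩
  · intro k hk
    exact P.pos _ (mem_cset.2 ⟨k, hk, rfl⟩)
  · intro k hk k' hk' hkk
    exact hg.inj k hk k' hk' (P.inj _ (mem_cset.2 ⟨k, hk, rfl⟩) _ (mem_cset.2 ⟨k', hk', rfl⟩) hkk)
  · rw [hlen] at h1 h2
    refine chain hl hC ops (List.range w') 1 0 ((List.range w').map (fun i => (i, i)) ++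
      zn (w' + 2 * swaps ops) l 0) c π z hg hv (by simp) ?_ (by omega) ?_ ?_ P
    · rw [hW, List.append_assoc]
    · rw [List.length_append, hlen, zn_length]
      omega
    · intro d h3 h4
      rw [List.length_append, hlen, zn_length] at h4
      exact zone_ge hW (by rw [hlen]; omega) (by rw [hlen]; omega)

/-! ### Paths of tokens -/

/-- The exchange of two wires. -/
def sw (a b x : ℕ) : ℕ := if x = a then b else if x = b then a else x

/-- The possible movements of the tokens, when some of the exchanges are made. -/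
def Path : List (ℕ × ℕ) → (ℕ → ℕ) → Prop
  | [], f => ∀ x, f x = x
  | e :: ev, f => ∃ g, Path ev g ∧ ((∀ x, f x = g x) ∨ ∀ x, f x = g (sw e.1 e.2 x))

theorem run_tests {w : ℕ} : ∀ (L rest : List Op) (ρ : ℕ → ℕ),
    (∀ op ∈ L, op.1 = true ∧ op.2.1 < w ∧ op.2.2 < w) → Run w (L ++ rest) ρ →
    (∀ op ∈ L, ρ op.2.2 < ρ op.2.1) ∧ ∃ ρ', (∀ k < w, ρ' k = ρ k) ∧ Run w rest ρ' := by
  intro L
  induction L with
  | nil =>
    intro rest ρ _ h
    exact ⟨fun op hop => absurd hop (List.not_mem_nil), ρ, fun _ _ => rfl, h⟩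
  | cons op L ih =>
    intro rest ρ hL h
    obtain ⟨ρ', -, -, h3, h4, -⟩ := h
    obtain ⟨h5, h6⟩ := h4 (hL op (by simp)).1
    obtain ⟨h7, ρ'', h8, h9⟩ := ih rest ρ' (fun o ho => hL o (by simp [ho])) h3
    refine ⟨?_, ρ'', fun k hk => by rw [h8 k hk, h6 k hk], h9⟩
    intro o ho
    rw [List.mem_cons] at ho
    rcases ho with rfl | ho
    · exact h5
    · have h10 := hL o (by simp [ho])
      have := h7 o ho
      rw [h6 _ h10.2.1, h6 _ h10.2.2] at this
      exact this

/-- The tests that sort the threads. -/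
def sorted (w : ℕ) : List Op := (List.range (w - 1)).map (fun i => (true, i + 1, i))

theorem pos_of_sorted {w : ℕ} {ρ : ℕ → ℕ} (h1 : ∀ k < w, 1 ≤ ρ k ∧ ρ k ≤ w)
    (h2 : ∀ i, i + 1 < w → ρ i < ρ (i + 1)) : ∀ k < w, ρ k = k + 1 := by
  have h3 : ∀ k < w, k + 1 ≤ ρ k := by
    intro k
    induction k with
    | zero => intro hk; exact (h1 0 hk).1
    | succ k ih =>
      intro hk
      have := ih (by omega)
      have := h2 k hk
      omega
  have h4 : ∀ d k, k + d + 1 = w → ρ k + d ≤ w := by
    intro d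
    induction d with
    | zero => intro k hk; exact (h1 k (by omega)).2
    | succ d ih =>
      intro k hk
      have := ih (k + 1) (by omega)
      have := h2 k (by omega)
      omega
  intro k hk
  have := h3 k hk
  have := h4 (w - 1 - k) k (by omega)
  omega

/-- The operations of an event. -/
def sop (D H : ℕ) (e : ℕ × ℕ) : Op := (false, e.1 * D + H, e.2 * D + H)

/-- The tests that a wire is in a slot. -/
def top (D H : ℕ) (t : ℕ × ℕ) : List Op :=
  [(true, t.1 * D + H, t.2 * D), (true, (t.2 + 1) * D, t.1 * D + H)]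

/-- All operations. -/
def opsOf (w D H : ℕ) (ev tests : List (ℕ × ℕ)) : List Op :=
  sorted w ++ (ev.map (sop D H) ++ tests.flatMap (top D H))

theorem real_inj {D H a b : ℕ} (hD : 0 < D) (h : a * D + H = b * D + H) : a = b := by
  have : a * D = b * D := by omega
  exact Nat.eq_of_mul_eq_mul_right hD this

theorem real_ne_mark {D H a s : ℕ} (hH : 0 < H) (hHD : H < D) : s * D ≠ a * D + H := by
  intro h
  have h1 : (s * D) % D = 0 := Nat.mul_mod_left s D
  rw [h, Nat.add_comm, Nat.add_mul_mod_self_right, Nat.mod_eq_of_lt hHD] at h1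
  omega

theorem real_lt {K D H a : ℕ} (ha : a < K) (hHD : H < D) : a * D + H < K * D + 1 := by
  have : (a + 1) * D ≤ K * D := Nat.mul_le_mul_right _ ha
  rw [Nat.add_mul] at this
  omega

theorem mark_lt {K D s : ℕ} (hs : s ≤ K) : s * D < K * D + 1 := by
  have : s * D ≤ K * D := Nat.mul_le_mul_right _ hs
  omega

/-- Distance at most `10 e`. -/
def nearE (e a b : ℕ) : Prop := a ≤ b + 10 * e ∧ b ≤ a + 10 * e

theorem nearE_succ {e a b c : ℕ} (h1 : nearE e a b) (h2 : near c a) : nearE (e + 1) c b := by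
  unfold nearE near at *
  omega

theorem sw_lt {a b x K : ℕ} (ha : a < K) (hb : b < K) (hx : x < K) : sw a b x < K := by
  unfold sw; split_ifs <;> omega

theorem sw_sw (a b x : ℕ) : sw a b (sw a b x) = x := by
  unfold sw; split_ifs <;> omega

theorem run_path {K D H E : ℕ} (hD : D = 2 * H) (hH : H = 20 * E + 1) {tests : List (ℕ × ℕ)}
    (ht : ∀ t ∈ tests, t.1 < K ∧ t.2 < K) :
    ∀ (ev : List (ℕ × ℕ)) (e : ℕ) (ρ g : ℕ → ℕ), (∀ p ∈ ev, p.1 < K ∧ p.2 < K ∧ p.1 ≠ p.2) →
      e + ev.length ≤ E → (∀ s ≤ K, nearE e (ρ (s * D)) (s * D + 1)) →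
      (∀ X < K, nearE e (ρ (g X * D + H)) (X * D + H + 1)) → (∀ X < K, g X < K) →
      (∀ r < K, ∃ X < K, g X = r) →
      Run (K * D + 1) (ev.map (sop D H) ++ tests.flatMap (top D H)) ρ →
      ∃ f, Path ev f ∧ ∀ t ∈ tests, f (g t.2) = t.1 := by
  have hHD : H < D := by omega
  have hH0 : 0 < H := by omega
  intro ev
  induction ev with
  | nil =>
    intro e ρ g _ he hm hr _ hsur hrun
    refine ⟨id, fun _ => rfl, ?_⟩
    rw [List.map_nil, List.nil_append] at hrun
    have h1 := run_tests (tests.flatMap (top D H)) [] ρ (by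
      intro op hop
      rw [List.mem_flatMap] at hop
      obtain ⟨t, ht1, ht2⟩ := hop
      have h3 := ht t ht1
      have e1 := real_lt h3.1 hHD
      have e2 := mark_lt (D := D) (show t.2 ≤ K by omega)
      have e3 := mark_lt (D := D) (show t.2 + 1 ≤ K by omega)
      unfold top at ht2
      simp only [List.mem_cons, List.not_mem_nil, or_false] at ht2
      rcases ht2 with rfl | rfl
      · exact ⟨rfl, e1, e2⟩
      · exact ⟨rfl, e3, e1⟩) (by rw [List.append_nil]; exact hrun)
    intro t ht1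
    have h3 := ht t ht1
    have h4 : ρ (t.2 * D) < ρ (t.1 * D + H) := h1.1 (true, t.1 * D + H, t.2 * D) (List.mem_flatMap.2 ⟨t, ht1, by simp [top]⟩)
    have h5 : ρ (t.1 * D + H) < ρ ((t.2 + 1) * D) := h1.1 (true, (t.2 + 1) * D, t.1 * D + H) (List.mem_flatMap.2 ⟨t, ht1,
      by simp [top]⟩)
    obtain ⟨X, hX, hXg⟩ := hsur t.1 h3.1
    have h6 := hr X hX
    rw [hXg] at h6
    have h7 := hm t.2 (by omega)
    have h8 := hm (t.2 + 1) (by omega)
    have h9 : X = t.2 := by
      rcases lt_trichotomy X t.2 with h | h | h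
      · exfalso
        have : (X + 1) * D ≤ t.2 * D := Nat.mul_le_mul_right _ h
        rw [Nat.add_mul] at this
        unfold nearE at h6 h7 h8
        rw [List.length_nil] at he
        omega
      · exact h
      · exfalso
        have : (t.2 + 1) * D ≤ X * D := Nat.mul_le_mul_right _ h
        unfold nearE at h6 h7 h8
        rw [List.length_nil] at he
        omega
    rw [id, ← h9, hXg]
  | cons p ev ih =>
    intro e ρ g hev he hm hr hgK hsur hrun
    have hp := hev p (by simp)
    obtain ⟨ρ', -, -, h3, -, h4⟩ := hrun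
    obtain ⟨h5, h6⟩ := h4 rfl
    simp only [sop] at h5 h6
    have hm' : ∀ s ≤ K, nearE (e + 1) (ρ' (s * D)) (s * D + 1) := by
      intro s hs
      exact nearE_succ (hm s hs) (h5 _ (mark_lt hs) (real_ne_mark hH0 hHD)
        (real_ne_mark hH0 hHD))
    have hother : ∀ r < K, r ≠ p.1 → r ≠ p.2 → near (ρ' (r * D + H)) (ρ (r * D + H)) := by
      intro r hr1 hr2 hr3
      exact h5 _ (real_lt hr1 hHD) (fun h7 => hr2 (real_inj (by omega) h7))
        (fun h7 => hr3 (real_inj (by omega) h7))
    rcases h6 with ⟨h6, h7⟩ | ⟨h6, h7⟩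
    · obtain ⟨f, hf, hft⟩ := ih (e + 1) ρ' g (fun p hp => hev p (by simp [hp]))
        (by rw [List.length_cons] at he; omega) hm' (by
          intro X hX
          have h8 := hr X hX
          by_cases e1 : g X = p.1
          · rw [e1] at h8 ⊢
            exact nearE_succ h8 h6
          · by_cases e2 : g X = p.2
            · rw [e2] at h8 ⊢
              exact nearE_succ h8 h7
            · exact nearE_succ h8 (hother _ (hgK X hX) e1 e2)) hgK hsur h3
      exact ⟨f, ⟨f, hf, Or.inl fun _ => rfl⟩, hft⟩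
    · obtain ⟨f, hf, hft⟩ := ih (e + 1) ρ' (fun X => sw p.1 p.2 (g X))
        (fun p hp => hev p (by simp [hp]))
        (by rw [List.length_cons] at he; omega) hm' (by
          intro X hX
          have h8 := hr X hX
          unfold sw
          by_cases e1 : g X = p.1
          · rw [if_pos e1]
            rw [e1] at h8
            exact nearE_succ h8 h7
          · rw [if_neg e1]
            by_cases e2 : g X = p.2
            · rw [if_pos e2]
              rw [e2] at h8
              exact nearE_succ h8 h6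
            · rw [if_neg e2]
              exact nearE_succ h8 (hother _ (hgK X hX) e1 e2))
        (fun X hX => sw_lt hp.1 hp.2.1 (hgK X hX)) (by
          intro r hr1
          obtain ⟨X, hX, hXr⟩ := hsur (sw p.1 p.2 r) (sw_lt hp.1 hp.2.1 hr1)
          exact ⟨X, hX, by rw [hXr, sw_sw]⟩) h3
      refine ⟨fun x => f (sw p.1 p.2 x), ⟨f, hf, Or.inr fun _ => rfl⟩, ?_⟩
      intro t ht1
      exact hft t ht1

/-- The parameters: the half distance of the slots, the distance, the number of threads, and the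
length of the zones. -/
def hh (ev : List (ℕ × ℕ)) : ℕ := 20 * ev.length + 1
def dd (ev : List (ℕ × ℕ)) : ℕ := 2 * hh ev
def ww (K : ℕ) (ev : List (ℕ × ℕ)) : ℕ := K * dd ev + 1
def ll (K : ℕ) (ev : List (ℕ × ℕ)) : ℕ := 2 * ((ww K ev + 1) * (ww K ev + 1)) + 1

/-- The channel routing problem of a list of events and a list of tests. -/
def crp (K : ℕ) (ev tests : List (ℕ × ℕ)) : CRP :=
  inst (ww K ev) (ll K ev) (opsOf (ww K ev) (dd ev) (hh ev) ev tests)

theorem valid_opsOf {K : ℕ} {ev tests : List (ℕ × ℕ)}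
    (hev : ∀ p ∈ ev, p.1 < K ∧ p.2 < K ∧ p.1 ≠ p.2) (ht : ∀ t ∈ tests, t.1 < K ∧ t.2 < K) :
    Valid (ww K ev) (opsOf (ww K ev) (dd ev) (hh ev) ev tests) := by
  have hHD : hh ev < dd ev := by unfold dd hh; omega
  have hH0 : 0 < hh ev := by unfold hh; omega
  intro op hop
  unfold opsOf at hop
  rw [List.mem_append, List.mem_append] at hop
  rcases hop with hop | hop | hop
  · unfold sorted at hop
    rw [List.mem_map] at hop
    obtain ⟨i, hi, rfl⟩ := hop
    rw [List.mem_range] at hi
    simp only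
    omega
  · rw [List.mem_map] at hop
    obtain ⟨p, hp, rfl⟩ := hop
    have h1 := hev p hp
    exact ⟨real_lt h1.1 hHD, real_lt h1.2.1 hHD, fun h2 => h1.2.2 (real_inj (by omega) h2)⟩
  · rw [List.mem_flatMap] at hop
    obtain ⟨t, ht1, ht2⟩ := hop
    have h3 := ht t ht1
    have e1 := real_lt h3.1 hHD
    have e2 := mark_lt (D := dd ev) (show t.2 ≤ K by omega)
    have e3 := mark_lt (D := dd ev) (show t.2 + 1 ≤ K by omega)
    unfold top at ht2
    simp only [List.mem_cons, List.not_mem_nil, or_false] at ht2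
    rcases ht2 with rfl | rfl
    · exact ⟨e1, e2, fun h => real_ne_mark hH0 hHD h.symm⟩
    · exact ⟨e3, e1, fun h => real_ne_mark hH0 hHD h⟩

/-- **Soundness.** -/
theorem path_of_layout {K : ℕ} {ev tests : List (ℕ × ℕ)}
    (hev : ∀ p ∈ ev, p.1 < K ∧ p.2 < K ∧ p.1 ≠ p.2) (ht : ∀ t ∈ tests, t.1 < K ∧ t.2 < K)
    {w' : ℕ} (hw : w' ≤ ww K ev) (h : HasLayout (crp K ev tests) w') :
    ∃ f, Path ev f ∧ ∀ t ∈ tests, f t.2 = t.1 := by
  have hv := valid_opsOf hev ht
  obtain ⟨-, ρ, h1, h2, h3⟩ := run_of_layout hw (by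
    unfold ll
    rw [pow_two]
    omega) hv h
  unfold opsOf at h3
  obtain ⟨h4, ρ', h5, h6⟩ := run_tests _ _ _ (by
    intro op hop
    unfold sorted at hop
    rw [List.mem_map] at hop
    obtain ⟨i, hi, rfl⟩ := hop
    rw [List.mem_range] at hi
    exact ⟨rfl, by simp only; omega, by simp only; omega⟩) h3
  have h7 := pos_of_sorted h1 (by
    intro i hi
    exact h4 (true, i + 1, i) (by
      unfold sorted
      rw [List.mem_map]
      exact ⟨i, List.mem_range.2 (by omega), rfl⟩))
  have hHD : hh ev < dd ev := by unfold dd hh; omega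
  have h8 : ∀ k < ww K ev, ρ' k = k + 1 := fun k hk => by rw [h5 k hk, h7 k hk]
  obtain ⟨f, hf, hft⟩ := run_path (K := K) (D := dd ev) (H := hh ev) (E := ev.length) rfl rfl ht
    ev 0 ρ' id hev (by omega) (by
      intro s hs
      rw [h8 _ (mark_lt hs)]
      exact ⟨by omega, by omega⟩) (by
      intro X hX
      rw [id, h8 _ (real_lt hX hHD)]
      exact ⟨by omega, by omega⟩) (fun X hX => hX) (fun r hr => ⟨r, hr, rfl⟩) h6
  exact ⟨f, hf, hft⟩

end Pool.Agent.W947.CR
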