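import Pool.Agent.W947.CR.Layout2

/-!
# 3SAT as a problem of moving tokens
-/

namespace Pool.Agent.W947.CR

open Pool.Agent.NPC

/-! ### From paths to exact runs -/

theorem xrun_tests : ∀ (L rest : List Op) (ρ : ℕ → ℕ),
    (∀ op ∈ L, op.1 = true ∧ ρ op.2.2 < ρ op.2.1) → XRun rest ρ → XRun (L ++ rest) ρ := by
  intro L
  induction L with
  | nil => intro rest ρ _ h; exact h
  | cons op L ih =>
    intro rest ρ hL h
    have h1 := hL op (by simp)
    refine ⟨fun _ => ⟨h1.2, ih rest ρ (fun o ho => hL o (by simp [ho])) h⟩, fun h2 => ?_⟩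
    rw [h1.1] at h2
    exact absurd h2 (by decide)

theorem sw_real {D H a b y : ℕ} (hD : 0 < D) :
    sw (a * D + H) (b * D + H) (y * D + H) = sw a b y * D + H := by
  unfold sw
  by_cases h1 : y = a
  · rw [if_pos (by rw [h1]), if_pos h1]
  · rw [if_neg (fun h => h1 (real_inj hD h)), if_neg h1]
    by_cases h2 : y = b
    · rw [if_pos (by rw [h2]), if_pos h2]
    · rw [if_neg (fun h => h2 (real_inj hD h)), if_neg h2]

theorem xrun_path {K D H : ℕ} (hH : 0 < H) (hHD : H < D) {tests : List (ℕ × ℕ)}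
    (ht : ∀ t ∈ tests, t.1 < K ∧ t.2 < K) :
    ∀ (ev : List (ℕ × ℕ)) (ρ g f : ℕ → ℕ), (∀ p ∈ ev, p.1 < K ∧ p.2 < K ∧ p.1 ≠ p.2) →
      Path ev f → (∀ t ∈ tests, f (g t.2) = t.1) → (∀ s ≤ K, ρ (s * D) = s * D + 1) →
      (∀ X < K, ρ (g X * D + H) = X * D + H + 1) →
      XRun (ev.map (sop D H) ++ tests.flatMap (top D H)) ρ := by
  intro ev
  induction ev with
  | nil =>
    intro ρ g f _ hf hft hm hr
    rw [List.map_nil, List.nil_append]
    have := xrun_tests (tests.flatMap (top D H)) [] ρ (by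
      intro op hop
      rw [List.mem_flatMap] at hop
      obtain ⟨t, ht1, ht2⟩ := hop
      have h3 := ht t ht1
      have h4 := hft t ht1
      rw [hf] at h4
      have h5 := hr t.2 h3.2
      rw [h4] at h5
      have h6 := hm t.2 (by omega)
      have h7 := hm (t.2 + 1) (by omega)
      have h8 : (t.2 + 1) * D = t.2 * D + D := by ring
      unfold top at ht2
      simp only [List.mem_cons, List.not_mem_nil, or_false] at ht2
      rcases ht2 with rfl | rfl
      · refine ⟨rfl, ?_⟩
        simp only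
        omega
      · refine ⟨rfl, ?_⟩
        simp only
        omega) trivial
    rw [List.append_nil] at this
    exact this
  | cons p ev ih =>
    intro ρ g f hev hf hft hm hr
    have hp := hev p (by simp)
    obtain ⟨f', hf', hff⟩ := hf
    rw [List.map_cons, List.cons_append]
    refine ⟨fun h => absurd h (by simp [sop]), fun _ => ?_⟩
    rcases hff with hff | hff
    · left
      exact ih ρ g f' (fun p hp => hev p (by simp [hp])) hf'
        (fun t ht1 => by rw [← hff]; exact hft t ht1) hm hr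
    · right
      refine ih _ (fun X => sw p.1 p.2 (g X)) f' (fun p hp => hev p (by simp [hp])) hf'
        (fun t ht1 => by rw [← hff]; exact hft t ht1) ?_ ?_
      · intro s hs
        simp only [sop]
        rw [sw, if_neg (real_ne_mark hH hHD), if_neg (real_ne_mark hH hHD)]
        exact hm s hs
      · intro X hX
        simp only [sop]
        rw [sw_real (by omega), sw_sw]
        exact hr X hX

/-- **Completeness.** -/
theorem layout_of_path {K : ℕ} {ev tests : List (ℕ × ℕ)}
    (hev : ∀ p ∈ ev, p.1 < K ∧ p.2 < K ∧ p.1 ≠ p.2) (ht : ∀ t ∈ tests, t.1 < K ∧ t.2 < K)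
    {f : ℕ → ℕ} (hf : Path ev f) (hft : ∀ t ∈ tests, f t.2 = t.1) :
    HasLayout (crp K ev tests) (ww K ev) := by
  have hv := valid_opsOf hev ht
  refine layout_of_xrun hv ?_
  unfold opsOf
  refine xrun_tests _ _ _ ?_ ?_
  · intro op hop
    unfold sorted at hop
    rw [List.mem_map] at hop
    obtain ⟨i, hi, rfl⟩ := hop
    exact ⟨rfl, by simp⟩
  · exact xrun_path (K := K) (by unfold hh; omega) (by unfold dd hh; omega) ht ev _ id f hev hf
      hft (fun s _ => rfl) (fun X _ => rfl)

/-- The channel routing problem has a layout of the given width if and only if the tokens can be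
moved as required. -/
theorem layout_iff {K : ℕ} {ev tests : List (ℕ × ℕ)}
    (hev : ∀ p ∈ ev, p.1 < K ∧ p.2 < K ∧ p.1 ≠ p.2) (ht : ∀ t ∈ tests, t.1 < K ∧ t.2 < K) :
    (∃ w ≤ ww K ev, HasLayout (crp K ev tests) w) ↔
      ∃ f, Path ev f ∧ ∀ t ∈ tests, f t.2 = t.1 := by
  constructor
  · rintro ⟨w, hw, h⟩
    exact path_of_layout hev ht hw h
  · rintro ⟨f, hf, hft⟩
    exact ⟨_, le_rfl, layout_of_path hev ht hf hft⟩

/-! ### Properties of paths -/

theorem path_append {e1 e2 : List (ℕ × ℕ)} {f : ℕ → ℕ} :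
    Path (e1 ++ e2) f ↔ ∃ f1 f2, Path e1 f1 ∧ Path e2 f2 ∧ ∀ x, f x = f2 (f1 x) := by
  induction e1 generalizing f with
  | nil =>
    constructor
    · intro h
      exact ⟨id, f, fun _ => rfl, h, fun _ => rfl⟩
    · rintro ⟨f1, f2, h1, h2, h3⟩
      have : f = f2 := by
        funext x
        rw [h3, h1]
      rw [List.nil_append, this]
      exact h2
  | cons e e1 ih =>
    constructor
    · rintro ⟨g, hg, h⟩
      obtain ⟨f1, f2, h1, h2, h3⟩ := ih.1 hg
      rcases h with h | h
      · exact ⟨f1, f2, ⟨f1, h1, Or.inl fun _ => rfl⟩, h2, fun x => by rw [h, h3]⟩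
      · exact ⟨fun x => f1 (sw e.1 e.2 x), f2, ⟨f1, h1, Or.inr fun _ => rfl⟩, h2,
          fun x => by rw [h, h3]⟩
    · rintro ⟨f1, f2, ⟨g, hg, h1⟩, h2, h3⟩
      refine ⟨fun x => f2 (g x), ih.2 ⟨g, f2, hg, h2, fun _ => rfl⟩, ?_⟩
      rcases h1 with h1 | h1
      · exact Or.inl fun x => by rw [h3, h1]
      · exact Or.inr fun x => by rw [h3, h1]

theorem path_closed {s : Set ℕ} : ∀ {ev : List (ℕ × ℕ)} {f : ℕ → ℕ}, Path ev f →
    (∀ p ∈ ev, p.1 ∈ s ↔ p.2 ∈ s) → ∀ x, f x ∈ s ↔ x ∈ s := by
  intro ev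
  induction ev with
  | nil => intro f hf _ x; rw [hf]
  | cons e ev ih =>
    rintro f ⟨g, hg, h⟩ hs x
    have h1 := ih hg (fun p hp => hs p (by simp [hp]))
    have h2 := hs e (by simp)
    rcases h with h | h
    · rw [h, h1]
    · rw [h, h1]
      unfold sw
      split_ifs with h3 h4
      · rw [h3, h2]
      · rw [h4, h2]
      · rfl

theorem path_fixed {ev : List (ℕ × ℕ)} {f : ℕ → ℕ} (hf : Path ev f) {x : ℕ}
    (hx : ∀ p ∈ ev, p.1 ≠ x ∧ p.2 ≠ x) : f x = x := by
  have := path_closed (s := {x}) hf (fun p hp => by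
    have h1 := hx p hp
    simp only [Set.mem_singleton_iff]
    exact ⟨fun h => absurd h h1.1, fun h => absurd h h1.2⟩) x
  simpa using this

theorem path_inj : ∀ {ev : List (ℕ × ℕ)} {f : ℕ → ℕ}, Path ev f → ∀ x y, f x = f y → x = y := by
  intro ev
  induction ev with
  | nil => intro f hf x y h; rwa [hf, hf] at h
  | cons e ev ih =>
    rintro f ⟨g, hg, h⟩ x y hxy
    rcases h with h | h
    · rw [h, h] at hxy
      exact ih hg _ _ hxy
    · rw [h, h] at hxy
      have := ih hg _ _ hxy
      rw [← sw_sw e.1 e.2 x, this, sw_sw]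

/-! ### The clause gadget -/

/-- The wires of the gadget, by local numbers. -/
def loc (b u1 u2 u3 : ℕ) (p : ℕ) : ℕ :=
  if p = 6 then u1 else if p = 7 then u2 else if p = 8 then u3 else b + p

/-- The events of the gadget, by local numbers. -/
def lev : List (ℕ × ℕ) :=
  [(0, 1), (0, 2), (0, 6), (6, 3), (1, 7), (7, 4), (2, 8), (8, 5), (3, 4), (3, 5)]

/-- Movement by local numbers. -/
def go : List (ℕ × ℕ) → List Bool → ℕ → ℕ
  | [], _, p => p
  | _ :: _, [], p => p
  | e :: ev, c :: bs, p => go ev bs (if c then (if p = e.1 then e.2 else if p = e.2 then e.1 else p)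
      else p)

theorem loc_inj {b u1 u2 u3 : ℕ} (h1 : u1 < b) (h2 : u2 < b) (h3 : u3 < b) (h12 : u1 ≠ u2)
    (h13 : u1 ≠ u3) (h23 : u2 ≠ u3) {p q : ℕ} (hp : p < 9) (hq : q < 9)
    (h : loc b u1 u2 u3 p = loc b u1 u2 u3 q) : p = q := by
  unfold loc at h
  split_ifs at h <;> omega

theorem go_lt : ∀ (ev : List (ℕ × ℕ)) (bs : List Bool) (p : ℕ), (∀ e ∈ ev, e.1 < 9 ∧ e.2 < 9) →
    p < 9 → go ev bs p < 9 := by
  intro ev
  induction ev with
  | nil => intro bs p _ hp; exact hp
  | cons e ev ih =>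
    intro bs p he hp
    cases bs with
    | nil => exact hp
    | cons c bs =>
      have h1 := he e (by simp)
      refine ih bs _ (fun e he' => he e (by simp [he'])) ?_
      split_ifs <;> omega

theorem path_local {e : ℕ → ℕ} (hinj : ∀ p < 9, ∀ q < 9, e p = e q → p = q) :
    ∀ (ev : List (ℕ × ℕ)) (f : ℕ → ℕ), (∀ x ∈ ev, x.1 < 9 ∧ x.2 < 9) →
      Path (ev.map (fun x => (e x.1, e x.2))) f →
      ∃ bs : List Bool, bs.length = ev.length ∧ ∀ p < 9, f (e p) = e (go ev bs p) := by
  intro ev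
  induction ev with
  | nil =>
    intro f _ hf
    exact ⟨[], rfl, fun p _ => hf _⟩
  | cons x ev ih =>
    rintro f hx ⟨g, hg, h⟩
    obtain ⟨bs, h1, h2⟩ := ih g (fun y hy => hx y (by simp [hy])) hg
    have hx' := hx x (by simp)
    rcases h with h | h
    · refine ⟨false :: bs, by simp [h1], ?_⟩
      intro p hp
      rw [h, h2 p hp]
      rfl
    · refine ⟨true :: bs, by simp [h1], ?_⟩
      intro p hp
      have h3 : sw (e x.1) (e x.2) (e p) =
          e (if p = x.1 then x.2 else if p = x.2 then x.1 else p) := by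
        unfold sw
        by_cases e1 : p = x.1
        · rw [if_pos (by rw [e1]), if_pos e1]
        · rw [if_neg (fun h => e1 (hinj p hp _ hx'.1 h)), if_neg e1]
          by_cases e2 : p = x.2
          · rw [if_pos (by rw [e2]), if_pos e2]
          · rw [if_neg (fun h => e2 (hinj p hp _ hx'.2 h)), if_neg e2]
      rw [h]
      simp only
      rw [h3, h2 _ (by split_ifs <;> omega)]
      rfl

theorem path_exists {e : ℕ → ℕ} (hinj : ∀ p < 9, ∀ q < 9, e p = e q → p = q) :
    ∀ (ev : List (ℕ × ℕ)) (bs : List Bool), (∀ x ∈ ev, x.1 < 9 ∧ x.2 < 9) →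
      bs.length = ev.length →
      ∃ f, Path (ev.map (fun x => (e x.1, e x.2))) f ∧ ∀ p < 9, f (e p) = e (go ev bs p) := by
  intro ev
  induction ev with
  | nil =>
    intro bs _ _
    exact ⟨id, fun _ => rfl, fun p _ => rfl⟩
  | cons x ev ih =>
    intro bs hx hlen
    cases bs with
    | nil => simp at hlen
    | cons c bs =>
      obtain ⟨g, h1, h2⟩ := ih bs (fun y hy => hx y (by simp [hy])) (by simpa using hlen)
      have hx' := hx x (by simp)
      cases c with
      | false => exact ⟨g, ⟨g, h1, Or.inl fun _ => rfl⟩, fun p hp => by rw [h2 p hp]; rfl⟩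
      | true =>
        refine ⟨fun y => g (sw (e x.1) (e x.2) y), ⟨g, h1, Or.inr fun _ => rfl⟩, ?_⟩
        intro p hp
        have h3 : sw (e x.1) (e x.2) (e p) =
            e (if p = x.1 then x.2 else if p = x.2 then x.1 else p) := by
          unfold sw
          by_cases e1 : p = x.1
          · rw [if_pos (by rw [e1]), if_pos e1]
          · rw [if_neg (fun h => e1 (hinj p hp _ hx'.1 h)), if_neg e1]
            by_cases e2 : p = x.2
            · rw [if_pos (by rw [e2]), if_pos e2]
            · rw [if_neg (fun h => e2 (hinj p hp _ hx'.2 h)), if_neg e2]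
        simp only
        rw [h3, h2 _ (by split_ifs <;> omega)]
        rfl

/-- The facts about the gadget, checked for all choices. -/
def fact (bs : List Bool) : Bool :=
  (decide (go lev bs 6 < 6) || decide (go lev bs 6 = 6)) &&
  (decide (go lev bs 7 < 6) || decide (go lev bs 7 = 7)) &&
  (decide (go lev bs 8 < 6) || decide (go lev bs 8 = 8)) &&
  (!decide (go lev bs 0 = 3) || decide (go lev bs 6 = 0) || decide (go lev bs 7 = 1) ||
    decide (go lev bs 8 = 2))

theorem fact_all : ∀ b0 b1 b2 b3 b4 b5 b6 b7 b8 b9 : Bool,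
    fact [b0, b1, b2, b3, b4, b5, b6, b7, b8, b9] = true := by
  decide

end Pool.Agent.W947.CR
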