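import Pool.Agent.W947.CR.Swap
import Pool.Agent.NPC.Sat2

/-!
# 3SAT as a problem of moving tokens: the equivalence
-/

namespace Pool.Agent.W947.CR

open Pool.Agent.NPC

/-- The wire of a literal. -/
def lw (p : Bool × ℕ) : ℕ := if p.1 then 2 * p.2 else 2 * p.2 + 1

/-- Clauses with their numbers. -/
abbrev Cl : Type := (Lit ℕ × Lit ℕ × Lit ℕ) × ℕ

/-- The local wires of a clause. -/
def cloc (n : ℕ) (p : Cl) : ℕ → ℕ := loc (2 * n + 6 * p.2) (lw p.1.1) (lw p.1.2.1) (lw p.1.2.2)

/-- The events of a clause. -/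
def gad (n : ℕ) (p : Cl) : List (ℕ × ℕ) := lev.map (fun x => (cloc n p x.1, cloc n p x.2))

/-- The events of the variables. -/
def pairs (L : List ℕ) : List (ℕ × ℕ) := L.map (fun j => (2 * j, 2 * j + 1))

/-- All events. -/
def evs (φ : List (Lit ℕ × Lit ℕ × Lit ℕ)) : List (ℕ × ℕ) :=
  pairs (List.range (3 * φ.length)) ++ (φ.zipIdx.flatMap (gad (3 * φ.length)) ++
    pairs (List.range (3 * φ.length)))

/-- All tests. -/
def tsts (φ : List (Lit ℕ × Lit ℕ × Lit ℕ)) : List (ℕ × ℕ) :=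
  (List.range (3 * φ.length)).map (fun j => (2 * j, 2 * j)) ++
    (List.range φ.length).map (fun i => (2 * (3 * φ.length) + 6 * i + 3,
      2 * (3 * φ.length) + 6 * i))

/-- The number of wires. -/
def kk (φ : List (Lit ℕ × Lit ℕ × Lit ℕ)) : ℕ := 2 * (3 * φ.length) + 6 * φ.length

/-- A good clause: three different variables, all small. -/
def GC (n : ℕ) (c : Lit ℕ × Lit ℕ × Lit ℕ) : Prop :=
  (c.1.2 < n ∧ c.2.1.2 < n ∧ c.2.2.2 < n) ∧ c.1.2 ≠ c.2.1.2 ∧ c.1.2 ≠ c.2.2.2 ∧
    c.2.1.2 ≠ c.2.2.2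

theorem lw_lt {p : Bool × ℕ} {n : ℕ} (h : p.2 < n) : lw p < 2 * n := by
  unfold lw; split_ifs <;> omega

theorem lw_div (p : Bool × ℕ) : lw p / 2 = p.2 := by
  unfold lw; split_ifs <;> omega

theorem lw_inj {p q : Bool × ℕ} (h : lw p = lw q) : p = q := by
  obtain ⟨a, b⟩ := p
  obtain ⟨a', b'⟩ := q
  unfold lw at h
  cases a <;> cases a' <;> simp at h ⊢ <;> omega

theorem cloc_inj {n : ℕ} {c : Cl} (hc : GC n c.1) {p q : ℕ} (hp : p < 9) (hq : q < 9)
    (h : cloc n c p = cloc n c q) : p = q := by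
  obtain ⟨⟨h1, h2, h3⟩, h4, h5, h6⟩ := hc
  have e1 := lw_lt h1
  have e2 := lw_lt h2
  have e3 := lw_lt h3
  refine loc_inj (by omega) (by omega) (by omega) ?_ ?_ ?_ hp hq h
  · intro h7; exact h4 (congrArg Prod.snd (lw_inj h7))
  · intro h7; exact h5 (congrArg Prod.snd (lw_inj h7))
  · intro h7; exact h6 (congrArg Prod.snd (lw_inj h7))

theorem lev_lt : ∀ e ∈ lev, e.1 < 9 ∧ e.2 < 9 ∧ e.1 ≠ e.2 := by decide

/-- The wires of a gadget. -/
theorem cloc_cases {n : ℕ} (c : Cl) {p : ℕ} (hp : p < 9) :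
    (p < 6 ∧ cloc n c p = 2 * n + 6 * c.2 + p) ∨ (p = 6 ∧ cloc n c p = lw c.1.1) ∨
      (p = 7 ∧ cloc n c p = lw c.1.2.1) ∨ (p = 8 ∧ cloc n c p = lw c.1.2.2) := by
  unfold cloc loc
  split_ifs <;> omega

theorem gad_wires {n : ℕ} {c : Cl} {e : ℕ × ℕ} (he : e ∈ gad n c) (x : ℕ)
    (h1 : x ≠ lw c.1.1) (h2 : x ≠ lw c.1.2.1) (h3 : x ≠ lw c.1.2.2)
    (h4 : x < 2 * n + 6 * c.2 ∨ 2 * n + 6 * c.2 + 6 ≤ x) : e.1 ≠ x ∧ e.2 ≠ x := by
  unfold gad at he
  rw [List.mem_map] at he
  obtain ⟨y, hy, rfl⟩ := he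
  have h5 := lev_lt y hy
  have h6 := cloc_cases (n := n) c h5.1
  have h7 := cloc_cases (n := n) c h5.2.1
  simp only
  omega

theorem gad_sound {n : ℕ} {c : Cl} (hc : GC n c.1) {g : ℕ → ℕ} (hg : Path (gad n c) g) :
    (∀ x < 2 * n, g x = x ∨ (2 * n + 6 * c.2 ≤ g x ∧ g x < 2 * n + 6 * c.2 + 6)) ∧
    (g (2 * n + 6 * c.2) = 2 * n + 6 * c.2 + 3 →
      ∃ u, (u = lw c.1.1 ∨ u = lw c.1.2.1 ∨ u = lw c.1.2.2) ∧ 2 * n + 6 * c.2 ≤ g u ∧
        g u < 2 * n + 6 * c.2 + 6) := by
  obtain ⟨bs, h1, h2⟩ := path_local (e := cloc n c) (fun p hp q hq h => cloc_inj hc hp hq h) lev g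
    (fun e he => ⟨(lev_lt e he).1, (lev_lt e he).2.1⟩) hg
  have hf : fact bs = true := by
    match bs, h1 with
    | [b0, b1, b2, b3, b4, b5, b6, b7, b8, b9], _ => exact fact_all _ _ _ _ _ _ _ _ _ _
  unfold fact at hf
  simp only [Bool.and_eq_true, Bool.or_eq_true, decide_eq_true_eq, Bool.not_eq_true',
    decide_eq_false_iff_not] at hf
  obtain ⟨⟨⟨f6, f7⟩, f8⟩, f0⟩ := hf
  have hlt : ∀ p < 9, go lev bs p < 9 := fun p hp => go_lt lev bs p
    (fun e he => ⟨(lev_lt e he).1, (lev_lt e he).2.1⟩) hp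
  have c0 : cloc n c 0 = 2 * n + 6 * c.2 := by simp [cloc, loc]
  have c3 : cloc n c 3 = 2 * n + 6 * c.2 + 3 := by simp [cloc, loc]
  have c6 : cloc n c 6 = lw c.1.1 := by simp [cloc, loc]
  have c7 : cloc n c 7 = lw c.1.2.1 := by simp [cloc, loc]
  have c8 : cloc n c 8 = lw c.1.2.2 := by simp [cloc, loc]
  have hsm : ∀ p < 6, 2 * n + 6 * c.2 ≤ cloc n c p ∧ cloc n c p < 2 * n + 6 * c.2 + 6 := by
    intro p hp
    have := cloc_cases (n := n) c (show p < 9 by omega)
    omega
  have g6 := h2 6 (by omega)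
  have g7 := h2 7 (by omega)
  have g8 := h2 8 (by omega)
  have g0 := h2 0 (by omega)
  rw [c6] at g6
  rw [c7] at g7
  rw [c8] at g8
  rw [c0] at g0
  refine ⟨?_, ?_⟩
  · intro x hx
    by_cases e1 : x = lw c.1.1
    · rw [e1, g6]
      rcases f6 with h | h
      · exact Or.inr (hsm _ h)
      · left; rw [h, c6]
    · by_cases e2 : x = lw c.1.2.1
      · rw [e2, g7]
        rcases f7 with h | h
        · exact Or.inr (hsm _ h)
        · left; rw [h, c7]
      · by_cases e3 : x = lw c.1.2.2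
        · rw [e3, g8]
          rcases f8 with h | h
          · exact Or.inr (hsm _ h)
          · left; rw [h, c8]
        · left
          exact path_fixed hg (fun e he => gad_wires he x e1 e2 e3 (by omega))
  · intro h3
    have h4 : go lev bs 0 = 3 := by
      refine cloc_inj hc (hlt 0 (by omega)) (by omega) (n := n) ?_
      rw [← g0, h3, c3]
    rcases f0 with ((h | h) | h) | h
    · exact absurd h4 h
    · exact ⟨_, Or.inl rfl, by rw [g6, h]; exact hsm _ (by omega)⟩
    · exact ⟨_, Or.inr (Or.inl rfl), by rw [g7, h]; exact hsm _ (by omega)⟩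
    · exact ⟨_, Or.inr (Or.inr rfl), by rw [g8, h]; exact hsm _ (by omega)⟩

/-- The gadget can be used if one of its literals is free. -/
theorem gad_complete {n : ℕ} {c : Cl} (hc : GC n c.1) {u : ℕ}
    (hu : u = lw c.1.1 ∨ u = lw c.1.2.1 ∨ u = lw c.1.2.2) :
    ∃ g, Path (gad n c) g ∧ g (2 * n + 6 * c.2) = 2 * n + 6 * c.2 + 3 ∧
      ∀ x < 2 * n, x ≠ u → g x = x := by
  have c0 : cloc n c 0 = 2 * n + 6 * c.2 := by simp [cloc, loc]
  have c3 : cloc n c 3 = 2 * n + 6 * c.2 + 3 := by simp [cloc, loc]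
  have c6 : cloc n c 6 = lw c.1.1 := by simp [cloc, loc]
  have c7 : cloc n c 7 = lw c.1.2.1 := by simp [cloc, loc]
  have c8 : cloc n c 8 = lw c.1.2.2 := by simp [cloc, loc]
  have key : ∀ (bs : List Bool) (k : ℕ), bs.length = 10 → go lev bs 0 = 3 →
      (k = 6 ∨ go lev bs 6 = 6) → (k = 7 ∨ go lev bs 7 = 7) → (k = 8 ∨ go lev bs 8 = 8) →
      (k = 6 → u = lw c.1.1) → (k = 7 → u = lw c.1.2.1) → (k = 8 → u = lw c.1.2.2) →
      ∃ g, Path (gad n c) g ∧ g (2 * n + 6 * c.2) = 2 * n + 6 * c.2 + 3 ∧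
        ∀ x < 2 * n, x ≠ u → g x = x := by
    intro bs k hlen h0 h6 h7 h8 u6 u7 u8
    obtain ⟨g, h1, h2⟩ := path_exists (e := cloc n c) (fun p hp q hq h => cloc_inj hc hp hq h) lev
      bs (fun e he => ⟨(lev_lt e he).1, (lev_lt e he).2.1⟩) hlen
    have g6 := h2 6 (by omega)
    have g7 := h2 7 (by omega)
    have g8 := h2 8 (by omega)
    have g0 := h2 0 (by omega)
    rw [c6] at g6
    rw [c7] at g7
    rw [c8] at g8
    rw [c0, h0, c3] at g0
    refine ⟨g, h1, g0, ?_⟩
    intro x hx hxu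
    by_cases e1 : x = lw c.1.1
    · rcases h6 with h | h
      · exact absurd (e1.trans (u6 h).symm) hxu
      · rw [e1, g6, h, c6]
    · by_cases e2 : x = lw c.1.2.1
      · rcases h7 with h | h
        · exact absurd (e2.trans (u7 h).symm) hxu
        · rw [e2, g7, h, c7]
      · by_cases e3 : x = lw c.1.2.2
        · rcases h8 with h | h
          · exact absurd (e3.trans (u8 h).symm) hxu
          · rw [e3, g8, h, c8]
        · exact path_fixed h1 (fun e he => gad_wires he x e1 e2 e3 (by omega))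
  rcases hu with hu | hu | hu
  · exact key [false, false, true, true, false, false, false, false, false, false] 6 rfl
      (by decide) (Or.inl rfl) (Or.inr (by decide)) (Or.inr (by decide)) (fun _ => hu)
      (fun h => absurd h (by decide)) (fun h => absurd h (by decide))
  · exact key [true, false, false, false, true, true, false, false, true, false] 7 rfl
      (by decide) (Or.inr (by decide)) (Or.inl rfl) (Or.inr (by decide))
      (fun h => absurd h (by decide)) (fun _ => hu) (fun h => absurd h (by decide))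
  · exact key [false, true, false, false, false, false, true, true, false, true] 8 rfl
      (by decide) (Or.inr (by decide)) (Or.inr (by decide)) (Or.inl rfl)
      (fun h => absurd h (by decide)) (fun h => absurd h (by decide)) (fun _ => hu)

/-! ### All gadgets -/

theorem gads_fixed {n : ℕ} {cs : List (Lit ℕ × Lit ℕ × Lit ℕ)} (hcs : ∀ c ∈ cs, GC n c) {i0 : ℕ}
    {f : ℕ → ℕ} (hf : Path ((cs.zipIdx i0).flatMap (gad n)) f) {x : ℕ} (h1 : 2 * n ≤ x)
    (h2 : x < 2 * n + 6 * i0 ∨ 2 * n + 6 * (i0 + cs.length) ≤ x) : f x = x := by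
  refine path_fixed hf ?_
  intro e he
  rw [List.mem_flatMap] at he
  obtain ⟨p, hp, he⟩ := he
  obtain ⟨c, i⟩ := p
  obtain ⟨h3, h4⟩ := List.mk_mem_zipIdx_iff_le_and_getElem?_sub.1 hp
  obtain ⟨h5, h6⟩ := List.getElem?_eq_some_iff.1 h4
  have hc := hcs c (h6 ▸ List.getElem_mem h5)
  have e1 := lw_lt hc.1.1
  have e2 := lw_lt hc.1.2.1
  have e3 := lw_lt hc.1.2.2
  exact gad_wires he x (by simp only; omega) (by simp only; omega) (by simp only; omega)
    (by simp only; omega)

theorem gads_sound {n : ℕ} : ∀ (cs : List (Lit ℕ × Lit ℕ × Lit ℕ)) (i0 : ℕ) (f : ℕ → ℕ),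
    (∀ c ∈ cs, GC n c) → Path ((cs.zipIdx i0).flatMap (gad n)) f →
    (∀ x < 2 * n, f x < 2 * n → f x = x) ∧
    ∀ p ∈ cs.zipIdx i0, f (2 * n + 6 * p.2) = 2 * n + 6 * p.2 + 3 →
      ∃ u, (u = lw p.1.1 ∨ u = lw p.1.2.1 ∨ u = lw p.1.2.2) ∧ 2 * n ≤ f u := by
  intro cs
  induction cs with
  | nil =>
    intro i0 f _ hf
    refine ⟨fun x _ _ => hf x, fun p hp => ?_⟩
    simp at hp
  | cons c cs ih =>
    intro i0 f hcs hf
    rw [List.zipIdx_cons, List.flatMap_cons, path_append] at hf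
    obtain ⟨g, f', hg, hf', hff⟩ := hf
    have hcs' : ∀ c ∈ cs, GC n c := fun c hc => hcs c (by simp [hc])
    obtain ⟨h1, h2⟩ := gad_sound (c := (c, i0)) (hcs c (by simp)) hg
    obtain ⟨h3, h4⟩ := ih (i0 + 1) f' hcs' hf'
    have hfix : ∀ x, 2 * n + 6 * i0 ≤ x → x < 2 * n + 6 * i0 + 6 → f' x = x := by
      intro x hx1 hx2
      exact gads_fixed hcs' hf' (by omega) (by omega)
    refine ⟨?_, ?_⟩
    · intro x hx hfx
      rcases h1 x hx with h5 | h5
      · rw [hff, h5] at hfx ⊢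
        exact h3 x hx hfx
      · rw [hff, hfix _ h5.1 h5.2] at hfx
        simp only at h5
        omega
    · intro p hp hfp
      rw [List.zipIdx_cons, List.mem_cons] at hp
      rcases hp with rfl | hp
      · simp only at hfp h2 ⊢
        have h5 : g (2 * n + 6 * i0) = 2 * n + 6 * i0 + 3 := by
          refine path_inj hf' _ _ ?_
          rw [← hff, hfp, hfix _ (by omega) (by omega)]
        obtain ⟨u, hu, h6, h7⟩ := h2 h5
        refine ⟨u, hu, ?_⟩
        rw [hff, hfix _ h6 h7]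
        omega
      · obtain ⟨c', i⟩ := p
        obtain ⟨h5, h6⟩ := List.mk_mem_zipIdx_iff_le_and_getElem?_sub.1 hp
        obtain ⟨h7, h8⟩ := List.getElem?_eq_some_iff.1 h6
        have hc' := hcs' c' (h8 ▸ List.getElem_mem h7)
        have e1 := lw_lt hc'.1.1
        have e2 := lw_lt hc'.1.2.1
        have e3 := lw_lt hc'.1.2.2
        have hc0 := hcs c (by simp)
        have e1' := lw_lt hc0.1.1
        have e2' := lw_lt hc0.1.2.1
        have e3' := lw_lt hc0.1.2.2
        have hg0 : g (2 * n + 6 * i) = 2 * n + 6 * i :=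
          path_fixed hg (fun e he => gad_wires he _ (by simp only; omega) (by simp only; omega)
            (by simp only; omega) (by simp only; omega))
        rw [hff] at hfp
        simp only at hfp
        rw [hg0] at hfp
        obtain ⟨u, hu, h9⟩ := h4 _ hp hfp
        refine ⟨u, hu, ?_⟩
        simp only at hu
        have hu2 : u < 2 * n := by omega
        rcases h1 u hu2 with h10 | h10
        · rw [hff, h10]
          exact h9
        · rw [hff, hfix _ h10.1 h10.2]
          simp only at h10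
          omega

theorem gads_complete {n : ℕ} (fr : ℕ → Prop) :
    ∀ (cs : List (Lit ℕ × Lit ℕ × Lit ℕ)) (i0 : ℕ), (∀ c ∈ cs, GC n c) →
    (∀ c ∈ cs, fr (lw c.1) ∨ fr (lw c.2.1) ∨ fr (lw c.2.2)) →
    ∃ f, Path ((cs.zipIdx i0).flatMap (gad n)) f ∧ (∀ x < 2 * n, ¬ fr x → f x = x) ∧
      ∀ i, i0 ≤ i → i < i0 + cs.length → f (2 * n + 6 * i) = 2 * n + 6 * i + 3 := by
  intro cs
  induction cs with
  | nil =>
    intro i0 _ _
    refine ⟨id, fun _ => rfl, fun _ _ _ => rfl, fun i h1 h2 => ?_⟩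
    rw [List.length_nil] at h2
    omega
  | cons c cs ih =>
    intro i0 hcs hfr
    have hcs' : ∀ c ∈ cs, GC n c := fun c hc => hcs c (by simp [hc])
    obtain ⟨f', hf', h1, h2⟩ := ih (i0 + 1) hcs' (fun c hc => hfr c (by simp [hc]))
    have hc0 := hcs c (by simp)
    obtain ⟨u, hu, hfu⟩ : ∃ u, (u = lw c.1 ∨ u = lw c.2.1 ∨ u = lw c.2.2) ∧ fr u := by
      rcases hfr c (by simp) with h | h | h
      · exact ⟨_, Or.inl rfl, h⟩
      · exact ⟨_, Or.inr (Or.inl rfl), h⟩
      · exact ⟨_, Or.inr (Or.inr rfl), h⟩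
    obtain ⟨g, hg, h3, h4⟩ := gad_complete (c := (c, i0)) hc0 hu
    refine ⟨fun x => f' (g x), ?_, ?_, ?_⟩
    · rw [List.zipIdx_cons, List.flatMap_cons, path_append]
      exact ⟨g, f', hg, hf', fun _ => rfl⟩
    · intro x hx hfx
      simp only
      rw [h4 x hx (fun h => hfx (h ▸ hfu)), h1 x hx hfx]
    · intro i hi1 hi2
      simp only
      have e1' := lw_lt hc0.1.1
      have e2' := lw_lt hc0.1.2.1
      have e3' := lw_lt hc0.1.2.2
      rw [List.length_cons] at hi2
      rcases eq_or_lt_of_le hi1 with h5 | h5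
      · rw [← h5]
        simp only at h3
        rw [h3]
        exact gads_fixed hcs' hf' (by omega) (by omega)
      · have hg0 : g (2 * n + 6 * i) = 2 * n + 6 * i :=
          path_fixed hg (fun e he => gad_wires he _ (by simp only; omega) (by simp only; omega)
            (by simp only; omega) (by simp only; omega))
        rw [hg0]
        exact h2 i (by omega) (by omega)

/-! ### The variables -/

theorem pairs_fixed {L : List ℕ} {f : ℕ → ℕ} (hf : Path (pairs L) f) {x : ℕ}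
    (hx : ∀ j ∈ L, x ≠ 2 * j ∧ x ≠ 2 * j + 1) : f x = x := by
  refine path_fixed hf ?_
  intro e he
  unfold pairs at he
  rw [List.mem_map] at he
  obtain ⟨j, hj, rfl⟩ := he
  have := hx j hj
  exact ⟨this.1.symm, this.2.symm⟩

theorem pairs_exists (τ : ℕ → Bool) : ∀ L : List ℕ, L.Nodup → ∃ f, Path (pairs L) f ∧
    ∀ j ∈ L, f (2 * j) = (if τ j then 2 * j + 1 else 2 * j) ∧
      f (2 * j + 1) = (if τ j then 2 * j else 2 * j + 1) := by
  intro L
  induction L with
  | nil => intro _; exact ⟨id, fun _ => rfl, fun j hj => absurd hj List.not_mem_nil⟩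
  | cons j L ih =>
    intro hnd
    rw [List.nodup_cons] at hnd
    obtain ⟨f, hf, h⟩ := ih hnd.2
    have e1 : f (2 * j) = 2 * j := pairs_fixed hf (by
      intro k hk
      have : k ≠ j := fun h => hnd.1 (h ▸ hk)
      omega)
    have e2 : f (2 * j + 1) = 2 * j + 1 := pairs_fixed hf (by
      intro k hk
      have : k ≠ j := fun h => hnd.1 (h ▸ hk)
      omega)
    by_cases hτ : τ j = true
    · refine ⟨fun x => f (sw (2 * j) (2 * j + 1) x), ⟨f, hf, Or.inr fun _ => rfl⟩, ?_⟩
      intro k hk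
      rw [List.mem_cons] at hk
      by_cases hkj : k = j
      · subst hkj
        simp only [hτ, if_true]
        refine ⟨?_, ?_⟩
        · rw [sw, if_pos rfl, e2]
        · rw [sw, if_neg (by omega), if_pos rfl, e1]
      · have hkL : k ∈ L := by
          rcases hk with hk | hk
          · exact absurd hk hkj
          · exact hk
        have s1 : sw (2 * j) (2 * j + 1) (2 * k) = 2 * k := by
          rw [sw, if_neg (by omega), if_neg (by omega)]
        have s2 : sw (2 * j) (2 * j + 1) (2 * k + 1) = 2 * k + 1 := by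
          rw [sw, if_neg (by omega), if_neg (by omega)]
        simp only
        rw [s1, s2]
        exact h k hkL
    · refine ⟨f, ⟨f, hf, Or.inl fun _ => rfl⟩, ?_⟩
      intro k hk
      rw [List.mem_cons] at hk
      by_cases hkj : k = j
      · subst hkj
        rw [if_neg hτ, if_neg hτ]
        exact ⟨e1, e2⟩
      · have hkL : k ∈ L := by
          rcases hk with hk | hk
          · exact absurd hk hkj
          · exact hk
        exact h k hkL

/-- **3SAT as a problem of moving tokens.** -/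
theorem sat_iff {φ : List (Lit ℕ × Lit ℕ × Lit ℕ)} (hφ : ∀ c ∈ φ, GC (3 * φ.length) c) :
    SAT3 φ ↔ ∃ f, Path (evs φ) f ∧ ∀ t ∈ tsts φ, f t.2 = t.1 := by
  obtain ⟨n, hn⟩ : ∃ n, n = 3 * φ.length := ⟨_, rfl⟩
  unfold evs tsts
  rw [← hn] at hφ ⊢
  constructor
  · rintro ⟨τ, hτ⟩
    obtain ⟨f1, hf1, h1⟩ := pairs_exists τ (List.range n) List.nodup_range
    obtain ⟨f2, hf2, h2, h3⟩ := gads_complete (n := n) (fun u => ∃ v, u = lw (τ v, v)) φ 0 hφ (by
      intro c hc
      rcases hτ c hc with h | h | h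
      · exact Or.inl ⟨c.1.2, by rw [h]⟩
      · exact Or.inr (Or.inl ⟨c.2.1.2, by rw [h]⟩)
      · exact Or.inr (Or.inr ⟨c.2.2.2, by rw [h]⟩))
    refine ⟨fun x => f1 (f2 (f1 x)), ?_, ?_⟩
    · rw [path_append]
      refine ⟨f1, fun x => f1 (f2 x), hf1, ?_, fun _ => rfl⟩
      rw [path_append]
      exact ⟨f2, f1, hf2, hf1, fun _ => rfl⟩
    · intro t ht
      rw [List.mem_append, List.mem_map, List.mem_map] at ht
      rcases ht with ⟨j, hj, rfl⟩ | ⟨i, hi, rfl⟩
      · obtain ⟨e1, e2⟩ := h1 j hj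
        rw [List.mem_range] at hj
        simp only
        have hnf : ¬ ∃ v, f1 (2 * j) = lw (τ v, v) := by
          rintro ⟨v, hv⟩
          have h5 := lw_div (τ v, v)
          rw [← hv, e1] at h5
          simp only at h5
          have h6 : v = j := by split_ifs at h5 <;> omega
          subst h6
          rw [e1] at hv
          unfold lw at hv
          split_ifs at hv <;> omega
        have hlt : f1 (2 * j) < 2 * n := by
          rw [e1]; split_ifs <;> omega
        rw [h2 _ hlt hnf, e1]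
        by_cases hτj : τ j = true
        · rw [if_pos hτj, e2, if_pos hτj]
        · rw [if_neg hτj, e1, if_neg hτj]
      · rw [List.mem_range] at hi
        simp only
        have e1 : f1 (2 * n + 6 * i) = 2 * n + 6 * i := pairs_fixed hf1 (by
          intro j hj
          rw [List.mem_range] at hj
          omega)
        have e2 : f1 (2 * n + 6 * i + 3) = 2 * n + 6 * i + 3 := pairs_fixed hf1 (by
          intro j hj
          rw [List.mem_range] at hj
          omega)
        rw [e1, h3 i (Nat.zero_le _) (by omega), e2]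
  · rintro ⟨f, hf, hft⟩
    rw [path_append] at hf
    obtain ⟨f1, f', hf1, hf', hff⟩ := hf
    rw [path_append] at hf'
    obtain ⟨f2, f3, hf2, hf3, hff'⟩ := hf'
    obtain ⟨h1, h2⟩ := gads_sound φ 0 f2 hφ hf2
    have hbig : ∀ {g : ℕ → ℕ}, Path (pairs (List.range n)) g → ∀ x, 2 * n ≤ x → g x = x := by
      intro g hg x hx
      refine pairs_fixed hg ?_
      intro j hj
      rw [List.mem_range] at hj
      omega
    have hz : ∀ v < n, f2 (f1 (2 * v)) < 2 * n := by
      intro v hv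
      by_contra hcon
      have h3 := hft (2 * v, 2 * v) (List.mem_append_left _ (List.mem_map.2
        ⟨v, List.mem_range.2 hv, rfl⟩))
      simp only at h3
      rw [hff, hff', hbig hf3 _ (by omega)] at h3
      omega
    have hz1 : ∀ v, f1 (2 * v) = 2 * v ∨ f1 (2 * v) = 2 * v + 1 := by
      intro v
      have := (path_closed (s := {2 * v, 2 * v + 1}) hf1 (by
        intro p hp
        unfold pairs at hp
        rw [List.mem_map] at hp
        obtain ⟨j, _, rfl⟩ := hp
        simp only [Set.mem_insert_iff, Set.mem_singleton_iff]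
        omega) (2 * v)).2 (by simp)
      simpa using this
    refine ⟨fun v => decide (f1 (2 * v) = 2 * v + 1), ?_⟩
    intro c hc
    obtain ⟨i, hi, hci⟩ := List.getElem_of_mem hc
    have hmem : (c, i) ∈ φ.zipIdx 0 := by
      rw [List.mk_mem_zipIdx_iff_le_and_getElem?_sub]
      refine ⟨Nat.zero_le _, ?_⟩
      rw [Nat.sub_zero, List.getElem?_eq_getElem hi, hci]
    have h3 := hft (2 * n + 6 * i + 3, 2 * n + 6 * i) (List.mem_append_right _ (List.mem_map.2
      ⟨i, List.mem_range.2 hi, rfl⟩))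
    simp only at h3
    rw [hff, hff', hbig hf1 _ (by omega)] at h3
    have h4 : f2 (2 * n + 6 * i) = 2 * n + 6 * i + 3 := by
      refine path_inj hf3 _ _ ?_
      rw [h3, hbig hf3 _ (by omega)]
    obtain ⟨u, hu, h5⟩ := h2 (c, i) hmem h4
    have hGC := hφ c hc
    have key : ∀ l : Lit ℕ, l.2 < n → u = lw l → decide (f1 (2 * l.2) = 2 * l.2 + 1) = l.1 := by
      intro l hl hul
      have h6 := hz l.2 hl
      have h7 : f1 (2 * l.2) ≠ u := by
        intro h7
        rw [h7] at h6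
        omega
      rw [hul] at h7
      unfold lw at h7
      rcases hz1 l.2 with h8 | h8
      · rw [h8] at h7 ⊢
        cases hl1 : l.1
        · simp
        · rw [hl1] at h7
          simp at h7
      · rw [h8] at h7 ⊢
        cases hl1 : l.1
        · rw [hl1] at h7
          simp at h7
        · simp
    rcases hu with hu | hu | hu
    · exact Or.inl (key _ hGC.1.1 hu)
    · exact Or.inr (Or.inl (key _ hGC.1.2.1 hu))
    · exact Or.inr (Or.inr (key _ hGC.1.2.2 hu))

/-- The events and the tests are valid. -/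
theorem evs_valid {φ : List (Lit ℕ × Lit ℕ × Lit ℕ)} (hφ : ∀ c ∈ φ, GC (3 * φ.length) c) :
    ∀ p ∈ evs φ, p.1 < kk φ ∧ p.2 < kk φ ∧ p.1 ≠ p.2 := by
  intro p hp
  unfold evs at hp
  unfold kk
  have hpairs : p ∈ pairs (List.range (3 * φ.length)) →
      p.1 < 2 * (3 * φ.length) + 6 * φ.length ∧ p.2 < 2 * (3 * φ.length) + 6 * φ.length ∧
        p.1 ≠ p.2 := by
    intro hp
    unfold pairs at hp
    rw [List.mem_map] at hp
    obtain ⟨j, hj, rfl⟩ := hp
    rw [List.mem_range] at hj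
    simp only
    omega
  rw [List.mem_append, List.mem_append] at hp
  rcases hp with hp | hp | hp
  · exact hpairs hp
  · rw [List.mem_flatMap] at hp
    obtain ⟨⟨c, i⟩, hci, hp⟩ := hp
    obtain ⟨_, h4⟩ := List.mk_mem_zipIdx_iff_le_and_getElem?_sub.1 hci
    obtain ⟨h5, h6⟩ := List.getElem?_eq_some_iff.1 h4
    have hc := hφ c (h6 ▸ List.getElem_mem h5)
    have e1 := lw_lt hc.1.1
    have e2 := lw_lt hc.1.2.1
    have e3 := lw_lt hc.1.2.2
    unfold gad at hp
    rw [List.mem_map] at hp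
    obtain ⟨x, hx, rfl⟩ := hp
    have h7 := lev_lt x hx
    have h8 := cloc_cases (n := 3 * φ.length) (c, i) h7.1
    have h9 := cloc_cases (n := 3 * φ.length) (c, i) h7.2.1
    refine ⟨?_, ?_, ?_⟩
    · simp only at h8 ⊢
      omega
    · simp only at h9 ⊢
      omega
    · intro h10
      exact h7.2.2 (cloc_inj hc h7.1 h7.2.1 h10)
  · exact hpairs hp

theorem tsts_valid (φ : List (Lit ℕ × Lit ℕ × Lit ℕ)) :
    ∀ t ∈ tsts φ, t.1 < kk φ ∧ t.2 < kk φ := by
  intro t ht
  unfold tsts at ht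
  unfold kk
  rw [List.mem_append, List.mem_map, List.mem_map] at ht
  rcases ht with ⟨j, hj, rfl⟩ | ⟨i, hi, rfl⟩
  · rw [List.mem_range] at hj
    simp only
    omega
  · rw [List.mem_range] at hi
    simp only
    omega

/-- The reduction. -/
def red (φ : List (Lit ℕ × Lit ℕ × Lit ℕ)) : CRP × ℕ :=
  (crp (kk φ) (evs φ) (tsts φ), ww (kk φ) (evs φ))

theorem red_correct {φ : List (Lit ℕ × Lit ℕ × Lit ℕ)} (h1 : Distinct3 φ) (h2 : Bounded3 φ) :
    SAT3 φ ↔ ∃ w ≤ (red φ).2, HasLayout (red φ).1 w := by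
  have hφ : ∀ c ∈ φ, GC (3 * φ.length) c := by
    intro c hc
    exact ⟨h2 c hc, h1 c hc⟩
  rw [sat_iff hφ]
  exact (layout_iff (evs_valid hφ) (tsts_valid φ)).symm

theorem red_legal (φ : List (Lit ℕ × Lit ℕ × Lit ℕ)) : Legal (red φ).1 :=
  legal_inst (by unfold ww; omega)

theorem red_dense {φ : List (Lit ℕ × Lit ℕ × Lit ℕ)} (h1 : Distinct3 φ) (h2 : Bounded3 φ) :
    Dense (red φ).1 :=
  dense_inst (valid_opsOf (evs_valid (fun c hc => ⟨h2 c hc, h1 c hc⟩)) (tsts_valid φ))

end Pool.Agent.W947.CR
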