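import Pool.Agent.W947.CR.Trace

/-!
# Segments between perfect columns and the test lemma
-/

namespace Pool.Agent.W947.CR

open SimpleGraph
open scoped Classical

/-- A walk with its ends. -/
abbrev SW (B : Set Pt) : Type := Σ (u v : Pt), (on B).Walk u v

variable {S : ℕ → Set Pt} {w : ℕ}

/-- Two perfect columns, and a set `V` of columns between them with vertical nets `v`. -/
structure Seg (S : ℕ → Set Pt) (w c' c'' : ℕ) (A' A'' : Finset ℕ) (V : Finset ℕ) (v : ℕ → ℕ)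
    (v' v'' : ℕ) (π' π'' : ℕ → ℕ) (z' z'' : ℕ) : Prop where
  lay : Lay S w
  lt : c' < c''
  P' : Perfect S w c' A' v' π' z'
  P'' : Perfect S w c'' A'' v'' π'' z''
  Vsub : ∀ c ∈ V, c' < c ∧ c < c''
  vtop : ∀ c ∈ V, Top S w (v c) c
  vbot : ∀ c ∈ V, Bot S (v c) c
  vinj : ∀ c ∈ V, ∀ d ∈ V, v c = v d → c = d
  vA' : ∀ c ∈ V, v c ∉ A'
  vA'' : ∀ c ∈ V, v c ∉ A''
  vv' : ∀ c ∈ V, v c ≠ v'
  vv'' : ∀ c ∈ V, v c ≠ v''

theorem Conn.confined {B : Set Pt} (hB : Conn B) {c' c'' : ℕ} {q : Pt} (hq : q ∈ B)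
    (h1 : c' < q.1) (h2 : q.1 < c'') (h3 : ∀ p ∈ B, p.1 ≠ c') (h4 : ∀ p ∈ B, p.1 ≠ c'') :
    ∀ p ∈ B, c' < p.1 ∧ p.1 < c'' := by
  intro p hp
  constructor
  · by_contra h
    obtain ⟨r, hr, hrc⟩ := hB.col hp hq c' (by omega) (by omega)
    exact h3 r hr hrc
  · by_contra h
    obtain ⟨r, hr, hrc⟩ := hB.col hq hp c'' (by omega) (by omega)
    exact h4 r hr hrc

section

variable {c' c'' : ℕ} {A' A'' V : Finset ℕ} {v : ℕ → ℕ} {v' v'' : ℕ} {π' π'' : ℕ → ℕ}
  {z' z'' : ℕ}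

theorem Seg.vconf (h : Seg S w c' c'' A' A'' V v v' v'' π' π'' z' z'') {c : ℕ} (hc : c ∈ V) :
    ∀ p ∈ S (v c), c' < p.1 ∧ p.1 < c'' :=
  (h.lay.conn (v c)).confined (h.vbot c hc).1 (h.Vsub c hc).1 (h.Vsub c hc).2
    (h.P'.other _ (h.vA' c hc) (h.vv' c hc)) (h.P''.other _ (h.vA'' c hc) (h.vv'' c hc))

theorem Seg.vcross (h : Seg S w c' c'' A' A'' V v v' v'' π' π'' z' z'') {c : ℕ} (hc : c ∈ V)
    {a b : ℕ} (hb : b ≤ w) : b + 1 - a ≤ (part (S (v c)) (blk c' c'' a b)).card := by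
  refine tracks_le ?_
  intro t h1 h2
  obtain ⟨r, hr, hrt⟩ := (h.lay.conn (v c)).track (h.vbot c hc).1 (h.vtop c hc).1 t (by simp)
    (by simp only; omega)
  have h3 := h.vconf hc r hr
  have h4 := h.lay.z_le _ r hr
  exact ⟨r, mem_part.2 ⟨by rw [mem_blk]; omega, hr⟩, hrt⟩

theorem Seg.cap (h : Seg S w c' c'' A' A'' V v v' v'' π' π'' z' z'') (I : Finset ℕ)
    (hI : ∀ c ∈ V, v c ∉ I) {a b : ℕ} (hb : b ≤ w) :
    ∑ i ∈ I, (part (S i) (blk c' c'' a b)).card + V.card * (b + 1 - a) ≤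
      (c'' - c' - 1) * ((b + 1 - a) * 2) := by
  have h1 := h.lay.sum_part (I ∪ V.image v) (blk c' c'' a b)
  rw [card_blk, Finset.sum_union, Finset.sum_image] at h1
  · refine le_trans (Nat.add_le_add_left ?_ _) h1
    rw [← smul_eq_mul]
    exact Finset.card_nsmul_le_sum _ _ _ (fun c hc => h.vcross hc hb)
  · exact fun c hc d hd hcd => h.vinj c hc d hd hcd
  · rw [Finset.disjoint_left]
    intro i hi hi'
    obtain ⟨c, hc, rfl⟩ := Finset.mem_image.1 hi'
    exact hI c hc hi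

end

theorem Perfect.card_filter {c : ℕ} {A : Finset ℕ} {v : ℕ} {π : ℕ → ℕ} {z : ℕ}
    (h : Perfect S w c A v π z) (a b : ℕ) (hb : b ≤ w) :
    (A.filter (fun N => a < π N ∧ π N ≤ b)).card = b - a := by
  have h1 : (A.filter (fun N => a < π N ∧ π N ≤ b)).image π = Finset.Ioc a b := by
    ext t
    simp only [Finset.mem_image, Finset.mem_filter, Finset.mem_Ioc]
    constructor
    · rintro ⟨N, ⟨_, h1⟩, rfl⟩
      exact h1
    · intro h1
      obtain ⟨N, hN, h2⟩ := h.surj (t := t) (by omega) (by omega)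
      exact ⟨N, ⟨hN, by omega⟩, h2⟩
  rw [← Nat.card_Ioc, ← h1, Finset.card_image_of_injOn]
  intro i hi j hj hij
  exact h.inj i (Finset.mem_filter.1 hi).1 j (Finset.mem_filter.1 hj).1 hij

theorem Perfect.count {c : ℕ} {A : Finset ℕ} {v : ℕ} {π : ℕ → ℕ} {z : ℕ}
    (h : Perfect S w c A v π z) (t : ℕ) :
    ∑ N ∈ A, (if t < π N then 1 else 0) = w - t := by
  rw [← h.card_filter t w le_rfl, ← Finset.card_filter]
  congr 1
  ext N
  simp only [Finset.mem_filter]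
  constructor
  · rintro ⟨h1, h2⟩
    exact ⟨h1, h2, (h.pos N h1).2⟩
  · rintro ⟨h1, h2, _⟩
    exact ⟨h1, h2⟩

theorem path_card' {c' c'' : ℕ} (h : c' < c'') {A' A'' : Finset ℕ} {v' v'' : ℕ}
    {π' π'' : ℕ → ℕ} {z' z'' : ℕ} (P' : Perfect S w c' A' v' π' z')
    (P'' : Perfect S w c'' A'' v'' π'' z'') {N : ℕ} (h1 : N ∈ A') (h2 : N ∈ A'')
    (hz : ∀ p ∈ S N, p.2.2 ≤ 1) (Q : SW (mid (S N) c' c'' w)) (hQ1 : Q.1 = (c', π' N, z'))
    (hQ2 : Q.2.1 = (c'', π'' N, z'')) (hQ : Q.2.2.IsPath)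
    {a b : ℕ} (hab : ∀ r ∈ Q.2.2.support, a ≤ r.2.1 ∧ r.2.1 ≤ b) :
    (c'' - c' - 1) + cnt fy Q.2.2 + cnt fz Q.2.2 ≤ (part (S N) (blk c' c'' a b)).card := by
  obtain ⟨u, v, W⟩ := Q
  simp only at hQ1 hQ2 hQ hab
  subst hQ1
  subst hQ2
  exact path_card h P' P'' h1 h2 hz W hQ hab

/-- With at most one free column, the trunk paths do not change their tracks. -/
theorem Seg.straight {c' c'' : ℕ} {A V : Finset ℕ} {v : ℕ → ℕ} {v' v'' : ℕ} {π' π'' : ℕ → ℕ}
    {z' z'' : ℕ} (h : Seg S w c' c'' A A V v v' v'' π' π'' z' z'')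
    (hV : V.card + 1 = c'' - c' - 1) (P : ∀ N, SW (mid (S N) c' c'' w))
    (hP : ∀ N ∈ A, (P N).1 = (c', π' N, z') ∧ (P N).2.1 = (c'', π'' N, z'') ∧
      (P N).2.2.IsPath) : ∀ N ∈ A, ∀ t, cnt (fl t) (P N).2.2 = 0 := by
  obtain ⟨cr, hcr⟩ : ∃ cr : ℕ → Prop, ∀ t, cr t ↔ ∃ N ∈ A, cnt (fl t) (P N).2.2 ≠ 0 :=
    ⟨_, fun _ => Iff.rfl⟩
  have hsupp : ∀ N ∈ A, ∀ r ∈ (P N).2.2.support, r ∈ mid (S N) c' c'' w := by
    intro N hN r hr
    refine support_subset _ ?_ r hr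
    rw [(hP N hN).1]
    exact ⟨⟨h.P'.mem N hN, le_refl _, h.lt.le⟩, h.P'.pos N hN⟩
  have hlow : ¬ cr 0 := by
    rw [hcr]
    rintro ⟨N, hN, h0⟩
    obtain ⟨p, hp, q, hq, -, -, h1, -⟩ := exists_step _ _ h0
    have := (hsupp N hN p hp).2
    omega
  have hhigh : ¬ cr w := by
    rw [hcr]
    rintro ⟨N, hN, h0⟩
    obtain ⟨p, hp, q, hq, -, -, -, h1⟩ := exists_step _ _ h0
    have := (hsupp N hN q hq).2
    omega
  by_contra hcon
  push Not at hcon
  obtain ⟨N0, hN0, t0, h0⟩ := hcon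
  have hcr0 : cr t0 := (hcr t0).2 ⟨N0, hN0, h0⟩
  obtain ⟨p, hp, q, hq, hpq1, hpq2, hpt, hqt⟩ := exists_step _ _ h0
  have ht0 : t0 < w := by
    have := (hsupp N0 hN0 q hq).2
    omega
  obtain ⟨a, ha⟩ : ∃ a, a = Nat.findGreatest (fun t => ¬ cr t) t0 := ⟨_, rfl⟩
  have ha0 : a ≤ t0 := ha ▸ Nat.findGreatest_le t0
  have ha1 : ¬ cr a := by
    rw [ha]
    exact Nat.findGreatest_spec (P := fun t => ¬ cr t) (Nat.zero_le _) hlow
  have ha2 : ∀ t, a < t → t ≤ t0 → cr t := by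
    intro t h1 h2
    by_contra h3
    exact Nat.findGreatest_is_greatest (ha ▸ h1) h2 h3
  have hex : ∃ b, t0 < b ∧ ¬ cr b := ⟨w, ht0, hhigh⟩
  obtain ⟨b, hb⟩ : ∃ b, b = Nat.find hex := ⟨_, rfl⟩
  have hb1 : t0 < b ∧ ¬ cr b := hb ▸ Nat.find_spec hex
  have hb2 : b ≤ w := hb ▸ Nat.find_min' hex ⟨ht0, hhigh⟩
  have hb3 : ∀ t, t0 < t → t < b → cr t := by
    intro t h1 h2
    by_contra h3
    exact Nat.find_min hex (hb ▸ h2) ⟨h1, h3⟩
  have ha3 : a < t0 := by
    rcases eq_or_lt_of_le ha0 with h1 | h1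
    · exact absurd (h1 ▸ hcr0) ha1
    · exact h1
  have hall : ∀ t, a < t → t < b → cr t := by
    intro t h1 h2
    by_cases h3 : t ≤ t0
    · exact ha2 t h1 h3
    · exact hb3 t (by omega) h2
  have hin : ∀ N ∈ A, ∀ r ∈ (P N).2.2.support,
      (a < r.2.1 ↔ a < π' N) ∧ (b < r.2.1 ↔ b < π' N) := by
    intro N hN r hr
    have e1 : (P N).1.2.1 = π' N := by rw [(hP N hN).1]
    have e2 : cnt (fl a) (P N).2.2 = 0 := by
      by_contra h1
      exact ha1 ((hcr a).2 ⟨N, hN, h1⟩)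
    have e3 : cnt (fl b) (P N).2.2 = 0 := by
      by_contra h1
      exact hb1.2 ((hcr b).2 ⟨N, hN, h1⟩)
    have e4 := stay (P N).2.2 e2 r hr
    have e5 := stay (P N).2.2 e3 r hr
    rw [e1] at e4 e5
    exact ⟨e4, e5⟩
  obtain ⟨I, hI⟩ : ∃ I, I = A.filter (fun N => a < π' N ∧ π' N ≤ b) := ⟨_, rfl⟩
  have hIcard : I.card = b - a := by rw [hI]; exact h.P'.card_filter a b hb2
  have hIA : I ⊆ A := by rw [hI]; exact Finset.filter_subset _ _
  have hImem : ∀ N ∈ I, a < π' N ∧ π' N ≤ b := by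
    intro N hN
    rw [hI] at hN
    exact (Finset.mem_filter.1 hN).2
  have hcap := h.cap I (fun c hc hcI => h.vA' c hc (hIA hcI)) (a := a + 1) hb2
  have h4 : ∀ N ∈ I, (c'' - c' - 1) + (cnt fy (P N).2.2 + cnt fz (P N).2.2) ≤
      (part (S N) (blk c' c'' (a + 1) b)).card := by
    intro N hN
    have hNA := hIA hN
    have := path_card' h.lt h.P' h.P'' hNA hNA (h.lay.z_le N) (P N) (hP N hNA).1
      (hP N hNA).2.1 (hP N hNA).2.2 (a := a + 1) (b := b) (by
        intro r hr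
        have h1 := hin N hNA r hr
        have h2 := hImem N hN
        omega)
    omega
  have h5 := Finset.sum_le_sum h4
  rw [Finset.sum_add_distrib, Finset.sum_const, smul_eq_mul, hIcard,
    Finset.sum_add_distrib, ← hV] at h5
  rw [← hV] at hcap
  have h6 : b + 1 - (a + 1) = b - a := by omega
  rw [h6] at hcap
  obtain ⟨Y, hY⟩ : ∃ Y, Y = ∑ N ∈ I, cnt fy (P N).2.2 := ⟨_, rfl⟩
  obtain ⟨Z, hZ⟩ : ∃ Z, Z = ∑ N ∈ I, cnt fz (P N).2.2 := ⟨_, rfl⟩
  obtain ⟨k, hk⟩ : ∃ k, k = b - a := ⟨_, rfl⟩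
  rw [← hY, ← hZ, ← hk] at h5
  rw [← hk] at hcap
  have h7 : Y + Z ≤ k := by nlinarith
  -- every line between is crossed at least twice
  have h8 : ∀ t ∈ Finset.Ioo a b, 2 ≤ ∑ N ∈ I, cnt (fl t) (P N).2.2 := by
    intro t ht
    rw [Finset.mem_Ioo] at ht
    have e1 : ∑ N ∈ I, cnt (fl t) (P N).2.2 = ∑ N ∈ A, cnt (fl t) (P N).2.2 := by
      refine Finset.sum_subset hIA ?_
      intro N hN hNI
      by_contra h1
      obtain ⟨p, hp, q, hq, -, -, h2, h3⟩ := exists_step _ _ h1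
      have h4 := hin N hN p hp
      have h5 := hin N hN q hq
      refine hNI ?_
      rw [hI]
      exact Finset.mem_filter.2 ⟨hN, by omega⟩
    have e2 : ∑ N ∈ A, cnt (fu t) (P N).2.2 = ∑ N ∈ A, cnt (fd t) (P N).2.2 := by
      have e3 : ∀ N ∈ A, cnt (fu t) (P N).2.2 + (if t < π' N then 1 else 0) =
          cnt (fd t) (P N).2.2 + (if t < π'' N then 1 else 0) := by
        intro N hN
        have e1 : (P N).1.2.1 = π' N := by rw [(hP N hN).1]
        have e2 : (P N).2.1.2.1 = π'' N := by rw [(hP N hN).2.1]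
        have := line (P N).2.2 t
        rw [e1, e2] at this
        exact this
      have e4 := Finset.sum_congr rfl e3
      rw [Finset.sum_add_distrib, Finset.sum_add_distrib, h.P'.count, h.P''.count] at e4
      omega
    have e5 : ∑ N ∈ A, cnt (fl t) (P N).2.2 =
        ∑ N ∈ A, cnt (fu t) (P N).2.2 + ∑ N ∈ A, cnt (fd t) (P N).2.2 := by
      rw [← Finset.sum_add_distrib]
      exact Finset.sum_congr rfl (fun N _ => cnt_fl _ _)
    obtain ⟨N, hN, h1⟩ := (hcr t).1 (hall t ht.1 ht.2)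
    have e6 := Finset.single_le_sum (f := fun N => cnt (fl t) (P N).2.2)
      (fun _ _ => Nat.zero_le _) hN
    omega
  have h9 : (Finset.Ioo a b).card * 2 ≤ Y := by
    calc (Finset.Ioo a b).card * 2 ≤ ∑ t ∈ Finset.Ioo a b, ∑ N ∈ I, cnt (fl t) (P N).2.2 := by
          rw [← smul_eq_mul]; exact Finset.card_nsmul_le_sum _ _ _ h8
      _ = ∑ N ∈ I, ∑ t ∈ Finset.Ioo a b, cnt (fl t) (P N).2.2 := Finset.sum_comm
      _ ≤ ∑ N ∈ I, cnt fy (P N).2.2 := Finset.sum_le_sum (fun N _ => sum_cnt_fl_le _ _)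
      _ = Y := hY.symm
  rw [Nat.card_Ioo] at h9
  have h10 : b = a + 2 := by omega
  have h11 : Z = 0 := by omega
  have h12 : t0 = a + 1 := by omega
  have h13 : ∀ N ∈ I, cnt fz (P N).2.2 = 0 := by
    intro N hN
    have := Finset.single_le_sum (f := fun N => cnt fz (P N).2.2)
      (fun _ _ => Nat.zero_le _) hN
    omega
  have hlay : ∀ N ∈ I, ∀ r ∈ (P N).2.2.support, r.2.2 = z' := by
    intro N hN r hr
    have e1 : (P N).1.2.2 = z' := by rw [(hP N (hIA hN)).1]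
    have := stay_layer (P N).2.2 (h13 N hN) r hr
    rw [e1] at this
    exact this
  have hN0I : N0 ∈ I := by
    rw [hI]
    have h4 := hin N0 hN0 p hp
    have h5 := hin N0 hN0 q hq
    exact Finset.mem_filter.2 ⟨hN0, by omega⟩
  obtain ⟨N1, hN1, hne⟩ := Finset.exists_mem_ne (s := I) (by omega) N0
  have hN1A := hIA hN1
  have hpm := hsupp N0 hN0 p hp
  have hqm := hsupp N0 hN0 q hq
  obtain ⟨r, hr, hrc⟩ := ivt_support (fun r => r.1) (fun _ _ h => adj_x h) (P N1).2.2 p.1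
    (by rw [(hP N1 hN1A).1]; exact hpm.1.2.1) (by rw [(hP N1 hN1A).2.1]; exact hpm.1.2.2)
  have hrm := hsupp N1 hN1A r hr
  have h14 := hin N1 hN1A r hr
  have h15 := hImem N1 hN1
  have h16 := hlay N1 hN1 r hr
  have h17 := hlay N0 hN0I p hp
  have h18 : r = p ∨ r = q := by
    by_cases h19 : r.2.1 = t0
    · exact Or.inl (Prod.ext hrc (Prod.ext (by omega) (by omega)))
    · exact Or.inr (Prod.ext (by omega) (Prod.ext (by omega) (by omega)))
  rcases h18 with rfl | rfl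
  · exact hne (h.lay.disj _ _ _ hrm.1.1 hpm.1.1)
  · exact hne (h.lay.disj _ _ _ hrm.1.1 hqm.1.1)


/-- The points of a straight trunk. -/
theorem straight_pts {c' c'' : ℕ} {A V : Finset ℕ} {v : ℕ → ℕ} {v' v'' : ℕ} {π' π'' : ℕ → ℕ}
    {z' z'' : ℕ} (h : Seg S w c' c'' A A V v v' v'' π' π'' z' z'') {N : ℕ} (hN : N ∈ A)
    (Q : SW (mid (S N) c' c'' w)) (hQ1 : Q.1 = (c', π' N, z'))
    (hQ2 : Q.2.1 = (c'', π'' N, z'')) (h0 : ∀ t, cnt (fl t) Q.2.2 = 0) :
    π'' N = π' N ∧ (∀ r ∈ Q.2.2.support, r.2.1 = π' N) ∧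
    ∀ k, c' ≤ k → k ≤ c'' → ∃ ζ, ζ ≤ 1 ∧ (k, π' N, ζ) ∈ S N ∧ (cnt fz Q.2.2 = 0 → ζ = z') := by
  have hpos := h.P'.pos N hN
  have e1 : Q.1.2.1 = π' N := by rw [hQ1]
  have e2 : ∀ r ∈ Q.2.2.support, r.2.1 = π' N := by
    intro r hr
    have e3 := stay Q.2.2 (h0 (π' N)) r hr
    have e4 := stay Q.2.2 (h0 (π' N - 1)) r hr
    rw [e1] at e3 e4
    omega
  have hsupp : ∀ r ∈ Q.2.2.support, r ∈ mid (S N) c' c'' w := by
    intro r hr
    refine support_subset _ ?_ r hr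
    rw [hQ1]
    exact ⟨⟨h.P'.mem N hN, le_refl _, h.lt.le⟩, h.P'.pos N hN⟩
  refine ⟨?_, e2, ?_⟩
  · have e5 := e2 _ (Walk.end_mem_support Q.2.2)
    rw [hQ2] at e5
    exact e5
  · intro k hk1 hk2
    obtain ⟨r, hr, hrc⟩ := ivt_support (fun r => r.1) (fun _ _ h => adj_x h) Q.2.2 k
      (by rw [hQ1]; exact hk1) (by rw [hQ2]; exact hk2)
    have h1 := hsupp r hr
    have h2 : r = (k, π' N, r.2.2) := Prod.ext hrc (Prod.ext (e2 r hr) rfl)
    refine ⟨r.2.2, h.lay.z_le N r h1.1.1, h2 ▸ h1.1.1, ?_⟩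
    intro h3
    have h4 := stay_layer Q.2.2 h3 r hr
    rw [h4, hQ1]

/-- **The test lemma.** If the only free column has its upper terminal in `U` and its lower
terminal in `L`, then the trunks are straight, and `U` runs above `L`. -/
theorem Seg.test {c' c'' : ℕ} {A V : Finset ℕ} {v : ℕ → ℕ} {v' v'' : ℕ} {π' π'' : ℕ → ℕ}
    {z' z'' : ℕ} (h : Seg S w c' c'' A A V v v' v'' π' π'' z' z'')
    (hV : V.card + 1 = c'' - c' - 1) {x : ℕ} (hx : c' < x) (hx' : x < c'')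
    (hVx : ∀ c, c' < c → c < c'' → c ≠ x → c ∈ V) {U L : ℕ} (hU : U ∈ A) (hL : L ∈ A)
    (hne : U ≠ L) (hT : Top S w U x) (hB : Bot S L x) :
    (∀ i ∈ A, π'' i = π' i) ∧ π' L < π' U := by
  -- the paths
  have hex : ∀ N ∈ A, ∃ W : (on (mid (S N) c' c'' w)).Walk (c', π' N, z') (c'', π'' N, z''),
      W.IsPath := by
    intro N hN
    refine exists_path h.lay h.lt h.P' h.P'' hN hN x ?_
    intro p hp h1 h2 h3
    by_contra h4
    have hc := hVx p.1 h1 h2 h4
    have h5 : N ≠ v p.1 := fun h5 => h.vA' _ hc (h5 ▸ hN)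
    have := h.lay.interior h5 (h.vtop _ hc) (h.vbot _ hc) hp rfl
    omega
  have hex2 : ∀ N ∈ A, ∃ Q : SW (mid (S N) c' c'' w), Q.1 = (c', π' N, z') ∧
      Q.2.1 = (c'', π'' N, z'') ∧ Q.2.2.IsPath := by
    intro N hN
    obtain ⟨W, hW⟩ := hex N hN
    exact ⟨⟨_, _, W⟩, rfl, rfl, hW⟩
  have hne' : ∀ N, Nonempty (SW (mid (S N) c' c'' w)) := fun N => ⟨⟨(0, 0, 0), _, Walk.nil⟩⟩
  choose! P hP using hex2
  have h0 := h.straight hV P hP
  have hst : ∀ N ∈ A, π'' N = π' N := fun N hN =>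
    (straight_pts h hN (P N) (hP N hN).1 (hP N hN).2.1 (h0 N hN)).1
  refine ⟨hst, ?_⟩
  by_contra hcon
  have hne2 : π' U ≠ π' L := fun h1 => hne (h.P'.inj U hU L hL h1)
  have hUL : π' U < π' L := by omega
  have hposU := h.P'.pos U hU
  have hposL := h.P'.pos L hL
  -- points on other tracks
  have hup : ∀ t, π' U < t → t ≤ w → 1 ≤ (part (S U) (blk c' c'' t t)).card := by
    intro t h1 h2
    have hc := seg_conn h.lay h.lt h.P' h.P'' hU hU
    obtain ⟨r, hr, hrt⟩ := hc.track (p := (c', π' U, z')) (q := (x, w + 1, 0))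
      ⟨h.P'.mem U hU, le_refl _, h.lt.le⟩ ⟨hT.1, hx.le, hx'.le⟩ t (by simp only; omega)
      (by simp only; omega)
    rw [Nat.one_le_iff_ne_zero, Finset.card_ne_zero]
    have h3 : r.1 ≠ c' := by
      intro h3
      have := h.P'.uniq U hU r hr.1 h3
      rw [this] at hrt
      simp only at hrt
      omega
    have h4 : r.1 ≠ c'' := by
      intro h3
      have := h.P''.uniq U hU r hr.1 h3
      rw [this, hst U hU] at hrt
      simp only at hrt
      omega
    have h5 := h.lay.z_le U r hr.1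
    have h6 := hr.2
    exact ⟨r, mem_part.2 ⟨by rw [mem_blk]; omega, hr.1⟩⟩
  have hdn : ∀ t, 1 ≤ t → t < π' L → 1 ≤ (part (S L) (blk c' c'' t t)).card := by
    intro t h1 h2
    have hc := seg_conn h.lay h.lt h.P' h.P'' hL hL
    obtain ⟨r, hr, hrt⟩ := hc.track (p := (x, 0, 0)) (q := (c', π' L, z'))
      ⟨hB.1, hx.le, hx'.le⟩ ⟨h.P'.mem L hL, le_refl _, h.lt.le⟩ t (by simp) (by simp only; omega)
    rw [Nat.one_le_iff_ne_zero, Finset.card_ne_zero]
    have h3 : r.1 ≠ c' := by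
      intro h3
      have := h.P'.uniq L hL r hr.1 h3
      rw [this] at hrt
      simp only at hrt
      omega
    have h4 : r.1 ≠ c'' := by
      intro h3
      have := h.P''.uniq L hL r hr.1 h3
      rw [this, hst L hL] at hrt
      simp only at hrt
      omega
    have h5 := h.lay.z_le L r hr.1
    have h6 := hr.2
    exact ⟨r, mem_part.2 ⟨by rw [mem_blk]; omega, hr.1⟩⟩
  -- points on the own track
  have hown : ∀ N ∈ A, (c'' - c' - 1) + cnt fz (P N).2.2 ≤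
      (part (S N) (blk c' c'' (π' N) (π' N))).card := by
    intro N hN
    obtain ⟨_, h1, _⟩ := straight_pts h hN (P N) (hP N hN).1 (hP N hN).2.1 (h0 N hN)
    have := path_card' h.lt h.P' h.P'' hN hN (h.lay.z_le N) (P N) (hP N hN).1 (hP N hN).2.1
      (hP N hN).2.2 (a := π' N) (b := π' N) (fun r hr => by rw [h1 r hr]; simp)
    omega
  have hcap : ∀ I ⊆ A, ∀ t ≤ w, ∑ i ∈ I, (part (S i) (blk c' c'' t t)).card ≤ V.card + 2 := by
    intro I hI t ht
    have := h.cap I (fun c hc hcI => h.vA' c hc (hI hcI)) (a := t) ht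
    rw [← hV] at this
    have h1 : t + 1 - t = 1 := by omega
    rw [h1] at this
    omega
  by_cases hadj : π' U + 1 = π' L
  · -- neighbouring tracks
    have h1 := hcap {U, L} (by
      intro i hi
      simp only [Finset.mem_insert, Finset.mem_singleton] at hi
      rcases hi with rfl | rfl
      · exact hU
      · exact hL) (π' U) hposU.2
    have h2 := hcap {U, L} (by
      intro i hi
      simp only [Finset.mem_insert, Finset.mem_singleton] at hi
      rcases hi with rfl | rfl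
      · exact hU
      · exact hL) (π' L) hposL.2
    rw [Finset.sum_pair hne] at h1 h2
    have h3 := hown U hU
    have h4 := hown L hL
    have h5 := hup (π' L) hUL hposL.2
    have h6 := hdn (π' U) hposU.1 hUL
    have h7 : cnt fz (P U).2.2 = 0 := by omega
    have h8 : cnt fz (P L).2.2 = 0 := by omega
    have h9 : (part (S U) (blk c' c'' (π' U) (π' U))).card = c'' - c' - 1 := by omega
    obtain ⟨_, _, hUp⟩ := straight_pts h hU (P U) (hP U hU).1 (hP U hU).2.1 (h0 U hU)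
    obtain ⟨_, _, hLp⟩ := straight_pts h hL (P L) (hP L hL).1 (hP L hL).2.1 (h0 L hL)
    have h10 : (Finset.Ioo c' c'').image (fun k => ((k, π' U, z') : Pt)) =
        part (S U) (blk c' c'' (π' U) (π' U)) := by
      refine Finset.eq_of_subset_of_card_le ?_ ?_
      · intro r hr
        obtain ⟨k, hk, rfl⟩ := Finset.mem_image.1 hr
        rw [Finset.mem_Ioo] at hk
        obtain ⟨ζ, hζ1, hζ, hζz⟩ := hUp k hk.1.le hk.2.le
        rw [hζz h7] at hζ hζ1
        exact mem_part.2 ⟨by rw [mem_blk]; simp only; omega, hζ⟩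
      · rw [Finset.card_image_of_injective, Nat.card_Ioo]
        · omega
        · intro a b hab
          exact congrArg Prod.fst hab
    have hc := seg_conn h.lay h.lt h.P' h.P'' hU hU
    obtain ⟨r, hr, s, hs, e1, e2, e3, e4⟩ := hc.cross (p := (c', π' U, z')) (q := (x, w + 1, 0))
      ⟨h.P'.mem U hU, le_refl _, h.lt.le⟩ ⟨hT.1, hx.le, hx'.le⟩ (t := π' U) (le_refl _)
      (by simp only; omega)
    have h11 : s.1 ≠ c' := by
      intro h3
      have := h.P'.uniq U hU s hs.1 h3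
      rw [this] at e4
      simp only at e4
      omega
    have h12 : s.1 ≠ c'' := by
      intro h3
      have := h.P''.uniq U hU s hs.1 h3
      rw [this, hst U hU] at e4
      simp only at e4
      omega
    have h13 := hs.2
    have h14 := h.lay.z_le U r hr.1
    have h15 : r ∈ part (S U) (blk c' c'' (π' U) (π' U)) :=
      mem_part.2 ⟨by rw [mem_blk]; omega, hr.1⟩
    rw [← h10] at h15
    obtain ⟨k, hk, hkr⟩ := Finset.mem_image.1 h15
    have h16 : r.2.2 = z' := by rw [← hkr]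
    obtain ⟨ζ, hζ1, hζ, hζz⟩ := hLp s.1 h13.1 h13.2
    have h17 : s = (s.1, π' L, ζ) := Prod.ext rfl (Prod.ext (by rw [e4]; exact hadj)
      (by rw [hζz h8, ← e2]; exact h16))
    rw [← h17] at hζ
    exact hne (h.lay.disj _ _ _ hs.1 hζ)
  · -- a track between
    obtain ⟨N, hN, hNt⟩ := h.P'.surj (t := π' U + 1) (by omega) (by omega)
    have hNU : N ≠ U := by rintro rfl; omega
    have hNL : N ≠ L := by rintro rfl; omega
    have h1 := hcap {N, U, L} (by
      intro i hi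
      simp only [Finset.mem_insert, Finset.mem_singleton] at hi
      rcases hi with rfl | rfl | rfl
      · exact hN
      · exact hU
      · exact hL) (π' U + 1) (by omega)
    rw [Finset.sum_insert (by
      simp only [Finset.mem_insert, Finset.mem_singleton]; omega), Finset.sum_pair hne] at h1
    have h3 := hown N hN
    rw [hNt] at h3
    have h5 := hup (π' U + 1) (by omega) (by omega)
    have h6 := hdn (π' U + 1) (by omega) (by omega)
    omega

end Pool.Agent.W947.CR
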