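import Pool.Agent.W947.CR.Perfect

/-!
# The trace of a net between two perfect columns
-/

namespace Pool.Agent.W947.CR

open SimpleGraph
open scoped Classical

theorem ivt_support {A : Set Pt} (f : Pt → ℕ) (hf : ∀ p q, grid.Adj p q → f q ≤ f p + 1)
    {p q : Pt} (w : (on A).Walk p q) (c : ℕ) (h1 : f p ≤ c) (h2 : c ≤ f q) :
    ∃ r ∈ w.support, f r = c := by
  induction w with
  | nil => exact ⟨_, by simp, le_antisymm h1 h2⟩
  | @cons u v _ h w ih =>
    rcases eq_or_lt_of_le h1 with h3 | h3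
    · exact ⟨u, by simp, h3⟩
    · have := hf _ _ h.2.2
      obtain ⟨r, hr, hrc⟩ := ih (by omega) h2
      exact ⟨r, by rw [Walk.support_cons]; exact List.mem_cons_of_mem _ hr, hrc⟩

/-- The part of a set between two columns. -/
def seg (B : Set Pt) (c' c'' : ℕ) : Set Pt := {p | p ∈ B ∧ c' ≤ p.1 ∧ p.1 ≤ c''}

theorem Conn.seg {B : Set Pt} (hB : Conn B) {c' c'' : ℕ} (h : c' ≤ c'') {u v : Pt} (hu : u ∈ B)
    (huc : u.1 = c') (huu : ∀ p ∈ B, p.1 = c' → p = u) (hv : v ∈ B) (hvc : v.1 = c'')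
    (hvv : ∀ p ∈ B, p.1 = c'' → p = v) : Conn (seg B c' c'') := by
  have h1 := hB.right hu huc huu
  have h2 := h1.left (v := v) (c := c'') ⟨hv, by omega⟩ hvc (fun p hp hpc => hvv p hp.1 hpc)
  have h3 : CR.seg B c' c'' = {p | p ∈ {p | p ∈ B ∧ c' ≤ p.1} ∧ p.1 ≤ c''} := by
    ext p
    simp only [CR.seg, Set.mem_ofPred_eq, and_assoc]
  rw [h3]
  exact h2

/-- Removing the boundary tracks. -/
theorem Conn.trim {B : Set Pt} (hB : Conn B) {w x : ℕ} (hw : 1 ≤ w)
    (hy : ∀ p ∈ B, p.2.1 ≤ w + 1) (hz : ∀ p ∈ B, p.2.2 ≤ 1)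
    (hx : ∀ p ∈ B, (p.2.1 = 0 ∨ p.2.1 = w + 1) → p.1 = x) :
    Conn {p | p ∈ B ∧ 1 ≤ p.2.1 ∧ p.2.1 ≤ w} := by
  obtain ⟨B', hB'⟩ : ∃ B' : Set Pt, B' = {p | p ∈ B ∧ 1 ≤ p.2.1 ∧ p.2.1 ≤ w} := ⟨_, rfl⟩
  have hmem : ∀ p, p ∈ B' ↔ p ∈ B ∧ 1 ≤ p.2.1 ∧ p.2.1 ≤ w := by
    intro p; rw [hB']; rfl
  rw [← hB']
  have key : ∀ {u v : Pt} (_ : (on B).Walk u v), u ∈ B → v ∈ B' →
      ((1 ≤ u.2.1 ∧ u.2.1 ≤ w) → (on B').Reachable u v) ∧
      (u.2.1 = 0 → ∀ ζ, (x, 1, ζ) ∈ B → (on B').Reachable (x, 1, ζ) v) ∧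
      (u.2.1 = w + 1 → ∀ ζ, (x, w, ζ) ∈ B → (on B').Reachable (x, w, ζ) v) := by
    intro u v W
    induction W with
    | nil =>
      intro _ hv
      have := (hmem _).1 hv
      refine ⟨fun _ => Reachable.refl _, fun h => ?_, fun h => ?_⟩ <;> omega
    | @cons u u' v h W ih =>
      intro hu hv
      obtain ⟨i1, i2, i3⟩ := ih h.2.1 hv
      have hadj := h.2.2
      have hu' := h.2.1
      have hyu := hy u hu
      have hyu' := hy u' hu'
      have hzu := hz u hu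
      have hzu' := hz u' hu'
      have hxu := hx u hu
      have hxu' := hx u' hu'
      rw [adj_iff] at hadj
      obtain ⟨a, b, c⟩ := u
      obtain ⟨a', b', c'⟩ := u'
      simp only [Prod.mk.injEq] at *
      have main : 1 ≤ b' → b' ≤ w → ∀ y ζ, (x, y, ζ) ∈ B → y = b' → a' = x → 1 ≤ y → y ≤ w →
          (on B').Reachable (x, y, ζ) v := by
        intro hb1 hb2 y ζ hy' hyb hax hy1 hy2
        subst hyb
        subst hax
        have hζ := hz _ hy'
        simp only at hζ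
        by_cases hζc : ζ = c'
        · subst hζc
          exact i1 ⟨hb1, hb2⟩
        · refine Reachable.trans (Adj.reachable (v := (a', y, c')) ⟨?_, ?_, ?_⟩) (i1 ⟨hb1, hb2⟩)
          · exact (hmem _).2 ⟨hy', hy1, hy2⟩
          · exact (hmem _).2 ⟨hu', hb1, hb2⟩
          · rw [adj_iff]
            refine Or.inr (Or.inr ⟨rfl, rfl, ?_⟩)
            simp only
            omega
      refine ⟨fun h1 => ?_, fun h1 ζ hζ => ?_, fun h1 ζ hζ => ?_⟩
      · by_cases h2 : 1 ≤ b' ∧ b' ≤ w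
        · refine Reachable.trans (Adj.reachable (v := (a', b', c')) ⟨?_, ?_, ?_⟩) (i1 h2)
          · exact (hmem _).2 ⟨hu, h1⟩
          · exact (hmem _).2 ⟨hu', h2⟩
          · rw [adj_iff]; simp only [Prod.mk.injEq]; omega
        · have h3 : b' = 0 ∨ b' = w + 1 := by omega
          rcases h3 with h3 | h3
          · have e1 : a = x := by omega
            have e2 : b = 1 := by omega
            subst e1
            subst e2
            exact i2 h3 c hu
          · have e1 : a = x := by omega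
            have e2 : b = w := by omega
            subst e1
            subst e2
            exact i3 h3 c hu
      · by_cases h2 : b' = 0
        · exact i2 h2 ζ hζ
        · exact main (by omega) (by omega) 1 ζ hζ (by omega) (by omega) (by omega) (by omega)
      · by_cases h2 : b' = w + 1
        · exact i3 h2 ζ hζ
        · exact main (by omega) (by omega) w ζ hζ (by omega) (by omega) (by omega) (by omega)
  intro p hp q hq
  obtain ⟨W⟩ := hB p ((hmem p).1 hp).1 q ((hmem q).1 hq).1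
  exact (key W ((hmem p).1 hp).1 hq).1 ((hmem p).1 hp).2

/-- The part of a set between two columns, without the boundary tracks. -/
def mid (B : Set Pt) (c' c'' w : ℕ) : Set Pt :=
  {p | p ∈ seg B c' c'' ∧ 1 ≤ p.2.1 ∧ p.2.1 ≤ w}

variable {S : ℕ → Set Pt} {w : ℕ}

theorem seg_conn (hS : Lay S w) {c' c'' : ℕ} (h : c' < c'') {A' A'' : Finset ℕ} {v' v'' : ℕ}
    {π' π'' : ℕ → ℕ} {z' z'' : ℕ} (P' : Perfect S w c' A' v' π' z')
    (P'' : Perfect S w c'' A'' v'' π'' z'') {N : ℕ} (h1 : N ∈ A') (h2 : N ∈ A'') :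
    Conn (seg (S N) c' c'') :=
  (hS.conn N).seg h.le (P'.mem N h1) rfl (fun p hp hc => P'.uniq N h1 p hp hc)
    (P''.mem N h2) rfl (fun p hp hc => P''.uniq N h2 p hp hc)

theorem exists_path (hS : Lay S w) {c' c'' : ℕ} (h : c' < c'') {A' A'' : Finset ℕ} {v' v'' : ℕ}
    {π' π'' : ℕ → ℕ} {z' z'' : ℕ} (P' : Perfect S w c' A' v' π' z')
    (P'' : Perfect S w c'' A'' v'' π'' z'') {N : ℕ} (h1 : N ∈ A') (h2 : N ∈ A'') (x : ℕ)
    (hx : ∀ p ∈ S N, c' < p.1 → p.1 < c'' → (p.2.1 = 0 ∨ p.2.1 = w + 1) → p.1 = x) :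
    ∃ W : (on (mid (S N) c' c'' w)).Walk (c', π' N, z') (c'', π'' N, z''), W.IsPath := by
  have hc := seg_conn hS h P' P'' h1 h2
  have hp' := P'.pos N h1
  have hp'' := P''.pos N h2
  have h3 : Conn (mid (S N) c' c'' w) := by
    refine hc.trim (x := x) (by omega) (fun p hp => hS.y_le N p hp.1)
      (fun p hp => hS.z_le N p hp.1) ?_
    intro p hp hpy
    obtain ⟨hp1, hp2, hp3⟩ := hp
    rcases eq_or_lt_of_le hp2 with h4 | h4
    · have := P'.uniq N h1 p hp1 h4.symm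
      rw [this] at hpy
      simp only at hpy
      omega
    · rcases eq_or_lt_of_le hp3 with h5 | h5
      · have := P''.uniq N h2 p hp1 h5
        rw [this] at hpy
        simp only at hpy
        omega
      · exact hx p hp1 h4 h5 hpy
  refine (h3 _ ?_ _ ?_).exists_isPath
  · exact ⟨⟨P'.mem N h1, le_refl _, h.le⟩, hp'⟩
  · exact ⟨⟨P''.mem N h2, h.le, le_refl _⟩, hp''⟩

theorem path_card {c' c'' : ℕ} (h : c' < c'') {A' A'' : Finset ℕ} {v' v'' : ℕ}
    {π' π'' : ℕ → ℕ} {z' z'' : ℕ} (P' : Perfect S w c' A' v' π' z')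
    (P'' : Perfect S w c'' A'' v'' π'' z'') {N : ℕ} (h1 : N ∈ A') (h2 : N ∈ A'')
    (hz : ∀ p ∈ S N, p.2.2 ≤ 1)
    (W : (on (mid (S N) c' c'' w)).Walk (c', π' N, z') (c'', π'' N, z'')) (hW : W.IsPath)
    {a b : ℕ} (hab : ∀ r ∈ W.support, a ≤ r.2.1 ∧ r.2.1 ≤ b) :
    (c'' - c' - 1) + cnt fy W + cnt fz W ≤ (part (S N) (blk c' c'' a b)).card := by
  have hst : ((c', π' N, z') : Pt) ∈ mid (S N) c' c'' w :=
    ⟨⟨P'.mem N h1, le_refl _, h.le⟩, P'.pos N h1⟩
  have e1 : ((W.support.toFinset.erase (c', π' N, z')).erase (c'', π'' N, z'')) ⊆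
      part (S N) (blk c' c'' a b) := by
    intro r hr
    rw [Finset.mem_erase, Finset.mem_erase, List.mem_toFinset] at hr
    obtain ⟨hr1, hr2, hr3⟩ := hr
    have h3 := support_subset W hst r hr3
    obtain ⟨⟨h4, h5, h6⟩, h7, h8⟩ := h3
    have h9 : r.1 ≠ c' := fun hc => hr2 (P'.uniq N h1 r h4 hc)
    have h10 : r.1 ≠ c'' := fun hc => hr1 (P''.uniq N h2 r h4 hc)
    have h11 := hz r h4
    have h12 := hab r hr3
    exact mem_part.2 ⟨by rw [mem_blk]; omega, h4⟩
  have e2 := Finset.card_le_card e1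
  have e3 : W.support.toFinset.card = W.length + 1 := by
    rw [List.toFinset_card_of_nodup hW.support_nodup, Walk.length_support]
  have e4 := Finset.pred_card_le_card_erase (s := W.support.toFinset) (a := (c', π' N, z'))
  have e5 := Finset.pred_card_le_card_erase (s := W.support.toFinset.erase (c', π' N, z'))
    (a := (c'', π'' N, z''))
  have e6 := length_eq W
  have e7 := x_le W
  simp only at e7
  omega

end Pool.Agent.W947.CR
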