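import Pool.Agent.W947.CR.Grid

/-!
# Counting the steps of walks in the grid
-/

namespace Pool.Agent.W947.CR

open SimpleGraph

/-- Sum of `f` over the steps of a walk. -/
def cnt {A : Set Pt} (f : Pt → Pt → ℕ) {u v : Pt} (w : (on A).Walk u v) : ℕ :=
  (w.darts.map (fun d => f d.fst d.snd)).sum

section

variable {A : Set Pt} (f : Pt → Pt → ℕ)

@[simp] theorem cnt_nil {u : Pt} : cnt f (Walk.nil : (on A).Walk u u) = 0 := rfl

@[simp] theorem cnt_cons {u u' v : Pt} (h : (on A).Adj u u') (w : (on A).Walk u' v) :
    cnt f (Walk.cons h w) = f u u' + cnt f w := by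
  simp [cnt]

end

/-- Horizontal steps. -/
def fx (p q : Pt) : ℕ := if p.1 = q.1 then 0 else 1
/-- Vertical steps. -/
def fy (p q : Pt) : ℕ := if p.2.1 = q.2.1 then 0 else 1
/-- Steps between the layers. -/
def fz (p q : Pt) : ℕ := if p.2.2 = q.2.2 then 0 else 1
/-- Steps from track `t` to track `t + 1`. -/
def fu (t : ℕ) (p q : Pt) : ℕ := if p.2.1 = t ∧ q.2.1 = t + 1 then 1 else 0
/-- Steps from track `t + 1` to track `t`. -/
def fd (t : ℕ) (p q : Pt) : ℕ := if p.2.1 = t + 1 ∧ q.2.1 = t then 1 else 0
/-- Steps between track `t` and track `t + 1`. -/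
def fl (t : ℕ) (p q : Pt) : ℕ := fu t p q + fd t p q

variable {A : Set Pt}

theorem f_sum {p q : Pt} (h : grid.Adj p q) : fx p q + fy p q + fz p q = 1 := by
  rw [adj_iff] at h
  obtain ⟨a, b, c⟩ := p
  obtain ⟨a', b', c'⟩ := q
  simp only [Prod.mk.injEq, fx, fy, fz] at *
  split_ifs <;> omega

theorem length_eq {u v : Pt} (w : (on A).Walk u v) :
    w.length = cnt fx w + cnt fy w + cnt fz w := by
  induction w with
  | nil => rfl
  | cons h w ih =>
    have := f_sum h.2.2
    simp only [Walk.length_cons, cnt_cons, ih]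
    omega

theorem x_le {u v : Pt} (w : (on A).Walk u v) : v.1 ≤ u.1 + cnt fx w := by
  induction w with
  | nil => simp
  | @cons u u' v h w ih =>
    have h1 : u'.1 ≤ u.1 + fx u u' := by
      have := adj_x h.2.2
      unfold fx
      split_ifs <;> omega
    simp only [cnt_cons]
    omega

theorem line {u v : Pt} (w : (on A).Walk u v) (t : ℕ) :
    cnt (fu t) w + (if t < u.2.1 then 1 else 0) = cnt (fd t) w + (if t < v.2.1 then 1 else 0) := by
  induction w with
  | nil => simp
  | @cons u u' v h w ih =>
    simp only [cnt_cons]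
    have h1 : fu t u u' + (if t < u.2.1 then 1 else 0) =
        fd t u u' + (if t < u'.2.1 then 1 else 0) := by
      have h2 := adj_y h.2.2
      have h3 := adj_y h.2.2.symm
      unfold fu fd
      split_ifs <;> omega
    omega

theorem sum_fl_le {p q : Pt} (h : grid.Adj p q) (s : Finset ℕ) :
    ∑ t ∈ s, fl t p q ≤ fy p q := by
  have h2 := adj_y h
  have h3 := adj_y h.symm
  by_cases h4 : p.2.1 = q.2.1
  · rw [Finset.sum_eq_zero]
    · exact Nat.zero_le _
    · intro t _
      unfold fl fu fd
      split_ifs <;> omega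
  · have h5 : fy p q = 1 := by unfold fy; rw [if_neg h4]
    rw [h5]
    have h6 : ∀ t ∈ s, fl t p q = if t = min p.2.1 q.2.1 then 1 else 0 := by
      intro t _
      unfold fl fu fd
      split_ifs <;> omega
    rw [Finset.sum_congr rfl h6, Finset.sum_ite_eq']
    split_ifs <;> omega

theorem cnt_add {u v : Pt} (w : (on A).Walk u v) (f g : Pt → Pt → ℕ) :
    cnt (fun p q => f p q + g p q) w = cnt f w + cnt g w := by
  induction w with
  | nil => rfl
  | cons h w ih => simp only [cnt_cons, ih]; omega

theorem cnt_fl {u v : Pt} (w : (on A).Walk u v) (t : ℕ) :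
    cnt (fl t) w = cnt (fu t) w + cnt (fd t) w := cnt_add w _ _

theorem sum_cnt_fl_le {u v : Pt} (w : (on A).Walk u v) (s : Finset ℕ) :
    ∑ t ∈ s, cnt (fl t) w ≤ cnt fy w := by
  induction w with
  | nil => simp
  | cons h w ih =>
    simp only [cnt_cons, Finset.sum_add_distrib]
    have := sum_fl_le h.2.2 s
    omega

/-- A walk that does not cross the line between tracks `t` and `t + 1` stays on one side. -/
theorem stay {u v : Pt} (w : (on A).Walk u v) {t : ℕ} (h0 : cnt (fl t) w = 0) :
    ∀ r ∈ w.support, (t < r.2.1 ↔ t < u.2.1) := by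
  induction w with
  | nil =>
    intro r hr
    simp only [Walk.support_nil, List.mem_singleton] at hr
    rw [hr]
  | @cons u u' v h w ih =>
    intro r hr
    simp only [cnt_cons] at h0
    have h1 : (t < u'.2.1 ↔ t < u.2.1) := by
      have h2 := adj_y h.2.2
      have h3 := adj_y h.2.2.symm
      have h4 : fl t u u' = 0 := by omega
      unfold fl fu fd at h4
      split_ifs at h4 <;> omega
    simp only [Walk.support_cons, List.mem_cons] at hr
    rcases hr with rfl | hr
    · rfl
    · rw [ih (by omega) r hr, h1]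

/-- A walk without steps between the layers stays in its layer. -/
theorem stay_layer {u v : Pt} (w : (on A).Walk u v) (h0 : cnt fz w = 0) :
    ∀ r ∈ w.support, r.2.2 = u.2.2 := by
  induction w with
  | nil =>
    intro r hr
    simp only [Walk.support_nil, List.mem_singleton] at hr
    rw [hr]
  | @cons u u' v h w ih =>
    intro r hr
    simp only [cnt_cons] at h0
    have h1 : u.2.2 = u'.2.2 := by
      have h4 : fz u u' = 0 := by omega
      unfold fz at h4
      split_ifs at h4 with h5
      exact h5
    simp only [Walk.support_cons, List.mem_cons] at hr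
    rcases hr with rfl | hr
    · rfl
    · rw [ih (by omega) r hr, h1]

/-- A vertical step of a walk. -/
theorem exists_step {u v : Pt} (w : (on A).Walk u v) (t : ℕ) (h0 : cnt (fl t) w ≠ 0) :
    ∃ p ∈ w.support, ∃ q ∈ w.support, p.1 = q.1 ∧ p.2.2 = q.2.2 ∧ p.2.1 = t ∧ q.2.1 = t + 1 := by
  induction w with
  | nil => simp at h0
  | @cons u u' v h w ih =>
    simp only [cnt_cons] at h0
    by_cases h1 : fl t u u' = 0
    · obtain ⟨p, hp, q, hq, h⟩ := ih (by omega)
      exact ⟨p, List.mem_cons_of_mem _ hp, q, List.mem_cons_of_mem _ hq, h⟩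
    · have h2 := h.2.2
      rw [adj_iff] at h2
      have h3 : u' ∈ (Walk.cons h w).support := by
        rw [Walk.support_cons]
        exact List.mem_cons_of_mem _ w.start_mem_support
      have h4 : u ∈ (Walk.cons h w).support := Walk.start_mem_support _
      unfold fl fu fd at h1
      obtain ⟨a, b, c⟩ := u
      obtain ⟨a', b', c'⟩ := u'
      simp only [Prod.mk.injEq] at *
      by_cases h5 : b = t
      · refine ⟨_, h4, _, h3, ?_⟩
        simp only
        split_ifs at h1 <;> omega
      · refine ⟨_, h3, _, h4, ?_⟩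
        simp only
        split_ifs at h1 <;> omega

theorem support_subset {u v : Pt} (w : (on A).Walk u v) (hu : u ∈ A) : ∀ r ∈ w.support, r ∈ A := by
  induction w with
  | nil =>
    intro r hr
    simp only [Walk.support_nil, List.mem_singleton] at hr
    rwa [hr]
  | @cons u u' v h w ih =>
    intro r hr
    simp only [Walk.support_cons, List.mem_cons] at hr
    rcases hr with rfl | hr
    · exact hu
    · exact ih h.2.1 r hr

end Pool.Agent.W947.CR
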