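import Pool.Agent.W947.CR.Event

/-!
# The channel of a list of operations
-/

namespace Pool.Agent.W947.CR

/-- An operation: a test (`true`) or a swap (`false`) with two threads. -/
abbrev Op : Type := Bool × ℕ × ℕ

/-- Replace the entries `a` and `b` by `x` and `y`. -/
def upd (cur : List ℕ) (a b x y : ℕ) : List ℕ :=
  cur.zipIdx.map (fun p => if p.2 = a then x else if p.2 = b then y else p.1)

/-- The columns of a closed zone. -/
def zn (M l j : ℕ) : List (ℕ × ℕ) :=
  (List.range l).map (fun i => (M + j * l + i, M + j * l + i))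

/-- The first columns of an operation. -/
def hd (w : ℕ) (cur : List ℕ) (q : ℕ) (op : Op) : List (ℕ × ℕ) :=
  if op.1 then [(cur.getD op.2.1 0, cur.getD op.2.2 0)] else
    [(cur.getD op.2.1 0, cur.getD op.2.1 0), (cur.getD op.2.2 0, cur.getD op.2.2 0),
      (w + 2 * q, w + 2 * q), (w + 2 * q + 1, w + 2 * q + 1)]

/-- The current nets after an operation. -/
def nxt (w : ℕ) (cur : List ℕ) (q : ℕ) (op : Op) : List ℕ :=
  if op.1 then cur else upd cur op.2.1 op.2.2 (w + 2 * q) (w + 2 * q + 1)

/-- The number of swaps after an operation. -/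
def nq (q : ℕ) (op : Op) : ℕ := if op.1 then q else q + 1

/-- The columns of the channel, for a list of operations. -/
def wd (w M l : ℕ) : List Op → List ℕ → ℕ → ℕ → List (ℕ × ℕ)
  | [], cur, _, _ => cur.map (fun N => (N, N))
  | op :: ops, cur, j, q =>
    hd w cur q op ++ (zn M l j ++ wd w M l ops (nxt w cur q op) (j + 1) (nq q op))

/-- The number of swaps. -/
def swaps (ops : List Op) : ℕ := (ops.filter (fun op => !op.1)).length

/-- All columns of the channel: their upper and lower terminals. -/
def word (w l : ℕ) (ops : List Op) : List (ℕ × ℕ) :=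
  (List.range w).map (fun i => (i, i)) ++
    (zn (w + 2 * swaps ops) l 0 ++ wd w (w + 2 * swaps ops) l ops (List.range w) 1 0)

/-- The nets of a channel given by its columns. -/
def netsOf (W : List (ℕ × ℕ)) (n : ℕ) : List (List ℕ × List ℕ) :=
  (List.range n).map (fun i =>
    (((W.zipIdx 1).filter (fun p => decide (p.1.1 = i))).map Prod.snd,
      ((W.zipIdx 1).filter (fun p => decide (p.1.2 = i))).map Prod.snd))

/-- The number of nets. -/
def total (w l : ℕ) (ops : List Op) : ℕ := w + 2 * swaps ops + (ops.length + 1) * l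

/-- The channel routing problem. -/
def inst (w l : ℕ) (ops : List Op) : CRP :=
  ((word w l ops).length, netsOf (word w l ops) (total w l ops))

/-! ### Properties of the columns -/

theorem upd_length (cur : List ℕ) (a b x y : ℕ) : (upd cur a b x y).length = cur.length := by
  simp [upd]

theorem upd_getD (cur : List ℕ) (a b x y : ℕ) {k : ℕ} (hk : k < cur.length) :
    (upd cur a b x y).getD k 0 = if k = a then x else if k = b then y else cur.getD k 0 := by
  rw [List.getD_eq_getElem _ _ (by rw [upd_length]; exact hk), List.getD_eq_getElem _ _ hk]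
  simp [upd]

/-- The current nets are different and have small numbers. -/
structure Good (w q : ℕ) (cur : List ℕ) : Prop where
  len : cur.length = w
  lt : ∀ k < w, cur.getD k 0 < w + 2 * q
  inj : ∀ k < w, ∀ k' < w, cur.getD k 0 = cur.getD k' 0 → k = k'

theorem good_range (w : ℕ) : Good w 0 (List.range w) := by
  have h : ∀ k < w, (List.range w).getD k 0 = k := by
    intro k hk
    rw [List.getD_eq_getElem _ _ (by simpa using hk)]
    simp
  refine ⟨by simp, fun k hk => by rw [h k hk]; omega, fun k hk k' hk' hkk => ?_⟩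
  rw [h k hk, h k' hk'] at hkk
  exact hkk

/-- Valid operations. -/
def Valid (w : ℕ) (ops : List Op) : Prop := ∀ op ∈ ops, op.2.1 < w ∧ op.2.2 < w ∧ op.2.1 ≠ op.2.2

theorem Good.next {w q : ℕ} {cur : List ℕ} (h : Good w q cur) (op : Op) :
    Good w (nq q op) (nxt w cur q op) := by
  unfold nq nxt
  by_cases h0 : op.1 = true
  · rw [if_pos h0, if_pos h0]
    exact h
  · rw [if_neg h0, if_neg h0]
    have h4 := h.lt
    refine ⟨by rw [upd_length]; exact h.len, fun k hk => ?_, fun k hk k' hk' hkk => ?_⟩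
    · rw [upd_getD _ _ _ _ _ (by rw [h.len]; exact hk)]
      have := h4 k hk
      split_ifs <;> omega
    · rw [upd_getD _ _ _ _ _ (by rw [h.len]; exact hk),
        upd_getD _ _ _ _ _ (by rw [h.len]; exact hk')] at hkk
      have e1 := h4 k hk
      have e2 := h4 k' hk'
      by_cases h7 : cur.getD k 0 = cur.getD k' 0
      · exact h.inj k hk k' hk' h7
      · split_ifs at hkk <;> omega

theorem swaps_cons (op : Op) (ops : List Op) (q : ℕ) :
    q + swaps (op :: ops) = nq q op + swaps ops := by
  unfold swaps nq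
  rw [List.filter_cons]
  cases h : op.1
  · simp
    omega
  · simp

theorem mem_zn {M l j : ℕ} {p : ℕ × ℕ} (h : p ∈ zn M l j) :
    p.2 = p.1 ∧ M + j * l ≤ p.1 ∧ p.1 < M + (j + 1) * l := by
  unfold zn at h
  rw [List.mem_map] at h
  obtain ⟨i, hi, rfl⟩ := h
  rw [List.mem_range] at hi
  refine ⟨rfl, by simp only; omega, ?_⟩
  simp only
  rw [Nat.add_mul]
  omega

theorem zn_length (M l j : ℕ) : (zn M l j).length = l := by simp [zn]

theorem mem_hd {w q : ℕ} {cur : List ℕ} (h : Good w q cur) {op : Op}
    (h1 : op.2.1 < w ∧ op.2.2 < w ∧ op.2.1 ≠ op.2.2) {p : ℕ × ℕ} (hp : p ∈ hd w cur q op) :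
    p.1 < w + 2 * nq q op ∧ p.2 < w + 2 * nq q op := by
  unfold hd at hp
  unfold nq
  have e1 := h.lt _ h1.1
  have e2 := h.lt _ h1.2.1
  split_ifs at hp ⊢ with h0
  · simp only [List.mem_singleton] at hp
    subst hp
    exact ⟨e1, e2⟩
  · simp only [List.mem_cons, List.not_mem_nil, or_false] at hp
    rcases hp with rfl | rfl | rfl | rfl <;> simp only <;> omega

theorem valid_cons {w : ℕ} {op : Op} {ops : List Op} (h : Valid w (op :: ops)) :
    (op.2.1 < w ∧ op.2.2 < w ∧ op.2.1 ≠ op.2.2) ∧ Valid w ops :=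
  ⟨h op (by simp), fun o ho => h o (by simp [ho])⟩

theorem mem_final {w q : ℕ} {cur : List ℕ} (h : Good w q cur) {p : ℕ × ℕ}
    (hp : p ∈ cur.map (fun N => (N, N))) : p.2 = p.1 ∧ p.1 < w + 2 * q := by
  rw [List.mem_map] at hp
  obtain ⟨N, hN, rfl⟩ := hp
  obtain ⟨k, hk, rfl⟩ := List.getElem_of_mem hN
  have := h.lt k (by rw [← h.len]; exact hk)
  rw [List.getD_eq_getElem _ _ hk] at this
  exact ⟨rfl, this⟩

theorem wd_bounds {w M l : ℕ} : ∀ (ops : List Op) (cur : List ℕ) (j q : ℕ), Good w q cur →
    Valid w ops → w + 2 * (q + swaps ops) = M → ∀ p ∈ wd w M l ops cur j q,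
    (p.1 < M + (j + ops.length) * l ∧ p.2 < M + (j + ops.length) * l) ∧
    (M ≤ p.1 → p.2 = p.1 ∧ M + j * l ≤ p.1) := by
  intro ops
  induction ops with
  | nil =>
    intro cur j q hg _ hM p hp
    obtain ⟨h1, h2⟩ := mem_final hg hp
    rw [h1]
    refine ⟨⟨by omega, by omega⟩, fun h3 => by omega⟩
  | cons op ops ih =>
    intro cur j q hg hv hM p hp
    obtain ⟨h1, h2⟩ := valid_cons hv
    have hq := swaps_cons op ops q
    have hlen : (j + (op :: ops).length) * l = (j + 1 + ops.length) * l := by
      congr 1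
      rw [List.length_cons]
      omega
    have e1 : (j + 1 + ops.length) * l = j * l + l + ops.length * l := by ring
    have e2 : (j + 1) * l = j * l + l := by ring
    rw [wd, List.mem_append, List.mem_append] at hp
    rcases hp with hp | hp | hp
    · obtain ⟨h3, h4⟩ := mem_hd hg h1 hp
      refine ⟨⟨by omega, by omega⟩, fun h3 => by omega⟩
    · obtain ⟨h3, h4, h5⟩ := mem_zn hp
      refine ⟨⟨by omega, by omega⟩, fun _ => ⟨h3, h4⟩⟩
    · obtain ⟨h3, h4⟩ := ih (nxt w cur q op) (j + 1) (nq q op) (hg.next op) h2 (by omega)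
        p hp
      refine ⟨⟨by omega, by omega⟩, fun h5 => ?_⟩
      obtain ⟨h6, h7⟩ := h4 h5
      exact ⟨h6, by omega⟩

/-- The order of the vertical nets. -/
def VOrd (M : ℕ) (p p' : ℕ × ℕ) : Prop := M ≤ p.1 → M ≤ p'.1 → p.1 < p'.1

theorem zn_pairwise (M l j : ℕ) : (zn M l j).Pairwise (VOrd M) := by
  unfold zn
  rw [List.pairwise_map]
  refine List.Pairwise.imp ?_ (List.pairwise_lt_range (n := l))
  intro a b hab _ _
  simp only
  omega

theorem wd_pairwise {w M l : ℕ} : ∀ (ops : List Op) (cur : List ℕ) (j q : ℕ), Good w q cur →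
    Valid w ops → w + 2 * (q + swaps ops) = M → (wd w M l ops cur j q).Pairwise (VOrd M) := by
  intro ops
  induction ops with
  | nil =>
    intro cur j q hg _ hM
    refine List.pairwise_of_forall_mem_list ?_
    intro p hp p' _ h1
    have := (mem_final hg hp).2
    omega
  | cons op ops ih =>
    intro cur j q hg hv hM
    obtain ⟨h1, h2⟩ := valid_cons hv
    have hq := swaps_cons op ops q
    rw [wd, List.pairwise_append, List.pairwise_append]
    refine ⟨?_, ⟨zn_pairwise _ _ _, ih _ _ _ (hg.next op) h2 (by omega), ?_⟩, ?_⟩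
    · refine List.pairwise_of_forall_mem_list ?_
      intro p hp p' _ h3
      have := mem_hd hg h1 hp
      omega
    · intro p hp p' hp' _ h4
      have h5 := mem_zn hp
      have h6 := (wd_bounds ops _ _ _ (hg.next op) h2 (by omega) p' hp').2 h4
      omega
    · intro p hp p' _ h3
      have := mem_hd hg h1 hp
      omega

/-- Every current net appears later. -/
theorem mem_wd {w M l : ℕ} : ∀ (ops : List Op) (cur : List ℕ) (j q : ℕ), Good w q cur →
    ∀ k < w, ∃ p ∈ wd w M l ops cur j q, p.1 = cur.getD k 0 := by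
  intro ops
  induction ops with
  | nil =>
    intro cur j q hg k hk
    refine ⟨(cur.getD k 0, cur.getD k 0), ?_, rfl⟩
    rw [wd, List.mem_map]
    refine ⟨cur.getD k 0, ?_, rfl⟩
    rw [List.getD_eq_getElem _ _ (by rw [hg.len]; exact hk)]
    exact List.getElem_mem _
  | cons op ops ih =>
    intro cur j q hg k hk
    rw [wd]
    by_cases h0 : op.1 = true
    · have h1 : nxt w cur q op = cur := by rw [nxt, if_pos h0]
      have h2 : nq q op = q := by rw [nq, if_pos h0]
      rw [h1, h2]
      obtain ⟨p, hp, h3⟩ := ih cur (j + 1) q hg k hk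
      exact ⟨p, List.mem_append_right _ (List.mem_append_right _ hp), h3⟩
    · by_cases h1 : k = op.2.1
      · refine ⟨(cur.getD k 0, cur.getD k 0), List.mem_append_left _ ?_, rfl⟩
        rw [hd, if_neg h0, h1]
        simp
      · by_cases h2 : k = op.2.2
        · refine ⟨(cur.getD k 0, cur.getD k 0), List.mem_append_left _ ?_, rfl⟩
          rw [hd, if_neg h0, h2]
          simp
        · have h3 : (nxt w cur q op).getD k 0 = cur.getD k 0 := by
            rw [nxt, if_neg h0, upd_getD _ _ _ _ _ (by rw [hg.len]; exact hk), if_neg h1,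
              if_neg h2]
          obtain ⟨p, hp, h5⟩ := ih _ (j + 1) _ (hg.next op) k hk
          rw [h3] at h5
          exact ⟨p, List.mem_append_right _ (List.mem_append_right _ hp), h5⟩

/-- Every number that is still to be used is used. -/
theorem wd_surj {w M l : ℕ} : ∀ (ops : List Op) (cur : List ℕ) (j q : ℕ), ∀ i,
    (w + 2 * q ≤ i ∧ i < w + 2 * (q + swaps ops)) ∨
    (M + j * l ≤ i ∧ i < M + (j + ops.length) * l) → (i, i) ∈ wd w M l ops cur j q := by
  intro ops
  induction ops with
  | nil =>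
    intro cur j q i hi
    have h0 : swaps [] = 0 := rfl
    have h1 : (j + ([] : List Op).length) * l = j * l := rfl
    rw [h0, h1] at hi
    omega
  | cons op ops ih =>
    intro cur j q i hi
    have hq := swaps_cons op ops q
    have hlen : (j + (op :: ops).length) * l = (j + 1 + ops.length) * l := by
      congr 1
      rw [List.length_cons]
      omega
    have e2 : (j + 1) * l = j * l + l := by ring
    rw [hq, hlen] at hi
    rw [wd, List.mem_append, List.mem_append]
    by_cases h1 : (w + 2 * nq q op ≤ i ∧ i < w + 2 * (nq q op + swaps ops)) ∨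
        (M + (j + 1) * l ≤ i ∧ i < M + (j + 1 + ops.length) * l)
    · exact Or.inr (Or.inr (ih _ _ _ i h1))
    · by_cases h2 : w + 2 * q ≤ i ∧ i < w + 2 * nq q op
      · left
        unfold nq at h2
        unfold hd
        split_ifs at h2 ⊢ with h3
        · omega
        · have h4 : i = w + 2 * q ∨ i = w + 2 * q + 1 := by omega
          rcases h4 with rfl | rfl <;> simp
      · right
        left
        unfold zn
        rw [List.mem_map]
        refine ⟨i - (M + j * l), ?_, ?_⟩
        · rw [List.mem_range]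
          omega
        · have : M + j * l + (i - (M + j * l)) = i := by omega
          rw [this]

/-- The properties of all columns. -/
theorem word_bounds {w l : ℕ} {ops : List Op} (hv : Valid w ops) {p : ℕ × ℕ}
    (hp : p ∈ word w l ops) : p.1 < total w l ops ∧ p.2 < total w l ops ∧
      (w + 2 * swaps ops ≤ p.1 → p.2 = p.1) := by
  unfold word at hp
  unfold total
  have e1 : (ops.length + 1) * l = ops.length * l + l := by ring
  have e2 : (0 + 1) * l = l := by ring
  have e3 : (1 + ops.length) * l = ops.length * l + l := by ring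
  rw [List.mem_append, List.mem_append] at hp
  rcases hp with hp | hp | hp
  · rw [List.mem_map] at hp
    obtain ⟨i, hi, rfl⟩ := hp
    rw [List.mem_range] at hi
    refine ⟨by simp only; omega, by simp only; omega, fun _ => rfl⟩
  · obtain ⟨h1, h2, h3⟩ := mem_zn hp
    refine ⟨by omega, by omega, fun _ => h1⟩
  · obtain ⟨h1, h2⟩ := wd_bounds ops (List.range w) 1 0 (good_range w) hv (by simp) p hp
    refine ⟨by omega, by omega, fun h3 => (h2 h3).1⟩

theorem word_pairwise {w l : ℕ} {ops : List Op} (hv : Valid w ops) :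
    (word w l ops).Pairwise (VOrd (w + 2 * swaps ops)) := by
  unfold word
  rw [List.pairwise_append, List.pairwise_append]
  refine ⟨?_, ⟨zn_pairwise _ _ _, wd_pairwise ops _ _ _ (good_range w) hv (by simp), ?_⟩, ?_⟩
  · refine List.pairwise_of_forall_mem_list ?_
    intro p hp p' _ h1
    rw [List.mem_map] at hp
    obtain ⟨i, hi, rfl⟩ := hp
    rw [List.mem_range] at hi
    simp only at h1
    omega
  · intro p hp p' hp' _ h4
    have h5 := mem_zn hp
    have h6 := (wd_bounds ops (List.range w) 1 0 (good_range w) hv (by simp) p' hp').2 h4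
    omega
  · intro p hp p' _ h1
    rw [List.mem_map] at hp
    obtain ⟨i, hi, rfl⟩ := hp
    rw [List.mem_range] at hi
    simp only at h1
    omega

theorem word_surj {w l : ℕ} {ops : List Op} {i : ℕ} (hi : i < total w l ops) :
    (i, i) ∈ word w l ops := by
  unfold word
  unfold total at hi
  have e1 : (ops.length + 1) * l = ops.length * l + l := by ring
  have e3 : (1 + ops.length) * l = ops.length * l + l := by ring
  rw [List.mem_append, List.mem_append]
  by_cases h1 : i < w
  · left
    rw [List.mem_map]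
    exact ⟨i, List.mem_range.2 h1, rfl⟩
  · by_cases h2 : w + 2 * swaps ops ≤ i ∧ i < w + 2 * swaps ops + l
    · right; left
      unfold zn
      rw [List.mem_map]
      refine ⟨i - (w + 2 * swaps ops), List.mem_range.2 (by omega), ?_⟩
      have : w + 2 * swaps ops + 0 * l + (i - (w + 2 * swaps ops)) = i := by omega
      rw [this]
    · right; right
      refine wd_surj ops _ _ _ i ?_
      omega

theorem netsOf_length (W : List (ℕ × ℕ)) (n : ℕ) : (netsOf W n).length = n := by simp [netsOf]

theorem netsOf_get (W : List (ℕ × ℕ)) (n : ℕ) {i : ℕ} (hi : i < (netsOf W n).length) :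
    (netsOf W n)[i] = (((W.zipIdx 1).filter (fun p => decide (p.1.1 = i))).map Prod.snd,
      ((W.zipIdx 1).filter (fun p => decide (p.1.2 = i))).map Prod.snd) := by
  simp only [netsOf, List.getElem_map, List.getElem_range]

/-- The upper terminals of a net. -/
theorem mem_upper {W : List (ℕ × ℕ)} {i x : ℕ} :
    x ∈ ((W.zipIdx 1).filter (fun p => decide (p.1.1 = i))).map Prod.snd ↔
      ∃ h : 1 ≤ x ∧ x - 1 < W.length, (W[x - 1]'h.2).1 = i := by
  simp only [List.mem_map, List.mem_filter, decide_eq_true_eq, Prod.exists]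
  constructor
  · rintro ⟨t, b, x', ⟨h1, h2⟩, rfl⟩
    obtain ⟨h3, h4, h5⟩ := List.mk_mem_zipIdx_iff_le_and_getElem?_sub.1 h1 |>.imp id
      (fun h => List.getElem?_eq_some_iff.1 h) |> fun h => (⟨h.1, h.2.1, h.2.2⟩ :
        1 ≤ x' ∧ ∃ _ : x' - 1 < W.length, _)
    refine ⟨⟨h3, h4⟩, ?_⟩
    rw [h5]
    exact h2
  · rintro ⟨⟨h1, h2⟩, h3⟩
    refine ⟨(W[x - 1]).1, (W[x - 1]).2, x, ⟨?_, h3⟩, rfl⟩
    rw [List.mk_mem_zipIdx_iff_le_and_getElem?_sub]
    exact ⟨h1, List.getElem?_eq_getElem h2⟩

theorem mem_lower {W : List (ℕ × ℕ)} {i x : ℕ} :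
    x ∈ ((W.zipIdx 1).filter (fun p => decide (p.1.2 = i))).map Prod.snd ↔
      ∃ h : 1 ≤ x ∧ x - 1 < W.length, (W[x - 1]'h.2).2 = i := by
  simp only [List.mem_map, List.mem_filter, decide_eq_true_eq, Prod.exists]
  constructor
  · rintro ⟨t, b, x', ⟨h1, h2⟩, rfl⟩
    obtain ⟨h3, h4, h5⟩ := List.mk_mem_zipIdx_iff_le_and_getElem?_sub.1 h1 |>.imp id
      (fun h => List.getElem?_eq_some_iff.1 h) |> fun h => (⟨h.1, h.2.1, h.2.2⟩ :
        1 ≤ x' ∧ ∃ _ : x' - 1 < W.length, _)
    refine ⟨⟨h3, h4⟩, ?_⟩
    rw [h5]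
    exact h2
  · rintro ⟨⟨h1, h2⟩, h3⟩
    refine ⟨(W[x - 1]).1, (W[x - 1]).2, x, ⟨?_, h3⟩, rfl⟩
    rw [List.mk_mem_zipIdx_iff_le_and_getElem?_sub]
    exact ⟨h1, List.getElem?_eq_getElem h2⟩

end Pool.Agent.W947.CR
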